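import Mathlib

/-!
# The arithmetic of one block
-/

namespace Pool.Agent.H79.BP

/-- A block: two vertices `c`, `c'` on the chain with neighbours of sizes `l`, `r`, and a pendant
with sizes `p1`, `p2`, `p3`, `p4`; there are `a` available colours. -/
theorem block {a l c c' r p1 p2 p3 p4 : ℕ} (hc : c ≤ 1) (hc' : c' ≤ 1) (h1 : p1 ≤ 1)
    (h2 : p2 ≤ 3) (h3 : p3 ≤ 2) (hl : l ≤ 1) (hr : r ≤ 1)
    (d : 1 ≤ c → a + 1 ≤ c + l + c' + p1 + p4) (d' : 1 ≤ c' → a + 1 ≤ c' + c + r + p1 + p4)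
    (d1 : 1 ≤ p1 → a + 1 ≤ p1 + c + c' + p2) (d2 : 1 ≤ p2 → a + 1 ≤ p2 + p1 + p3)
    (d3 : 1 ≤ p3 → a + 1 ≤ p3 + p2 + p4) (d4 : 1 ≤ p4 → a + 1 ≤ p4 + c + c' + p3)
    (q1 : c + c' + p1 ≤ a) (q2 : p1 + p2 ≤ a) (q3 : p2 + p3 ≤ a) (q4 : p3 + p4 ≤ a)
    (q5 : c + c' + p4 ≤ a) (tot : c + c' + p1 + p2 + p3 + p4 ≤ 2 * a) :
    (p1 + p2 + p3 + p4 = 0 ∧ ((c = 0 ∧ c' = 0) ∨ (c = 1 ∧ c' = 0 ∧ a = 1 ∧ l = 1) ∨
      (c = 0 ∧ c' = 1 ∧ a = 1 ∧ r = 1) ∨ (c = 1 ∧ c' = 1 ∧ a = 2 ∧ l = 1 ∧ r = 1))) ∨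
    (c = 1 ∧ c' = 1 ∧ l = 1 ∧ r = 1 ∧ (a = 4 ∨ a = 5)) := by
  have e1 : p1 = 0 → p2 = 0 := by omega
  have e2 : p2 = 0 → p3 = 0 := by omega
  have e3 : p3 = 0 → p4 = 0 := by omega
  have e4 : p4 = 0 → p3 = 0 := by omega
  have e5 : p3 = 0 → p2 = 0 := by omega
  have e6 : p2 = 0 → p1 = 0 := by omega
  rcases Nat.eq_zero_or_pos p1 with hp | hp
  · left
    have f2 := e1 hp
    have f3 := e2 f2
    have f4 := e3 f3
    refine ⟨by omega, ?_⟩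
    rcases Nat.eq_zero_or_pos c with hc0 | hc0 <;> rcases Nat.eq_zero_or_pos c' with hc0' | hc0'
    · omega
    · omega
    · omega
    · omega
  · right
    have f4 : 1 ≤ p4 := by
      by_contra h
      have := e6 (e5 (e4 (by omega)))
      omega
    have f3 : 1 ≤ p3 := by
      by_contra h
      have := e6 (e5 (by omega))
      omega
    have f2 : 1 ≤ p2 := by
      by_contra h
      have := e6 (by omega)
      omega
    have g1 := d1 hp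
    have g2 := d2 f2
    have g3 := d3 f3
    have g4 := d4 f4
    have k : c + c' = 2 := by omega
    have kc : c = 1 := by omega
    have kc' : c' = 1 := by omega
    subst kc; subst kc'
    have g5 := d le_rfl
    have g6 := d' le_rfl
    have kp : p1 = 1 := by omega
    subst kp
    refine ⟨rfl, rfl, ?_, ?_, ?_⟩ <;> omega

end Pool.Agent.H79.BP
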