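import Pool.Agent.H79.BP.Model

/-!
# The chain

Bags are pairs `(b, i)`: tag `b < 25` and index `i`. Tags:
`0` f0, `1` C0, `2` d0, `3` s0 (left cap, index `0`);
`4` g, `5` U, `6` f, `7` c1, `8` c2, `9 10 11 12` p1 p2 p3 p4 (pendant at c1, c2), `13` c3, `14` c4,
`15 16 17 18` q1 q2 q3 q4 (pendant at c3, c4), `19` f', `20` U', `21` g' (units, index `1 ≤ i ≤ M`);
`22` F, `23` C, `24` f0* (right cap, index `M + 1`).
-/

namespace Pool.Agent.H79.BP

/-- The neighbouring tags `(b, b', δ)`: the bag `(b, i)` is a neighbour of `(b', i + δ)`. -/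
def EL : List (ℕ × (ℕ × ℕ)) :=
  [(0, 1, 0), (1, 2, 0), (2, 3, 0),
   (4, 5, 0), (5, 6, 0), (6, 7, 0), (7, 8, 0), (8, 13, 0), (13, 14, 0), (14, 19, 0), (19, 20, 0),
   (20, 21, 0),
   (7, 9, 0), (8, 9, 0), (9, 10, 0), (10, 11, 0), (11, 12, 0), (7, 12, 0), (8, 12, 0),
   (13, 15, 0), (14, 15, 0), (15, 16, 0), (16, 17, 0), (17, 18, 0), (13, 18, 0), (14, 18, 0),
   (22, 23, 0), (23, 24, 0),
   (3, 4, 1), (21, 4, 1), (3, 22, 1), (21, 22, 1)]

/-- The bag `q` comes after its neighbour `p`. -/
def ERel (p q : ℕ × ℕ) : Prop := ∃ r ∈ EL, p.1 = r.1 ∧ q.1 = r.2.1 ∧ q.2 = p.2 + r.2.2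

instance (p q : ℕ × ℕ) : Decidable (ERel p q) := by unfold ERel; infer_instance

/-- The neighbours of a bag. -/
def nbs (p : ℕ × ℕ) : Finset (ℕ × ℕ) :=
  ((Finset.range 25) ×ˢ (Finset.Icc (p.2 - 1) (p.2 + 1))).filter fun q => ERel p q ∨ ERel q p

theorem mem_nbs {p q : ℕ × ℕ} : q ∈ nbs p ↔ ERel p q ∨ ERel q p := by
  unfold nbs
  rw [Finset.mem_filter, and_iff_right_iff_imp]
  intro h
  rw [Finset.mem_product, Finset.mem_range, Finset.mem_Icc]
  have key : ∀ r ∈ EL, r.1 < 25 ∧ r.2.1 < 25 ∧ r.2.2 ≤ 1 := by decide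
  rcases h with ⟨r, hr, h1, h2, h3⟩ | ⟨r, hr, h1, h2, h3⟩
  · obtain ⟨k1, k2, k3⟩ := key r hr
    omega
  · obtain ⟨k1, k2, k3⟩ := key r hr
    omega

theorem nbs_symm (p q : ℕ × ℕ) (h : q ∈ nbs p) : p ∈ nbs q := by
  rw [mem_nbs] at *
  exact h.symm

theorem nbs_irrefl (p : ℕ × ℕ) : p ∉ nbs p := by
  rw [mem_nbs, or_self]
  rintro ⟨r, hr, h1, h2, -⟩
  have key : ∀ r ∈ EL, r.1 ≠ r.2.1 := by decide
  exact key r hr (h1.symm.trans h2)

/-- The capacities. -/
def capL : List ℕ :=
  [1, 2, 1, 1, 1, 2, 1, 1, 1, 1, 3, 2, 2, 1, 1, 1, 3, 2, 2, 1, 2, 1, 1, 2, 1]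

variable {N : Type} [DecidableEq N] [Inhabited N]

/-- The names that occur in the triples. -/
def tnames (T : List (N × (N × N))) : Finset N :=
  (T.flatMap fun t => [t.1, t.2.1, t.2.2]).toFinset

/-- The triple of the unit number `i ≥ 1`. -/
def trip (T : List (N × (N × N))) (i : ℕ) : N × (N × N) := T.getD (i - 1) default

/-- The names missed by the bag. -/
def chL (z : N) (T : List (N × (N × N))) (p : ℕ × ℕ) : Finset N :=
  if p.1 = 0 ∨ p.1 = 3 ∨ p.1 = 24 then ∅
  else if 7 ≤ p.1 ∧ p.1 ≤ 12 then {z, (trip T p.2).1, (trip T p.2).2.1}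
  else if 13 ≤ p.1 ∧ p.1 ≤ 18 then {z, (trip T p.2).1, (trip T p.2).2.1, (trip T p.2).2.2}
  else {z}

/-- The existing bags, for `M` units. -/
def chJ (M : ℕ) : Finset (ℕ × ℕ) :=
  (Finset.range 4 ×ˢ {0}) ∪ (Finset.Ico 4 22 ×ˢ Finset.Ico 1 (M + 1)) ∪
    (Finset.Ico 22 25 ×ˢ {M + 1})

theorem mem_chJ {M b i : ℕ} : (b, i) ∈ chJ M ↔
    (b < 4 ∧ i = 0) ∨ (4 ≤ b ∧ b < 22 ∧ 1 ≤ i ∧ i ≤ M) ∨ (22 ≤ b ∧ b < 25 ∧ i = M + 1) := by
  simp only [chJ, Finset.mem_union, Finset.mem_product, Finset.mem_range, Finset.mem_singleton,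
    Finset.mem_Ico]
  omega

/-- The model of the reduction. -/
def chain (z : N) (T : List (N × (N × N))) : Mdl N (ℕ × ℕ) where
  nbrs := nbs
  symm := nbs_symm
  irrefl := nbs_irrefl
  L := chL z T
  cap p := if p ∈ chJ T.length then capL.getD p.1 0 else 0
  J := chJ T.length
  names := insert z (tnames T)

/-! ### The sets of neighbours -/

theorem nbs_0 (i : ℕ) : nbs (0, i) = {(1, i)} := by
  ext ⟨b, j⟩
  simp only [mem_nbs, ERel, EL, List.mem_cons, List.not_mem_nil, or_false, or_and_right,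
    exists_or, exists_eq_left, Finset.mem_insert, Finset.mem_singleton, Prod.mk.injEq]
  simp only [Nat.reduceEqDiff, false_and, true_and, false_or, or_false, and_false, and_true,
    Nat.add_zero, OfNat.ofNat_ne_zero, OfNat.zero_ne_ofNat]
  try omega

theorem nbs_1 (i : ℕ) : nbs (1, i) = {(0, i), (2, i)} := by
  ext ⟨b, j⟩
  simp only [mem_nbs, ERel, EL, List.mem_cons, List.not_mem_nil, or_false, or_and_right,
    exists_or, exists_eq_left, Finset.mem_insert, Finset.mem_singleton, Prod.mk.injEq]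
  simp only [Nat.reduceEqDiff, false_and, true_and, false_or, or_false, and_false, and_true,
    Nat.add_zero, OfNat.ofNat_ne_zero, OfNat.zero_ne_ofNat]
  try omega

theorem nbs_2 (i : ℕ) : nbs (2, i) = {(1, i), (3, i)} := by
  ext ⟨b, j⟩
  simp only [mem_nbs, ERel, EL, List.mem_cons, List.not_mem_nil, or_false, or_and_right,
    exists_or, exists_eq_left, Finset.mem_insert, Finset.mem_singleton, Prod.mk.injEq]
  simp only [Nat.reduceEqDiff, false_and, true_and, false_or, or_false, and_false, and_true,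
    Nat.add_zero, OfNat.ofNat_ne_zero, OfNat.zero_ne_ofNat]
  try omega

theorem nbs_3 (i : ℕ) : nbs (3, i) = {(2, i), (4, i + 1), (22, i + 1)} := by
  ext ⟨b, j⟩
  simp only [mem_nbs, ERel, EL, List.mem_cons, List.not_mem_nil, or_false, or_and_right,
    exists_or, exists_eq_left, Finset.mem_insert, Finset.mem_singleton, Prod.mk.injEq]
  simp only [Nat.reduceEqDiff, false_and, true_and, false_or, or_false, and_false, and_true,
    Nat.add_zero, OfNat.ofNat_ne_zero, OfNat.zero_ne_ofNat]
  try omega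

theorem nbs_4 (i : ℕ) : nbs (4, i + 1) = {(5, i + 1), (3, i), (21, i)} := by
  ext ⟨b, j⟩
  simp only [mem_nbs, ERel, EL, List.mem_cons, List.not_mem_nil, or_false, or_and_right,
    exists_or, exists_eq_left, Finset.mem_insert, Finset.mem_singleton, Prod.mk.injEq]
  simp only [Nat.reduceEqDiff, false_and, true_and, false_or, or_false, and_false, and_true,
    Nat.add_zero, OfNat.ofNat_ne_zero, OfNat.zero_ne_ofNat]
  try omega

theorem nbs_5 (i : ℕ) : nbs (5, i) = {(4, i), (6, i)} := by
  ext ⟨b, j⟩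
  simp only [mem_nbs, ERel, EL, List.mem_cons, List.not_mem_nil, or_false, or_and_right,
    exists_or, exists_eq_left, Finset.mem_insert, Finset.mem_singleton, Prod.mk.injEq]
  simp only [Nat.reduceEqDiff, false_and, true_and, false_or, or_false, and_false, and_true,
    Nat.add_zero, OfNat.ofNat_ne_zero, OfNat.zero_ne_ofNat]
  try omega

theorem nbs_6 (i : ℕ) : nbs (6, i) = {(5, i), (7, i)} := by
  ext ⟨b, j⟩
  simp only [mem_nbs, ERel, EL, List.mem_cons, List.not_mem_nil, or_false, or_and_right,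
    exists_or, exists_eq_left, Finset.mem_insert, Finset.mem_singleton, Prod.mk.injEq]
  simp only [Nat.reduceEqDiff, false_and, true_and, false_or, or_false, and_false, and_true,
    Nat.add_zero, OfNat.ofNat_ne_zero, OfNat.zero_ne_ofNat]
  try omega

theorem nbs_7 (i : ℕ) : nbs (7, i) = {(6, i), (8, i), (9, i), (12, i)} := by
  ext ⟨b, j⟩
  simp only [mem_nbs, ERel, EL, List.mem_cons, List.not_mem_nil, or_false, or_and_right,
    exists_or, exists_eq_left, Finset.mem_insert, Finset.mem_singleton, Prod.mk.injEq]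
  simp only [Nat.reduceEqDiff, false_and, true_and, false_or, or_false, and_false, and_true,
    Nat.add_zero, OfNat.ofNat_ne_zero, OfNat.zero_ne_ofNat]
  try omega

theorem nbs_8 (i : ℕ) : nbs (8, i) = {(7, i), (13, i), (9, i), (12, i)} := by
  ext ⟨b, j⟩
  simp only [mem_nbs, ERel, EL, List.mem_cons, List.not_mem_nil, or_false, or_and_right,
    exists_or, exists_eq_left, Finset.mem_insert, Finset.mem_singleton, Prod.mk.injEq]
  simp only [Nat.reduceEqDiff, false_and, true_and, false_or, or_false, and_false, and_true,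
    Nat.add_zero, OfNat.ofNat_ne_zero, OfNat.zero_ne_ofNat]
  try omega

theorem nbs_9 (i : ℕ) : nbs (9, i) = {(7, i), (8, i), (10, i)} := by
  ext ⟨b, j⟩
  simp only [mem_nbs, ERel, EL, List.mem_cons, List.not_mem_nil, or_false, or_and_right,
    exists_or, exists_eq_left, Finset.mem_insert, Finset.mem_singleton, Prod.mk.injEq]
  simp only [Nat.reduceEqDiff, false_and, true_and, false_or, or_false, and_false, and_true,
    Nat.add_zero, OfNat.ofNat_ne_zero, OfNat.zero_ne_ofNat]
  try omega

theorem nbs_10 (i : ℕ) : nbs (10, i) = {(9, i), (11, i)} := by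
  ext ⟨b, j⟩
  simp only [mem_nbs, ERel, EL, List.mem_cons, List.not_mem_nil, or_false, or_and_right,
    exists_or, exists_eq_left, Finset.mem_insert, Finset.mem_singleton, Prod.mk.injEq]
  simp only [Nat.reduceEqDiff, false_and, true_and, false_or, or_false, and_false, and_true,
    Nat.add_zero, OfNat.ofNat_ne_zero, OfNat.zero_ne_ofNat]
  try omega

theorem nbs_11 (i : ℕ) : nbs (11, i) = {(10, i), (12, i)} := by
  ext ⟨b, j⟩
  simp only [mem_nbs, ERel, EL, List.mem_cons, List.not_mem_nil, or_false, or_and_right,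
    exists_or, exists_eq_left, Finset.mem_insert, Finset.mem_singleton, Prod.mk.injEq]
  simp only [Nat.reduceEqDiff, false_and, true_and, false_or, or_false, and_false, and_true,
    Nat.add_zero, OfNat.ofNat_ne_zero, OfNat.zero_ne_ofNat]
  try omega

theorem nbs_12 (i : ℕ) : nbs (12, i) = {(7, i), (8, i), (11, i)} := by
  ext ⟨b, j⟩
  simp only [mem_nbs, ERel, EL, List.mem_cons, List.not_mem_nil, or_false, or_and_right,
    exists_or, exists_eq_left, Finset.mem_insert, Finset.mem_singleton, Prod.mk.injEq]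
  simp only [Nat.reduceEqDiff, false_and, true_and, false_or, or_false, and_false, and_true,
    Nat.add_zero, OfNat.ofNat_ne_zero, OfNat.zero_ne_ofNat]
  try omega

theorem nbs_13 (i : ℕ) : nbs (13, i) = {(8, i), (14, i), (15, i), (18, i)} := by
  ext ⟨b, j⟩
  simp only [mem_nbs, ERel, EL, List.mem_cons, List.not_mem_nil, or_false, or_and_right,
    exists_or, exists_eq_left, Finset.mem_insert, Finset.mem_singleton, Prod.mk.injEq]
  simp only [Nat.reduceEqDiff, false_and, true_and, false_or, or_false, and_false, and_true,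
    Nat.add_zero, OfNat.ofNat_ne_zero, OfNat.zero_ne_ofNat]
  try omega

theorem nbs_14 (i : ℕ) : nbs (14, i) = {(13, i), (19, i), (15, i), (18, i)} := by
  ext ⟨b, j⟩
  simp only [mem_nbs, ERel, EL, List.mem_cons, List.not_mem_nil, or_false, or_and_right,
    exists_or, exists_eq_left, Finset.mem_insert, Finset.mem_singleton, Prod.mk.injEq]
  simp only [Nat.reduceEqDiff, false_and, true_and, false_or, or_false, and_false, and_true,
    Nat.add_zero, OfNat.ofNat_ne_zero, OfNat.zero_ne_ofNat]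
  try omega

theorem nbs_15 (i : ℕ) : nbs (15, i) = {(13, i), (14, i), (16, i)} := by
  ext ⟨b, j⟩
  simp only [mem_nbs, ERel, EL, List.mem_cons, List.not_mem_nil, or_false, or_and_right,
    exists_or, exists_eq_left, Finset.mem_insert, Finset.mem_singleton, Prod.mk.injEq]
  simp only [Nat.reduceEqDiff, false_and, true_and, false_or, or_false, and_false, and_true,
    Nat.add_zero, OfNat.ofNat_ne_zero, OfNat.zero_ne_ofNat]
  try omega

theorem nbs_16 (i : ℕ) : nbs (16, i) = {(15, i), (17, i)} := by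
  ext ⟨b, j⟩
  simp only [mem_nbs, ERel, EL, List.mem_cons, List.not_mem_nil, or_false, or_and_right,
    exists_or, exists_eq_left, Finset.mem_insert, Finset.mem_singleton, Prod.mk.injEq]
  simp only [Nat.reduceEqDiff, false_and, true_and, false_or, or_false, and_false, and_true,
    Nat.add_zero, OfNat.ofNat_ne_zero, OfNat.zero_ne_ofNat]
  try omega

theorem nbs_17 (i : ℕ) : nbs (17, i) = {(16, i), (18, i)} := by
  ext ⟨b, j⟩
  simp only [mem_nbs, ERel, EL, List.mem_cons, List.not_mem_nil, or_false, or_and_right,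
    exists_or, exists_eq_left, Finset.mem_insert, Finset.mem_singleton, Prod.mk.injEq]
  simp only [Nat.reduceEqDiff, false_and, true_and, false_or, or_false, and_false, and_true,
    Nat.add_zero, OfNat.ofNat_ne_zero, OfNat.zero_ne_ofNat]
  try omega

theorem nbs_18 (i : ℕ) : nbs (18, i) = {(13, i), (14, i), (17, i)} := by
  ext ⟨b, j⟩
  simp only [mem_nbs, ERel, EL, List.mem_cons, List.not_mem_nil, or_false, or_and_right,
    exists_or, exists_eq_left, Finset.mem_insert, Finset.mem_singleton, Prod.mk.injEq]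
  simp only [Nat.reduceEqDiff, false_and, true_and, false_or, or_false, and_false, and_true,
    Nat.add_zero, OfNat.ofNat_ne_zero, OfNat.zero_ne_ofNat]
  try omega

theorem nbs_19 (i : ℕ) : nbs (19, i) = {(14, i), (20, i)} := by
  ext ⟨b, j⟩
  simp only [mem_nbs, ERel, EL, List.mem_cons, List.not_mem_nil, or_false, or_and_right,
    exists_or, exists_eq_left, Finset.mem_insert, Finset.mem_singleton, Prod.mk.injEq]
  simp only [Nat.reduceEqDiff, false_and, true_and, false_or, or_false, and_false, and_true,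
    Nat.add_zero, OfNat.ofNat_ne_zero, OfNat.zero_ne_ofNat]
  try omega

theorem nbs_20 (i : ℕ) : nbs (20, i) = {(19, i), (21, i)} := by
  ext ⟨b, j⟩
  simp only [mem_nbs, ERel, EL, List.mem_cons, List.not_mem_nil, or_false, or_and_right,
    exists_or, exists_eq_left, Finset.mem_insert, Finset.mem_singleton, Prod.mk.injEq]
  simp only [Nat.reduceEqDiff, false_and, true_and, false_or, or_false, and_false, and_true,
    Nat.add_zero, OfNat.ofNat_ne_zero, OfNat.zero_ne_ofNat]
  try omega

theorem nbs_21 (i : ℕ) : nbs (21, i) = {(20, i), (4, i + 1), (22, i + 1)} := by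
  ext ⟨b, j⟩
  simp only [mem_nbs, ERel, EL, List.mem_cons, List.not_mem_nil, or_false, or_and_right,
    exists_or, exists_eq_left, Finset.mem_insert, Finset.mem_singleton, Prod.mk.injEq]
  simp only [Nat.reduceEqDiff, false_and, true_and, false_or, or_false, and_false, and_true,
    Nat.add_zero, OfNat.ofNat_ne_zero, OfNat.zero_ne_ofNat]
  try omega

theorem nbs_22 (i : ℕ) : nbs (22, i + 1) = {(23, i + 1), (3, i), (21, i)} := by
  ext ⟨b, j⟩
  simp only [mem_nbs, ERel, EL, List.mem_cons, List.not_mem_nil, or_false, or_and_right,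
    exists_or, exists_eq_left, Finset.mem_insert, Finset.mem_singleton, Prod.mk.injEq]
  simp only [Nat.reduceEqDiff, false_and, true_and, false_or, or_false, and_false, and_true,
    Nat.add_zero, OfNat.ofNat_ne_zero, OfNat.zero_ne_ofNat]
  try omega

theorem nbs_23 (i : ℕ) : nbs (23, i) = {(22, i), (24, i)} := by
  ext ⟨b, j⟩
  simp only [mem_nbs, ERel, EL, List.mem_cons, List.not_mem_nil, or_false, or_and_right,
    exists_or, exists_eq_left, Finset.mem_insert, Finset.mem_singleton, Prod.mk.injEq]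
  simp only [Nat.reduceEqDiff, false_and, true_and, false_or, or_false, and_false, and_true,
    Nat.add_zero, OfNat.ofNat_ne_zero, OfNat.zero_ne_ofNat]
  try omega

theorem nbs_24 (i : ℕ) : nbs (24, i) = {(23, i)} := by
  ext ⟨b, j⟩
  simp only [mem_nbs, ERel, EL, List.mem_cons, List.not_mem_nil, or_false, or_and_right,
    exists_or, exists_eq_left, Finset.mem_insert, Finset.mem_singleton, Prod.mk.injEq]
  simp only [Nat.reduceEqDiff, false_and, true_and, false_or, or_false, and_false, and_true,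
    Nat.add_zero, OfNat.ofNat_ne_zero, OfNat.zero_ne_ofNat]
  try omega


end Pool.Agent.H79.BP
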