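import Pool.Agent.H79.BP.Chain

/-!
# From a satisfying set to feasible data
-/

namespace Pool.Agent.H79.BP

variable {N : Type} [DecidableEq N] [Inhabited N]

/-- The set `K` of true names satisfies the triple. -/
def Good (K : Finset N) (s : N × (N × N)) : Prop :=
  (s.1 ∈ K ∨ s.2.1 ∈ K) ∧
    ¬ (s.1 ≠ s.2.1 ∧ s.1 ≠ s.2.2 ∧ s.2.1 ≠ s.2.2 ∧ s.1 ∈ K ∧ s.2.1 ∈ K ∧ s.2.2 ∈ K)

/-! ### The sets of colours -/

/-- The sets of names used in the bags, by a code. -/
def nmS (z : N) (A B : Finset N) (c : ℕ) : Finset N :=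
  if c = 1 then {z} else if c = 2 then A else if c = 3 then B else ∅

/-- The codes. -/
def cdL : List ℕ :=
  [0, 1, 0, 0, 1, 0, 1, 0, 0, 1, 2, 1, 2, 0, 0, 1, 3, 1, 3, 0, 1, 0, 0, 1, 0]

/-- The additional colours. -/
def clL : List (Finset (Fin 2)) :=
  [{1}, {0}, {1}, {0}, ∅, {0, 1}, ∅, {0}, {1}, ∅, {0}, {1}, ∅, {0}, {1}, ∅, {0}, {1}, ∅, {0}, {1},
    {0}, {1}, {0}, {1}]

/-- The true names among the first two names of the triple. -/
def ccA (T : List (N × (N × N))) (K : Finset N) (i : ℕ) : Finset N :=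
  K ∩ {(trip T i).1, (trip T i).2.1}

/-- The true names of the triple. -/
def ccB (T : List (N × (N × N))) (K : Finset N) (i : ℕ) : Finset N :=
  K ∩ {(trip T i).1, (trip T i).2.1, (trip T i).2.2}

/-- The sets of colours. -/
def CC (z : N) (T : List (N × (N × N))) (K : Finset N) (p : ℕ × ℕ) : Finset (N ⊕ Fin 2) :=
  if p ∈ chJ T.length then
    (nmS z (ccA T K p.2) (ccB T K p.2) (cdL.getD p.1 0)).disjSum (clL.getD p.1 ∅)
  else ∅

/-- The sizes. -/
def szL (a c : ℕ) : List ℕ :=
  [1, 2, 1, 1, 1, 2, 1, 1, 1, 1, 1 + a, 2, a, 1, 1, 1, 1 + c, 2, c, 1, 2, 1, 1, 2, 1]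

theorem chJ_lt {M b i : ℕ} (h : (b, i) ∈ chJ M) : b < 25 := by
  rw [mem_chJ] at h
  omega

theorem card_CC (z : N) (T : List (N × (N × N))) (K : Finset N) {b i : ℕ}
    (h : (b, i) ∈ chJ T.length) :
    (CC z T K (b, i)).card = (szL (ccA T K i).card (ccB T K i).card).getD b 0 := by
  have hb := chJ_lt h
  rw [CC, if_pos h, Finset.card_disjSum]
  dsimp only
  interval_cases b <;> simp [nmS, cdL, clL, szL, add_comm]

theorem card_CC_zero (z : N) (T : List (N × (N × N))) (K : Finset N) {p : ℕ × ℕ}
    (h : p ∉ chJ T.length) : (CC z T K p).card = 0 := by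
  rw [CC, if_neg h, Finset.card_empty]

/-- JOB BP-COMPLETE. A satisfying set gives feasible data with `e = 2`.

Proof. Write `n1 = inr 0`, `n2 = inr 1`, `z` for `inl z`. For the index `i ≥ 1` let
`X2 = (K ∩ {x, y}).image inl`, `X3 = (K ∩ {x, y, w}).image inl`, where `(x, y, w) = trip T i` (it is in `T` if
`i ≤ M = T.length`). By `Good`, `1 ≤ |X2| ≤ |X3| ≤ 2`. If `(b, i) ∈ chJ M` let `C (b, i)` be the following set
(and `∅` otherwise):
`0: {n2}`, `1: {z, n1}`, `2: {n2}`, `3: {n1}`, `4: {z}`, `5: {n1, n2}`, `6: {z}`, `7: {n1}`, `8: {n2}`,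
`9: {z}`, `10: {n1} ∪ X2`, `11: {z, n2}`, `12: X2`, `13: {n1}`, `14: {n2}`, `15: {z}`, `16: {n1} ∪ X3`,
`17: {z, n2}`, `18: X3`, `19: {n1}`, `20: {z, n2}`, `21: {n1}`, `22: {n2}`, `23: {z, n1}`, `24: {n2}`.
The sizes are `1, 2, 1, 1 | 1, 2, 1, 1, 1, 1, 1 + |X2|, 2, |X2|, 1, 1, 1, 1 + |X3|, 2, |X3|, 1, 2, 1 | 1, 2, 1`.
`sub`: `z ∈ K`, `z ∈ chL z T (b, i)` for the tags `b` that use `z` (`chL` is empty only for `0, 3, 24`),
and `X2, X3` consist of names in `K ∩ chL z T (b, i)`. `disj`: for `(r1, r2, _) ∈ EL` the sets with the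
tags `r1` and `r2` are disjoint (`z ∉ X2, X3` because `z ∉ tnames T`; `X2`, `X3` contain no `inr`).
`deg`: for `b = 7, …, 12` one has `e + |K ∩ chL| = 3 + |X2|`, for `b = 13, …, 18` it is `3 + |X3|`, for
`b = 0, 3, 24` it is `2`, for the others `3`; check with `nbs_0`, …, `nbs_24`:
`0: 3 ≤ 1 + 2`, `1: 4 ≤ 2 + (1 + 1)`, `2: 4 ≤ 1 + (2 + 1)`, `3: 3 ≤ 1 + (1 + 1)` (right neighbour
`(4, 1)` if `M ≥ 1`, `(22, 1)` if `M = 0`), `4: 4 ≤ 1 + (2 + 1)` (left neighbour `(3, 0)` or `(21, i - 1)`),
`5: 4 ≤ 2 + 2`, `6: 4 ≤ 1 + (2 + 1)`, `7: 4 + |X2| ≤ 1 + (1 + 1 + 1 + |X2|)`, `8`: the same,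
`9: 4 + |X2| ≤ 1 + (1 + 1 + 1 + |X2|)`, `10: 4 + |X2| ≤ 1 + |X2| + (1 + 2)`,
`11: 4 + |X2| ≤ 2 + (1 + |X2| + |X2|)` since `|X2| ≥ 1`, `12: 4 + |X2| ≤ |X2| + (1 + 1 + 2)`, `13`-`18`: the same
with `X3`, `19: 4 ≤ 1 + (1 + 2)`, `20: 4 ≤ 2 + 2`, `21: 4 ≤ 1 + (2 + 1)`, `22: 4 ≤ 1 + (2 + 1)`,
`23: 4 ≤ 2 + 2`, `24: 3 ≤ 1 + 2`. `cap`: `1 + |X2| ≤ 3` etc.; compare with `capL`.
`Boost`: for `x = z` the bags `(0,0), (3,0), (24,M+1)` have lists not containing `z`: sum at least `3`.
For `x ∈ K`, `x ≠ z`, the bags `(0,0), (1,0), (2,0), (3,0)` have lists not containing `x`: sum at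
least `5`. (Bound the sum below by the sum over a subset, `Finset.sum_le_sum_of_subset`.) -/
theorem complete {z : N} {T : List (N × (N × N))} {K : Finset N} (hz : z ∉ tnames T)
    (hzK : z ∈ K) (h : ∀ s ∈ T, Good K s) :
    ∃ C : ℕ × ℕ → Finset (N ⊕ Fin 2), Feas (chain z T) K 2 C ∧ Boost (chain z T) K 2 C := by
  have htrip : ∀ i, 1 ≤ i → i ≤ T.length → trip T i ∈ T := by
    intro i h1 h2
    unfold trip
    rw [List.getD_eq_getElem _ _ (by omega)]
    exact List.getElem_mem _
  have hzn : ∀ s ∈ T, z ≠ s.1 ∧ z ≠ s.2.1 ∧ z ≠ s.2.2 := by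
    intro s hs
    refine ⟨?_, ?_, ?_⟩ <;>
    · rintro rfl
      refine hz ?_
      rw [tnames, List.mem_toFinset, List.mem_flatMap]
      exact ⟨s, hs, by simp⟩
  have hA1 : ∀ i, 1 ≤ i → i ≤ T.length → 1 ≤ (ccA T K i).card := by
    intro i h1 h2
    rw [Nat.one_le_iff_ne_zero, Finset.card_ne_zero]
    rcases (h _ (htrip i h1 h2)).1 with h3 | h3
    · exact ⟨_, Finset.mem_inter.2 ⟨h3, by simp⟩⟩
    · exact ⟨_, Finset.mem_inter.2 ⟨h3, by simp⟩⟩
  have hAB : ∀ i, (ccA T K i).card ≤ (ccB T K i).card := by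
    intro i
    refine Finset.card_le_card (Finset.inter_subset_inter_left ?_)
    intro x hx
    simp only [Finset.mem_insert, Finset.mem_singleton] at hx ⊢
    tauto
  have hB2 : ∀ i, 1 ≤ i → i ≤ T.length → (ccB T K i).card ≤ 2 := by
    intro i h1 h2
    by_contra hcon
    have hle : ({(trip T i).1, (trip T i).2.1, (trip T i).2.2} : Finset N).card ≤ 3 :=
      Finset.card_le_three
    have heq : ccB T K i = {(trip T i).1, (trip T i).2.1, (trip T i).2.2} :=
      Finset.eq_of_subset_of_card_le Finset.inter_subset_right (by omega)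
    have h3 : ({(trip T i).1, (trip T i).2.1, (trip T i).2.2} : Finset N).card = 3 := by
      rw [← heq]
      rw [heq] at hcon ⊢
      omega
    rw [Finset.card_eq_three] at h3
    have hK : ({(trip T i).1, (trip T i).2.1, (trip T i).2.2} : Finset N) ⊆ K := by
      rw [← heq]
      exact Finset.inter_subset_left
    have hne : (trip T i).1 ≠ (trip T i).2.1 ∧ (trip T i).1 ≠ (trip T i).2.2 ∧
        (trip T i).2.1 ≠ (trip T i).2.2 := by
      have h4 : ¬ ({(trip T i).1, (trip T i).2.1, (trip T i).2.2} : Finset N).card ≤ 2 := by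
        rw [← heq]
        exact hcon
      refine ⟨fun h5 => h4 ?_, fun h5 => h4 ?_, fun h5 => h4 ?_⟩
      · rw [h5, Finset.insert_eq_of_mem (by simp)]
        exact Finset.card_le_two
      · rw [h5, Finset.insert_eq_of_mem (by simp)]
        exact Finset.card_le_two
      · rw [h5, Finset.insert_eq_of_mem (Finset.mem_singleton_self _)]
        exact Finset.card_le_two
    exact (h _ (htrip i h1 h2)).2 ⟨hne.1, hne.2.1, hne.2.2, hK (by simp), hK (by simp),
      hK (by simp)⟩
  have hzA : ∀ i, 1 ≤ i → i ≤ T.length → z ∉ ccA T K i := by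
    intro i h1 h2 h3
    obtain ⟨h4, h5, h6⟩ := hzn _ (htrip i h1 h2)
    have := Finset.mem_of_mem_inter_right h3
    simp only [Finset.mem_insert, Finset.mem_singleton] at this
    tauto
  have hzB : ∀ i, 1 ≤ i → i ≤ T.length → z ∉ ccB T K i := by
    intro i h1 h2 h3
    obtain ⟨h4, h5, h6⟩ := hzn _ (htrip i h1 h2)
    have := Finset.mem_of_mem_inter_right h3
    simp only [Finset.mem_insert, Finset.mem_singleton] at this
    tauto
  have hcodes : ∀ b < 25, (2 ≤ cdL.getD b 0 → 4 ≤ b ∧ b < 22) ∧ (cdL.getD b 0 = 1 →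
      ¬ (b = 0 ∨ b = 3 ∨ b = 24)) ∧ (cdL.getD b 0 = 2 → 7 ≤ b ∧ b ≤ 12) ∧
      (cdL.getD b 0 = 3 → 13 ≤ b ∧ b ≤ 18) ∧ cdL.getD b 0 ≤ 3 := by decide
  refine ⟨CC z T K, ⟨?_, ?_, ?_, ?_, ?_, ?_⟩, ?_⟩
  · -- sub
    rintro ⟨b, i⟩
    by_cases hp : (b, i) ∈ chJ T.length
    swap
    · rw [CC, if_neg hp]
      exact Finset.empty_subset _
    obtain ⟨c1, c2, c3, c4, c5⟩ := hcodes b (chJ_lt hp)
    rw [CC, if_pos hp]
    refine Finset.disjSum_mono ?_ (Finset.subset_univ _)
    change nmS z (ccA T K i) (ccB T K i) (cdL.getD b 0) ⊆ K ∩ chL z T (b, i)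
    unfold nmS
    split_ifs with h1 h2 h3
    · rw [Finset.singleton_subset_iff, Finset.mem_inter]
      refine ⟨hzK, ?_⟩
      unfold chL
      dsimp only
      rw [if_neg (c2 h1)]
      split_ifs <;> simp
    · have := c3 h2
      refine Finset.inter_subset_inter_left ?_
      unfold chL
      dsimp only
      rw [if_neg (by omega), if_pos this]
      exact Finset.subset_insert _ _
    · have := c4 h3
      refine Finset.inter_subset_inter_left ?_
      unfold chL
      dsimp only
      rw [if_neg (by omega), if_neg (by omega), if_pos this]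
      exact Finset.subset_insert _ _
    · exact Finset.empty_subset _
  · -- zero
    intro p hp
    exact if_neg hp
  · -- disj
    have key : ∀ p q : ℕ × ℕ, ERel p q → Disjoint (CC z T K p) (CC z T K q) := by
      rintro ⟨b, i⟩ ⟨b', i'⟩ ⟨r, hr, h1, h2, h3⟩
      dsimp only at h1 h2 h3
      by_cases hp : (b, i) ∈ chJ T.length
      swap
      · rw [CC, if_neg hp]
        exact Finset.disjoint_empty_left _
      by_cases hq : (b', i') ∈ chJ T.length
      swap
      · rw [CC, CC, if_neg hq]
        exact Finset.disjoint_empty_right _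
      have hr2 : ∀ r ∈ EL, (cdL.getD r.1 0 = 0 ∨ cdL.getD r.2.1 0 = 0 ∨
          (r.2.2 = 0 ∧ cdL.getD r.1 0 = 1 ∧ (cdL.getD r.2.1 0 = 2 ∨ cdL.getD r.2.1 0 = 3)) ∨
          (r.2.2 = 0 ∧ cdL.getD r.2.1 0 = 1 ∧ (cdL.getD r.1 0 = 2 ∨ cdL.getD r.1 0 = 3))) ∧
          Disjoint (clL.getD r.1 ∅) (clL.getD r.2.1 ∅) := by decide
      obtain ⟨h4, h5⟩ := hr2 r hr
      rw [← h1, ← h2] at h4 h5
      rw [CC, CC, if_pos hp, if_pos hq]
      dsimp only
      have h6 : Disjoint (nmS z (ccA T K i) (ccB T K i) (cdL.getD b 0))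
          (nmS z (ccA T K i') (ccB T K i') (cdL.getD b' 0)) := by
        have hlt := chJ_lt hp
        have hlt' := chJ_lt hq
        rw [mem_chJ] at hp hq
        rcases h4 with h4 | h4 | ⟨h7, h4, h8⟩ | ⟨h7, h4, h8⟩
        · rw [h4]
          exact Finset.disjoint_empty_left _
        · rw [h4]
          exact Finset.disjoint_empty_right _
        · have h9 := (hcodes b' hlt').1 (by omega)
          have h10 : 1 ≤ i' ∧ i' ≤ T.length := by omega
          rw [h4]
          rcases h8 with h8 | h8
          · rw [h8]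
            exact Finset.disjoint_singleton_left.2 (hzA i' h10.1 h10.2)
          · rw [h8]
            exact Finset.disjoint_singleton_left.2 (hzB i' h10.1 h10.2)
        · have h9 := (hcodes b hlt).1 (by omega)
          have h10 : 1 ≤ i ∧ i ≤ T.length := by omega
          rw [h4]
          rcases h8 with h8 | h8
          · rw [h8]
            exact Finset.disjoint_singleton_right.2 (hzA i h10.1 h10.2)
          · rw [h8]
            exact Finset.disjoint_singleton_right.2 (hzB i h10.1 h10.2)
      rw [Finset.disjoint_left] at h5 h6 ⊢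
      rintro (x | j) hx hx'
      · rw [Finset.inl_mem_disjSum] at hx hx'
        exact h6 hx hx'
      · rw [Finset.inr_mem_disjSum] at hx hx'
        exact h5 hx hx'
    intro p q hq
    rcases mem_nbs.1 hq with h1 | h1
    · exact key p q h1
    · exact (key q p h1).symm
  · -- deg
    rintro ⟨b, i⟩ hne
    have hp : (b, i) ∈ chJ T.length := by
      by_contra hcon
      rw [CC, if_neg hcon] at hne
      exact Finset.not_nonempty_empty hne
    change 2 + (K ∩ chL z T (b, i)).card + 1 ≤
      (CC z T K (b, i)).card + ∑ j ∈ nbs (b, i), (CC z T K j).card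
    have s2 : ∀ (f : ℕ × ℕ → ℕ) (p q : ℕ × ℕ), p ≠ q → ∑ j ∈ {p, q}, f j = f p + f q :=
      fun f p q h => Finset.sum_pair h
    have s3 : ∀ (f : ℕ × ℕ → ℕ) (p q r : ℕ × ℕ), p ≠ q → p ≠ r → q ≠ r →
        ∑ j ∈ {p, q, r}, f j = f p + (f q + f r) := by
      intro f p q r h1 h2 h3
      rw [Finset.sum_insert (by simp [h1, h2]), Finset.sum_pair h3]
    have s4 : ∀ (f : ℕ × ℕ → ℕ) (p q r t : ℕ × ℕ), p ≠ q → p ≠ r → p ≠ t → q ≠ r → q ≠ t →
        r ≠ t → ∑ j ∈ {p, q, r, t}, f j = f p + (f q + (f r + f t)) := by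
      intro f p q r t h1 h2 h3 h4 h5 h6
      rw [Finset.sum_insert (by simp [h1, h2, h3]), s3 f q r t h4 h5 h6]
    have hcard1 : ¬ (b = 0 ∨ b = 3 ∨ b = 24) → ¬ (7 ≤ b ∧ b ≤ 12) → ¬ (13 ≤ b ∧ b ≤ 18) →
        (K ∩ chL z T (b, i)).card ≤ 1 := by
      intro h1 h2 h3
      unfold chL
      dsimp only
      rw [if_neg h1, if_neg h2, if_neg h3]
      exact (Finset.card_le_card Finset.inter_subset_right).trans (Finset.card_singleton z).le
    have hcard0 : (b = 0 ∨ b = 3 ∨ b = 24) → (K ∩ chL z T (b, i)).card ≤ 0 := by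
      intro h1
      unfold chL
      dsimp only
      rw [if_pos h1, Finset.inter_empty, Finset.card_empty]
    have hcardA : (7 ≤ b ∧ b ≤ 12) → (K ∩ chL z T (b, i)).card ≤ (ccA T K i).card + 1 := by
      intro h1
      unfold chL
      dsimp only
      rw [if_neg (by omega), if_pos h1]
      refine le_trans (Finset.card_le_card ?_) (Finset.card_insert_le z (ccA T K i))
      intro x hx
      rw [Finset.mem_inter, Finset.mem_insert] at hx
      rw [Finset.mem_insert, ccA, Finset.mem_inter]
      tauto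
    have hcardB : (13 ≤ b ∧ b ≤ 18) → (K ∩ chL z T (b, i)).card ≤ (ccB T K i).card + 1 := by
      intro h1
      unfold chL
      dsimp only
      rw [if_neg (by omega), if_neg (by omega), if_pos h1]
      refine le_trans (Finset.card_le_card ?_) (Finset.card_insert_le z (ccB T K i))
      intro x hx
      rw [Finset.mem_inter, Finset.mem_insert] at hx
      rw [Finset.mem_insert, ccB, Finset.mem_inter]
      tauto
    generalize (K ∩ chL z T (b, i)).card = k at *
    rcases mem_chJ.1 hp with ⟨hb, rfl⟩ | ⟨hb1, hb2, hi1, hi2⟩ | ⟨hb1, hb2, rfl⟩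
    · have e0 : (CC z T K (0, 0)).card = 1 := by
        rw [card_CC z T K (by rw [mem_chJ]; omega)]
        simp [szL]
      have e1 : (CC z T K (1, 0)).card = 2 := by
        rw [card_CC z T K (by rw [mem_chJ]; omega)]
        simp [szL]
      have e2 : (CC z T K (2, 0)).card = 1 := by
        rw [card_CC z T K (by rw [mem_chJ]; omega)]
        simp [szL]
      have e3 : (CC z T K (3, 0)).card = 1 := by
        rw [card_CC z T K (by rw [mem_chJ]; omega)]
        simp [szL]
      have e4 : 1 ≤ (CC z T K (4, 0 + 1)).card + (CC z T K (22, 0 + 1)).card := by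
        rcases Nat.eq_zero_or_pos T.length with h0 | h0
        · rw [card_CC z T K (b := 22) (by rw [mem_chJ]; omega)]
          simp [szL]
        · rw [card_CC z T K (b := 4) (by rw [mem_chJ]; omega)]
          simp [szL]
      clear hne hp
      interval_cases b
      · rw [nbs_0, Finset.sum_singleton, e0, e1]
        omega
      · rw [nbs_1, s2 _ _ _ (by simp), e0, e1, e2]
        omega
      · rw [nbs_2, s2 _ _ _ (by simp), e1, e2, e3]
        omega
      · rw [nbs_3, s3 _ _ _ _ (by simp) (by simp) (by simp), e2, e3]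
        omega
    · have hu : ∀ b', 4 ≤ b' → b' < 22 → (CC z T K (b', i)).card =
          (szL (ccA T K i).card (ccB T K i).card).getD b' 0 := by
        intro b' h1 h2
        exact card_CC z T K (by rw [mem_chJ]; omega)
      have hA1i := hA1 i hi1 hi2
      have hABi := hAB i
      have hB2i := hB2 i hi1 hi2
      have hl : 1 ≤ (CC z T K (3, i - 1)).card + (CC z T K (21, i - 1)).card := by
        rcases Nat.lt_or_ge i 2 with h0 | h0
        · rw [card_CC z T K (b := 3) (by rw [mem_chJ]; omega)]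
          simp [szL]
        · rw [card_CC z T K (b := 21) (by rw [mem_chJ]; omega)]
          simp [szL]
      have hr : 1 ≤ (CC z T K (4, i + 1)).card + (CC z T K (22, i + 1)).card := by
        rcases Nat.lt_or_ge i T.length with h0 | h0
        · rw [card_CC z T K (b := 4) (by rw [mem_chJ]; omega)]
          simp [szL]
        · rw [card_CC z T K (b := 22) (by rw [mem_chJ]; omega)]
          simp [szL]
      generalize (ccA T K i).card = a at *
      generalize (ccB T K i).card = c at *
      clear hne hp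
      interval_cases b
      · obtain ⟨j, rfl⟩ : ∃ j, i = j + 1 := ⟨i - 1, by omega⟩
        rw [Nat.add_sub_cancel] at hl
        rw [nbs_4, s3 _ _ _ _ (by simp) (by simp) (by simp), hu 4 (by omega) (by omega),
          hu 5 (by omega) (by omega)]
        simp [szL]
        omega
      · rw [nbs_5, s2 _ _ _ (by simp), hu 5 (by omega) (by omega), hu 4 (by omega) (by omega), hu 6 (by omega) (by omega)]
        simp [szL]
        omega
      · rw [nbs_6, s2 _ _ _ (by simp), hu 6 (by omega) (by omega), hu 5 (by omega) (by omega), hu 7 (by omega) (by omega)]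
        simp [szL]
        omega
      · rw [nbs_7, s4 _ _ _ _ _ (by simp) (by simp) (by simp) (by simp) (by simp) (by simp), hu 7 (by omega) (by omega), hu 6 (by omega) (by omega), hu 8 (by omega) (by omega), hu 9 (by omega) (by omega), hu 12 (by omega) (by omega)]
        simp [szL]
        omega
      · rw [nbs_8, s4 _ _ _ _ _ (by simp) (by simp) (by simp) (by simp) (by simp) (by simp), hu 8 (by omega) (by omega), hu 7 (by omega) (by omega), hu 13 (by omega) (by omega), hu 9 (by omega) (by omega), hu 12 (by omega) (by omega)]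
        simp [szL]
        omega
      · rw [nbs_9, s3 _ _ _ _ (by simp) (by simp) (by simp), hu 9 (by omega) (by omega), hu 7 (by omega) (by omega), hu 8 (by omega) (by omega), hu 10 (by omega) (by omega)]
        simp [szL]
        omega
      · rw [nbs_10, s2 _ _ _ (by simp), hu 10 (by omega) (by omega), hu 9 (by omega) (by omega), hu 11 (by omega) (by omega)]
        simp [szL]
        omega
      · rw [nbs_11, s2 _ _ _ (by simp), hu 11 (by omega) (by omega), hu 10 (by omega) (by omega), hu 12 (by omega) (by omega)]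
        simp [szL]
        omega
      · rw [nbs_12, s3 _ _ _ _ (by simp) (by simp) (by simp), hu 12 (by omega) (by omega), hu 7 (by omega) (by omega), hu 8 (by omega) (by omega), hu 11 (by omega) (by omega)]
        simp [szL]
        omega
      · rw [nbs_13, s4 _ _ _ _ _ (by simp) (by simp) (by simp) (by simp) (by simp) (by simp), hu 13 (by omega) (by omega), hu 8 (by omega) (by omega), hu 14 (by omega) (by omega), hu 15 (by omega) (by omega), hu 18 (by omega) (by omega)]
        simp [szL]
        omega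
      · rw [nbs_14, s4 _ _ _ _ _ (by simp) (by simp) (by simp) (by simp) (by simp) (by simp), hu 14 (by omega) (by omega), hu 13 (by omega) (by omega), hu 19 (by omega) (by omega), hu 15 (by omega) (by omega), hu 18 (by omega) (by omega)]
        simp [szL]
        omega
      · rw [nbs_15, s3 _ _ _ _ (by simp) (by simp) (by simp), hu 15 (by omega) (by omega), hu 13 (by omega) (by omega), hu 14 (by omega) (by omega), hu 16 (by omega) (by omega)]
        simp [szL]
        omega
      · rw [nbs_16, s2 _ _ _ (by simp), hu 16 (by omega) (by omega), hu 15 (by omega) (by omega), hu 17 (by omega) (by omega)]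
        simp [szL]
        omega
      · rw [nbs_17, s2 _ _ _ (by simp), hu 17 (by omega) (by omega), hu 16 (by omega) (by omega), hu 18 (by omega) (by omega)]
        simp [szL]
        omega
      · rw [nbs_18, s3 _ _ _ _ (by simp) (by simp) (by simp), hu 18 (by omega) (by omega), hu 13 (by omega) (by omega), hu 14 (by omega) (by omega), hu 17 (by omega) (by omega)]
        simp [szL]
        omega
      · rw [nbs_19, s2 _ _ _ (by simp), hu 19 (by omega) (by omega), hu 14 (by omega) (by omega), hu 20 (by omega) (by omega)]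
        simp [szL]
        omega
      · rw [nbs_20, s2 _ _ _ (by simp), hu 20 (by omega) (by omega), hu 19 (by omega) (by omega), hu 21 (by omega) (by omega)]
        simp [szL]
        omega
      · rw [nbs_21, s3 _ _ _ _ (by simp) (by simp) (by simp), hu 20 (by omega) (by omega),
          hu 21 (by omega) (by omega)]
        simp [szL]
        omega
    · have e1 : (CC z T K (22, T.length + 1)).card = 1 := by
        rw [card_CC z T K (by rw [mem_chJ]; omega)]
        simp [szL]
      have e2 : (CC z T K (23, T.length + 1)).card = 2 := by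
        rw [card_CC z T K (by rw [mem_chJ]; omega)]
        simp [szL]
      have e3 : (CC z T K (24, T.length + 1)).card = 1 := by
        rw [card_CC z T K (by rw [mem_chJ]; omega)]
        simp [szL]
      have e4 : 1 ≤ (CC z T K (3, T.length)).card + (CC z T K (21, T.length)).card := by
        rcases Nat.eq_zero_or_pos T.length with h0 | h0
        · rw [card_CC z T K (b := 3) (by rw [mem_chJ]; omega)]
          simp [szL]
        · rw [card_CC z T K (b := 21) (by rw [mem_chJ]; omega)]
          simp [szL]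
      clear hne hp
      interval_cases b
      · rw [nbs_22, s3 _ _ _ _ (by simp) (by simp) (by simp), e1, e2]
        omega
      · rw [nbs_23, s2 _ _ _ (by simp), e1, e2, e3]
        omega
      · rw [nbs_24, Finset.sum_singleton, e2, e3]
        omega
  · -- cap
    rintro ⟨b, i⟩
    by_cases hp : (b, i) ∈ chJ T.length
    swap
    · rw [card_CC_zero z T K hp]
      exact Nat.zero_le _
    change _ ≤ if (b, i) ∈ chJ T.length then capL.getD b 0 else 0
    rw [card_CC z T K hp, if_pos hp]
    have hb := chJ_lt hp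
    by_cases hb2 : 4 ≤ b ∧ b < 22
    · have h10 : 1 ≤ i ∧ i ≤ T.length := by
        rw [mem_chJ] at hp
        omega
      have h11 := hAB i
      have h12 := hB2 i h10.1 h10.2
      generalize (ccA T K i).card = a at *
      generalize (ccB T K i).card = c at *
      obtain ⟨hb3, hb4⟩ := hb2
      clear hp hb
      interval_cases b <;> simp [szL, capL] <;> omega
    · clear hp
      interval_cases b <;> first | omega | simp [szL, capL]
  · -- ne
    refine ⟨(0, 0), ?_⟩
    have : ((0, 0) : ℕ × ℕ) ∈ chJ T.length := by rw [mem_chJ]; omega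
    rw [← Finset.card_pos, card_CC z T K this]
    simp [szL]
  · -- Boost
    intro x hx
    have m1 : ((0, 0) : ℕ × ℕ) ∈ chJ T.length := by rw [mem_chJ]; omega
    have m2 : ((3, 0) : ℕ × ℕ) ∈ chJ T.length := by rw [mem_chJ]; omega
    have m3 : ((24, T.length + 1) : ℕ × ℕ) ∈ chJ T.length := by rw [mem_chJ]; omega
    have hsub : ({(0, 0), (3, 0), (24, T.length + 1)} : Finset (ℕ × ℕ)) ⊆
        (chain z T).J.filter (fun i => x ∉ (chain z T).L i) := by
      intro p hp
      simp only [Finset.mem_insert, Finset.mem_singleton] at hp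
      rw [Finset.mem_filter]
      rcases hp with rfl | rfl | rfl
      · exact ⟨m1, by simp [chain, chL]⟩
      · exact ⟨m2, by simp [chain, chL]⟩
      · exact ⟨m3, by simp [chain, chL]⟩
    refine le_trans ?_ (Finset.sum_le_sum_of_subset hsub)
    rw [Finset.sum_insert (by simp), Finset.sum_insert (by simp), Finset.sum_singleton,
      card_CC z T K m1, card_CC z T K m2, card_CC z T K m3]
    simp [szL]

end Pool.Agent.H79.BP
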