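import Mathlib
import Pool.Agent.H64.Cook.Defs
import Pool.Agent.H79.Thr.Defs

/-!
# Beta-perfect graphs
-/

namespace Pool.Agent.H79.BP

variable {V : Type}

/-- The minimum degree of a finite graph with at least one vertex. -/
noncomputable def minDeg (G : SimpleGraph V) : ℕ := ⨅ v, (G.neighborSet v).ncard

/-- `β(G)`: the maximum of `δ(G') + 1` over the (non-empty) induced subgraphs `G'` of `G`. -/
noncomputable def beta (G : SimpleGraph V) : ℕ :=
  ⨆ S : {S : Set V // S.Nonempty}, (minDeg (G.induce S.1) + 1)

/-- `G` is `β`-perfect: `χ(H) = β(H)` for every induced subgraph `H` of `G`. -/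
def BetaPerfect (G : SimpleGraph V) : Prop :=
  ∀ S : Set V, (G.induce S).chromaticNumber = (beta (G.induce S) : ℕ∞)

/-- `G` has no even hole: it has no induced cycle of even length at least four. -/
def EvenHoleFree (G : SimpleGraph V) : Prop :=
  ∀ m : ℕ, 2 ≤ m → IsEmpty (SimpleGraph.cycleGraph (2 * m) ↪g G)

end Pool.Agent.H79.BP
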