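import Pool.Agent.H79.BP.Complete
import Pool.Agent.H79.Thr.Col3

/-!
# Triples for 3-colourability
-/

namespace Pool.Agent.H79.BP

open Pool.Agent.PPS Pool.Agent.H64.Cook Pool.Agent.H79.Thr

/-- The names. -/
abbrev Nm := ℕ × V3

set_option synthInstance.maxSize 4000 in
instance instDecV3 : DecidableEq V3 := inferInstance

/-- The name of the common colour `z`. -/
def nz : Nm := (0, n3 0 0 0 z3)

/-- The name that is always chosen. -/
def ny : Nm := (1, n3 0 0 0 z3)

/-- The name that is chosen if the vertex `v` does not have the colour `c`. -/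
def nx (v : V3) (c : ℕ) : Nm := (c + 2, v)

/-- The triples of a vertex. -/
def vtr (v : V3) : List (Nm × (Nm × Nm)) :=
  [(ny, (nx v 0, nx v 0)), (ny, (nx v 1, nx v 1)), (ny, (nx v 2, nx v 2)),
    (nx v 0, (nx v 1, nx v 2))]

/-- The triples of an edge. -/
def etr (s : V3 × V3) : List (Nm × (Nm × Nm)) :=
  vtr s.1 ++ (vtr s.2 ++ [(nx s.1 0, (nx s.2 0, nx s.2 0)), (nx s.1 1, (nx s.2 1, nx s.2 1)),
    (nx s.1 2, (nx s.2 2, nx s.2 2))])

/-- All the triples. -/
def trs (E : List (V3 × V3)) : List (Nm × (Nm × Nm)) := (ny, (ny, ny)) :: E.flatMap etr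

theorem mem_tn {T : List (Nm × (Nm × Nm))} {x : Nm} :
    x ∈ tnames T ↔ ∃ t ∈ T, x = t.1 ∨ x = t.2.1 ∨ x = t.2.2 := by
  simp [tnames]

theorem mem_trs {E : List (V3 × V3)} {t : Nm × (Nm × Nm)} :
    t ∈ trs E ↔ t = (ny, (ny, ny)) ∨ ∃ s ∈ E, t ∈ etr s := by
  simp only [trs, List.mem_cons, List.mem_flatMap]

theorem mem_vtr {v : V3} {t : Nm × (Nm × Nm)} :
    t ∈ vtr v ↔ (∃ c < 3, t = (ny, (nx v c, nx v c))) ∨ t = (nx v 0, (nx v 1, nx v 2)) := by
  simp only [vtr, List.mem_cons, List.not_mem_nil, or_false]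
  constructor
  · rintro (h | h | h | h)
    · exact Or.inl ⟨0, by omega, h⟩
    · exact Or.inl ⟨1, by omega, h⟩
    · exact Or.inl ⟨2, by omega, h⟩
    · exact Or.inr h
  · rintro (⟨c, hc, h⟩ | h)
    · have : c = 0 ∨ c = 1 ∨ c = 2 := by omega
      rcases this with rfl | rfl | rfl
      · exact Or.inl h
      · exact Or.inr (Or.inl h)
      · exact Or.inr (Or.inr (Or.inl h))
    · exact Or.inr (Or.inr (Or.inr h))

theorem mem_etr {s : V3 × V3} {t : Nm × (Nm × Nm)} :
    t ∈ etr s ↔ t ∈ vtr s.1 ∨ t ∈ vtr s.2 ∨ ∃ c < 3, t = (nx s.1 c, (nx s.2 c, nx s.2 c)) := by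
  simp only [etr, List.mem_append, List.mem_cons, List.not_mem_nil, or_false]
  constructor
  · rintro (h | h | h | h | h)
    · exact Or.inl h
    · exact Or.inr (Or.inl h)
    · exact Or.inr (Or.inr ⟨0, by omega, h⟩)
    · exact Or.inr (Or.inr ⟨1, by omega, h⟩)
    · exact Or.inr (Or.inr ⟨2, by omega, h⟩)
  · rintro (h | h | ⟨c, hc, h⟩)
    · exact Or.inl h
    · exact Or.inr (Or.inl h)
    · have : c = 0 ∨ c = 1 ∨ c = 2 := by omega
      rcases this with rfl | rfl | rfl
      · exact Or.inr (Or.inr (Or.inl h))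
      · exact Or.inr (Or.inr (Or.inr (Or.inl h)))
      · exact Or.inr (Or.inr (Or.inr (Or.inr h)))

/-- the names in the triples -/
theorem name_form {E : List (V3 × V3)} {x : Nm} (h : x ∈ tnames (trs E)) :
    x = ny ∨ ∃ s ∈ E, ∃ v : V3, (v = s.1 ∨ v = s.2) ∧ ∃ c < 3, x = nx v c := by
  have hv : ∀ (v : V3) (t : Nm × (Nm × Nm)), t ∈ vtr v → (x = t.1 ∨ x = t.2.1 ∨ x = t.2.2) →
      x = ny ∨ ∃ c < 3, x = nx v c := by
    intro v t ht hx
    rw [mem_vtr] at ht
    rcases ht with ⟨c, hc, rfl⟩ | rfl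
    · rcases hx with hx | hx | hx
      · exact Or.inl hx
      · exact Or.inr ⟨c, hc, hx⟩
      · exact Or.inr ⟨c, hc, hx⟩
    · rcases hx with hx | hx | hx
      · exact Or.inr ⟨0, by omega, hx⟩
      · exact Or.inr ⟨1, by omega, hx⟩
      · exact Or.inr ⟨2, by omega, hx⟩
  rw [mem_tn] at h
  obtain ⟨t, ht, hx⟩ := h
  rw [mem_trs] at ht
  rcases ht with rfl | ⟨s, hs, ht⟩
  · left
    rcases hx with hx | hx | hx <;> exact hx
  · rw [mem_etr] at ht
    rcases ht with ht | ht | ⟨c, hc, rfl⟩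
    · rcases hv _ t ht hx with h | ⟨c, hc, h⟩
      · exact Or.inl h
      · exact Or.inr ⟨s, hs, s.1, Or.inl rfl, c, hc, h⟩
    · rcases hv _ t ht hx with h | ⟨c, hc, h⟩
      · exact Or.inl h
      · exact Or.inr ⟨s, hs, s.2, Or.inr rfl, c, hc, h⟩
    · rcases hx with hx | hx | hx
      · exact Or.inr ⟨s, hs, s.1, Or.inl rfl, c, hc, hx⟩
      · exact Or.inr ⟨s, hs, s.2, Or.inr rfl, c, hc, hx⟩
      · exact Or.inr ⟨s, hs, s.2, Or.inr rfl, c, hc, hx⟩

theorem nx_inj {v w : V3} {c d : ℕ} (h : nx v c = nx w d) : v = w ∧ c = d := by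
  have h1 := congrArg Prod.fst h
  have h2 := congrArg Prod.snd h
  simp only [nx] at h1 h2
  exact ⟨h2, by omega⟩

theorem nx_ne_ny (v : V3) (c : ℕ) : nx v c ≠ ny := by
  intro h
  have h1 := congrArg Prod.fst h
  simp only [nx, ny] at h1
  omega

theorem nx_ne_nz (v : V3) (c : ℕ) : nx v c ≠ nz := by
  intro h
  have h1 := congrArg Prod.fst h
  simp only [nx, nz] at h1
  omega

/-- JOB BP-ENC3 (1). -/
theorem nz_notMem (E : List (V3 × V3)) : nz ∉ tnames (trs E) := by
  intro h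
  rcases name_form h with h | ⟨s, _, v, _, c, _, h⟩
  · have h1 := congrArg Prod.fst h
    simp only [ny, nz] at h1
    omega
  · exact nx_ne_nz v c h.symm

/-- JOB BP-ENC3 (2). -/
theorem ny_mem (E : List (V3 × V3)) : (ny, (ny, ny)) ∈ trs E :=
  mem_trs.2 (Or.inl rfl)

/-- JOB BP-ENC3 (3). Every name in the triples has its guard `(y0, x, x)`. -/
theorem guard_mem (E : List (V3 × V3)) : ∀ x ∈ tnames (trs E), (ny, (x, x)) ∈ trs E := by
  intro x hx
  rcases name_form hx with rfl | ⟨s, hs, v, hv, c, hc, rfl⟩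
  · exact ny_mem E
  · refine mem_trs.2 (Or.inr ⟨s, hs, mem_etr.2 ?_⟩)
    rcases hv with rfl | rfl
    · exact Or.inl (mem_vtr.2 (Or.inl ⟨c, hc, rfl⟩))
    · exact Or.inr (Or.inl (mem_vtr.2 (Or.inl ⟨c, hc, rfl⟩)))

/-- JOB BP-ENC3 (4). The triples are satisfiable iff the graph is 3-colourable.

Proof. If `K` satisfies the triples, choose for a vertex `v` of an edge a colour `c < 3` with
`nx v c ∉ K` (it exists by the triple `(nx v 0, nx v 1, nx v 2)`, whose members are different); for an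
edge `u v` the triple `(nx u c, nx v c, nx v c)` shows that `u`, `v` do not both get `c`. Conversely, if
`h` is a colouring let `K` be the set of the names `x ∈ insert nz (tnames (trs E))` except the
`nx v c` with `h v = c`. -/
theorem trs_sat (E : List (V3 × V3)) :
    (∃ K : Finset Nm, K ⊆ insert nz (tnames (trs E)) ∧ nz ∈ K ∧ ∀ s ∈ trs E, Good K s) ↔
      EColourable 3 E := by
  classical
  constructor
  · rintro ⟨K, -, -, hK⟩
    -- a colour for each vertex
    have hcol : ∀ v : V3, (∃ s ∈ E, v = s.1 ∨ v = s.2) → ∃ c : Fin 3, nx v c ∉ K := by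
      rintro v ⟨s, hs, hv⟩
      have hmem : (nx v 0, (nx v 1, nx v 2)) ∈ trs E := by
        refine mem_trs.2 (Or.inr ⟨s, hs, mem_etr.2 ?_⟩)
        rcases hv with rfl | rfl
        · exact Or.inl (mem_vtr.2 (Or.inr rfl))
        · exact Or.inr (Or.inl (mem_vtr.2 (Or.inr rfl)))
      have hg := (hK _ hmem).2
      by_contra hcon
      push Not at hcon
      apply hg
      refine ⟨fun h => ?_, fun h => ?_, fun h => ?_, hcon 0, hcon 1, hcon 2⟩
      · have := (nx_inj h).2
        omega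
      · have := (nx_inj h).2
        omega
      · have := (nx_inj h).2
        omega
    choose! f hf using hcol
    refine ⟨f, fun e he heq => ?_⟩
    have h1 := hf e.1 ⟨e, he, Or.inl rfl⟩
    have h2 := hf e.2 ⟨e, he, Or.inr rfl⟩
    have hmem : (nx e.1 (f e.1 : ℕ), (nx e.2 (f e.1 : ℕ), nx e.2 (f e.1 : ℕ))) ∈ trs E :=
      mem_trs.2 (Or.inr ⟨e, he, mem_etr.2 (Or.inr (Or.inr ⟨_, (f e.1).2, rfl⟩))⟩)
    rcases (hK _ hmem).1 with h | h
    · exact h1 h
    · rw [heq] at h
      exact h2 h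
  · rintro ⟨h, hh⟩
    refine ⟨(insert nz (tnames (trs E))).filter
      (fun x => ¬ ∃ v c, x = nx v c ∧ ((h v : Fin 3) : ℕ) = c), Finset.filter_subset _ _, ?_, ?_⟩
    · rw [Finset.mem_filter]
      refine ⟨Finset.mem_insert_self _ _, ?_⟩
      rintro ⟨v, c, hv, -⟩
      exact nx_ne_nz v c hv.symm
    · set K := (insert nz (tnames (trs E))).filter
        (fun x => ¬ ∃ v c, x = nx v c ∧ ((h v : Fin 3) : ℕ) = c) with hKdef
      have hny : ny ∈ K := by
        rw [hKdef, Finset.mem_filter]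
        refine ⟨Finset.mem_insert_of_mem (mem_tn.2 ⟨_, ny_mem E, Or.inl rfl⟩), ?_⟩
        rintro ⟨v, c, hv, -⟩
        exact nx_ne_ny v c hv.symm
      have hin : ∀ (v : V3) (c : ℕ), nx v c ∈ tnames (trs E) → (h v : ℕ) ≠ c → nx v c ∈ K := by
        intro v c hm hne
        rw [hKdef, Finset.mem_filter]
        refine ⟨Finset.mem_insert_of_mem hm, ?_⟩
        rintro ⟨w, d, hw, hd⟩
        obtain ⟨rfl, rfl⟩ := nx_inj hw
        exact hne hd
      have hout : ∀ (v : V3) (c : ℕ), (h v : ℕ) = c → nx v c ∉ K := by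
        intro v c hc hm
        rw [hKdef, Finset.mem_filter] at hm
        exact hm.2 ⟨v, c, rfl, hc⟩
      intro s hs
      have hs1 : s.1 ∈ tnames (trs E) := mem_tn.2 ⟨s, hs, Or.inl rfl⟩
      have hs2 : s.2.1 ∈ tnames (trs E) := mem_tn.2 ⟨s, hs, Or.inr (Or.inl rfl)⟩
      have hv : ∀ v : V3, s ∈ vtr v → Good K s := by
        intro v hm
        rw [mem_vtr] at hm
        rcases hm with ⟨c, hc, rfl⟩ | rfl
        · exact ⟨Or.inl hny, fun hb => hb.2.2.1 rfl⟩
        · refine ⟨?_, ?_⟩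
          · by_cases h0 : (h v : ℕ) = 0
            · exact Or.inr (hin v 1 hs2 (by omega))
            · exact Or.inl (hin v 0 hs1 h0)
          · rintro ⟨-, -, -, h0, h1, h2⟩
            have h3 : (h v : ℕ) = 0 ∨ (h v : ℕ) = 1 ∨ (h v : ℕ) = 2 := by
              have := (h v).2
              omega
            rcases h3 with h3 | h3 | h3
            · exact hout v 0 h3 h0
            · exact hout v 1 h3 h1
            · exact hout v 2 h3 h2
      rcases mem_trs.1 hs with rfl | ⟨e, he, hm⟩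
      · exact ⟨Or.inl hny, fun hb => hb.1 rfl⟩
      · rw [mem_etr] at hm
        rcases hm with hm | hm | ⟨c, hc, rfl⟩
        · exact hv _ hm
        · exact hv _ hm
        · refine ⟨?_, fun hb => hb.2.2.1 rfl⟩
          by_cases h0 : (h e.1 : ℕ) = c
          · refine Or.inr (hin e.2 c hs2 fun h1 => hh e he (Fin.ext (h0.trans h1.symm)))
          · exact Or.inl (hin e.1 c hs1 h0)

/-- JOB BP-ENC3 (5). -/
@[fun_prop]
theorem PT.trs' {m : Bool} {α : Type} [Rep α] {E : α → List (V3 × V3)} (h : PT m E) :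
    PT m (fun a => trs (E a)) := by
  have h1 : PT m (fun z : α × (V3 × V3) => etr z.2) := by
    unfold etr vtr nx ny
    fun_prop
  unfold trs
  refine PT.cons' (PT.const' _) ?_
  exact PT.flatMap' (m := m) (l := E) (f := fun z : α × (V3 × V3) => etr z.2) h h1

end Pool.Agent.H79.BP
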