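import Pool.Agent.H79.BP.NumDefs

/-!
# The numerical facts hold for feasible data: caps
-/

namespace Pool.Agent.H79.BP

variable {N : Type} [DecidableEq N] [Inhabited N]

omit [Inhabited N] in
private theorem nc_pair {S X Y : Finset N} (hX : X ⊆ S) (hY : Y ⊆ S) (h : Disjoint X Y) :
    X.card + Y.card ≤ S.card := by
  rw [← Finset.card_union_of_disjoint h]
  exact Finset.card_le_card (Finset.union_subset hX hY)

omit [Inhabited N] in
private theorem nc_card (K : Finset N) (e : ℕ) (S : Finset N) :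
    ((K ∩ S).disjSum (Finset.univ : Finset (Fin e))).card = e + (K ∩ S).card := by
  rw [Finset.card_disjSum, Finset.card_univ, Fintype.card_fin, add_comm]

private theorem nc_cap {z : N} {T : List (N × (N × N))} {K : Finset N} {e : ℕ}
    {C : ℕ × ℕ → Finset (N ⊕ Fin e)} (h : Feas (chain z T) K e C) (b i : ℕ) :
    (C (b, i)).card ≤ capL.getD b 0 := by
  refine (h.cap (b, i)).trans ?_
  show (if (b, i) ∈ chJ T.length then capL.getD b 0 else 0) ≤ capL.getD b 0
  split_ifs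
  · exact le_rfl
  · exact Nat.zero_le _

private theorem nc_out {z : N} {T : List (N × (N × N))} {K : Finset N} {e : ℕ}
    {C : ℕ × ℕ → Finset (N ⊕ Fin e)} (h : Feas (chain z T) K e C) {p : ℕ × ℕ}
    (hp : p ∉ chJ T.length) : (C p).card = 0 := by
  rw [h.zero p hp, Finset.card_empty]

private theorem nc_chL0 (z : N) (T : List (N × (N × N))) (b i : ℕ) (hb : b = 0 ∨ b = 3 ∨ b = 24) :
    chL z T (b, i) = ∅ := by
  unfold chL
  rw [if_pos hb]

private theorem nc_chL1 (z : N) (T : List (N × (N × N))) (b i : ℕ)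
    (hb : b = 1 ∨ b = 2 ∨ b = 4 ∨ b = 21 ∨ b = 22 ∨ b = 23) : chL z T (b, i) = {z} := by
  unfold chL
  rw [if_neg (by show ¬ (b = 0 ∨ b = 3 ∨ b = 24); omega),
    if_neg (by show ¬ (7 ≤ b ∧ b ≤ 12); omega), if_neg (by show ¬ (13 ≤ b ∧ b ≤ 18); omega)]

private theorem nc_sub {z : N} {T : List (N × (N × N))} {K : Finset N} {e : ℕ}
    {C : ℕ × ℕ → Finset (N ⊕ Fin e)} (h : Feas (chain z T) K e C) (b i : ℕ)
    (hb : b = 0 ∨ b = 3 ∨ b = 24 ∨ b = 1 ∨ b = 2 ∨ b = 4 ∨ b = 21 ∨ b = 22 ∨ b = 23) :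
    C (b, i) ⊆ (K ∩ {z}).disjSum Finset.univ := by
  have h1 : C (b, i) ⊆ (K ∩ chL z T (b, i)).disjSum Finset.univ := h.sub (b, i)
  refine h1.trans ?_
  have h2 : chL z T (b, i) ⊆ {z} := by
    by_cases hb0 : b = 0 ∨ b = 3 ∨ b = 24
    · rw [nc_chL0 z T b i hb0]
      exact Finset.empty_subset _
    · rw [nc_chL1 z T b i (by omega)]
  exact Finset.disjSum_mono (Finset.inter_subset_inter_left h2) Finset.Subset.rfl

private theorem nc_q {z : N} {T : List (N × (N × N))} {K : Finset N} {e : ℕ}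
    {C : ℕ × ℕ → Finset (N ⊕ Fin e)} (h : Feas (chain z T) K e C) (b i b' i' : ℕ)
    (hb : b = 0 ∨ b = 3 ∨ b = 24 ∨ b = 1 ∨ b = 2 ∨ b = 4 ∨ b = 21 ∨ b = 22 ∨ b = 23)
    (hb' : b' = 0 ∨ b' = 3 ∨ b' = 24 ∨ b' = 1 ∨ b' = 2 ∨ b' = 4 ∨ b' = 21 ∨ b' = 22 ∨ b' = 23)
    (hn : (b', i') ∈ nbs (b, i)) : (C (b, i)).card + (C (b', i')).card ≤ bb e K z := by
  have h1 := nc_pair (nc_sub h b i hb) (nc_sub h b' i' hb') (h.disj (b, i) (b', i') hn)
  rwa [nc_card] at h1

private theorem nc_e {z : N} {T : List (N × (N × N))} {K : Finset N} {e : ℕ}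
    {C : ℕ × ℕ → Finset (N ⊕ Fin e)} (h : Feas (chain z T) K e C) (b i : ℕ)
    (hb : b = 0 ∨ b = 3 ∨ b = 24) : (C (b, i)).card ≤ e := by
  have h1 : C (b, i) ⊆ (K ∩ chL z T (b, i)).disjSum Finset.univ := h.sub (b, i)
  have h2 := Finset.card_le_card h1
  rw [nc_card, nc_chL0 z T b i hb, Finset.inter_empty, Finset.card_empty] at h2
  exact h2

private theorem nc_d0 {z : N} {T : List (N × (N × N))} {K : Finset N} {e : ℕ}
    {C : ℕ × ℕ → Finset (N ⊕ Fin e)} (h : Feas (chain z T) K e C) (b i : ℕ)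
    (hb : b = 0 ∨ b = 3 ∨ b = 24) (h1 : 1 ≤ (C (b, i)).card) :
    e + 1 ≤ (C (b, i)).card + ∑ j ∈ nbs (b, i), (C j).card := by
  have h2 : e + (K ∩ chL z T (b, i)).card + 1 ≤
      (C (b, i)).card + ∑ j ∈ nbs (b, i), (C j).card :=
    h.deg (b, i) (Finset.card_pos.1 h1)
  rw [nc_chL0 z T b i hb, Finset.inter_empty, Finset.card_empty] at h2
  exact h2

private theorem nc_d1 {z : N} {T : List (N × (N × N))} {K : Finset N} {e : ℕ}
    {C : ℕ × ℕ → Finset (N ⊕ Fin e)} (h : Feas (chain z T) K e C) (b i : ℕ)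
    (hb : b = 1 ∨ b = 2 ∨ b = 4 ∨ b = 21 ∨ b = 22 ∨ b = 23) (h1 : 1 ≤ (C (b, i)).card) :
    bb e K z + 1 ≤ (C (b, i)).card + ∑ j ∈ nbs (b, i), (C j).card := by
  have h2 : e + (K ∩ chL z T (b, i)).card + 1 ≤
      (C (b, i)).card + ∑ j ∈ nbs (b, i), (C j).card :=
    h.deg (b, i) (Finset.card_pos.1 h1)
  rw [nc_chL1 z T b i hb] at h2
  exact h2

/-- JOB BP-NUMC. Feasible data satisfy the numerical facts about the caps.

Proof. Write `A S = (K ∩ S).disjSum Finset.univ`, a finset with `(K ∩ S).card + e` elements, monotone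
in `S`. `C p ⊆ A (chL z T p)` by `h.sub`, and for concrete tags `chL z T (tag, j)` is `∅` (tags `0`, `3`,
`24`) or `{z}` (tags `1`, `2`, `4`, `21`, `22`, `23`).
* `out`: `h.zero`. `eb`, `be`: `|K ∩ {z}| ≤ 1`. `e0`, `e3`, `e24`: the list is empty.
* capacities: `h.cap (tag, j)` with `(chain z T).cap p = if p ∈ chJ T.length then capL.getD p.1 0 else 0`
  and `mem_chJ`; for `kl`: if `M = 0` then `(21, 0) ∉ chJ`; if `1 ≤ M`, then `(3, M) ∉ chJ`. For `kr`:
  `(4, 1) ∈ chJ M` iff `1 ≤ M`, `(22, 1) ∈ chJ M` iff `M = 0`.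
* degrees: `h.deg (tag, _)` with `(C p).Nonempty ↔ 1 ≤ (C p).card` and `nbs_0`, `nbs_1`, `nbs_2`, `nbs_3`,
  `nbs_22`, `nbs_23`, `nbs_24`.
* neighbouring bags: if `X, Y` are disjoint subsets of a finset `S` then `|X| + |Y| ≤ |S|`. The
  disjointness is `h.disj p q` with `q ∈ nbs p`. In `q3`, `q22` one of the two sets is empty. -/
theorem cf_of_feas {z : N} {T : List (N × (N × N))} {K : Finset N} {e : ℕ}
    {C : ℕ × ℕ → Finset (N ⊕ Fin e)} (h : Feas (chain z T) K e C) :
    CF (cnt C) T.length e (bb e K z) := by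
  have kl : (C (3, T.length)).card = 0 ∧ (C (21, T.length)).card ≤ 1 ∨
      (C (21, T.length)).card = 0 ∧ (C (3, T.length)).card ≤ 1 := by
    rcases Nat.eq_zero_or_pos T.length with hM | hM
    · right
      exact ⟨nc_out h (by rw [mem_chJ]; omega), nc_cap h 3 T.length⟩
    · left
      exact ⟨nc_out h (by rw [mem_chJ]; omega), nc_cap h 21 T.length⟩
  have kr : (C (4, 1)).card = 0 ∧ (C (22, 1)).card ≤ 1 ∨
      (C (22, 1)).card = 0 ∧ (C (4, 1)).card ≤ 1 := by
    rcases Nat.eq_zero_or_pos T.length with hM | hM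
    · left
      exact ⟨nc_out h (by rw [mem_chJ]; omega), nc_cap h 22 1⟩
    · right
      exact ⟨nc_out h (by rw [mem_chJ]; omega), nc_cap h 4 1⟩
  have hbe : (K ∩ {z}).card ≤ 1 :=
    (Finset.card_le_card Finset.inter_subset_right).trans (Finset.card_singleton z).le
  constructor
  · show e ≤ e + (K ∩ {z}).card
    omega
  · show e + (K ∩ {z}).card ≤ e + 1
    omega
  · intro p hp
    exact nc_out h hp
  · exact nc_cap h 0 0
  · exact nc_cap h 1 0
  · exact nc_cap h 2 0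
  · exact nc_cap h 3 0
  · show (C (4, 1)).card + (C (22, 1)).card ≤ 1
    omega
  · exact nc_e h 0 0 (by omega)
  · exact nc_e h 3 0 (by omega)
  · intro h1
    have h2 := nc_d0 h 0 0 (by omega) h1
    rwa [nbs_0, Finset.sum_singleton] at h2
  · intro h1
    have h2 := nc_d1 h 1 0 (by omega) h1
    rwa [nbs_1, Finset.sum_insert (by simp), Finset.sum_singleton] at h2
  · intro h1
    have h2 := nc_d1 h 2 0 (by omega) h1
    rwa [nbs_2, Finset.sum_insert (by simp), Finset.sum_singleton] at h2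
  · intro h1
    have h2 := nc_d0 h 3 0 (by omega) h1
    rwa [nbs_3, Finset.sum_insert (by simp), Finset.sum_insert (by simp),
      Finset.sum_singleton] at h2
  · exact nc_q h 0 0 1 0 (by omega) (by omega) (by rw [nbs_0]; simp)
  · exact nc_q h 1 0 2 0 (by omega) (by omega) (by rw [nbs_1]; simp)
  · exact nc_q h 2 0 3 0 (by omega) (by omega) (by rw [nbs_2]; simp)
  · have h1 := nc_q h 3 0 4 1 (by omega) (by omega) (by rw [nbs_3]; simp)
    have h2 := nc_q h 3 0 22 1 (by omega) (by omega) (by rw [nbs_3]; simp)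
    show (C (3, 0)).card + ((C (4, 1)).card + (C (22, 1)).card) ≤ bb e K z
    omega
  · show (C (3, T.length)).card + (C (21, T.length)).card ≤ 1
    omega
  · exact nc_cap h 22 _
  · exact nc_cap h 23 _
  · exact nc_cap h 24 _
  · exact nc_e h 24 _ (by omega)
  · intro h1
    have h2 := nc_d1 h 22 (T.length + 1) (by omega) h1
    rwa [nbs_22, Finset.sum_insert (by simp), Finset.sum_insert (by simp),
      Finset.sum_singleton] at h2
  · intro h1
    have h2 := nc_d1 h 23 (T.length + 1) (by omega) h1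
    rwa [nbs_23, Finset.sum_insert (by simp), Finset.sum_singleton] at h2
  · intro h1
    have h2 := nc_d0 h 24 (T.length + 1) (by omega) h1
    rwa [nbs_24, Finset.sum_singleton] at h2
  · have h1 := nc_q h 22 (T.length + 1) 3 T.length (by omega) (by omega) (by rw [nbs_22]; simp)
    have h2 := nc_q h 22 (T.length + 1) 21 T.length (by omega) (by omega) (by rw [nbs_22]; simp)
    show (C (3, T.length)).card + (C (21, T.length)).card + (C (22, T.length + 1)).card ≤
      bb e K z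
    omega
  · exact nc_q h 22 _ 23 _ (by omega) (by omega) (by rw [nbs_22]; simp)
  · exact nc_q h 23 _ 24 _ (by omega) (by omega) (by rw [nbs_23]; simp)

end Pool.Agent.H79.BP
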