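import Pool.Agent.H79.BP.NumU
import Pool.Agent.H79.BP.NumC

/-!
# At most one colour in the bags with list `{z}`
-/

namespace Pool.Agent.H79.BP

/-- JOB BP-LOW (1). One unit, numerically, if `b ≤ 1`.

Proof. Write `t_p` for `t (p, i + 1)`, `l = t (3, i) + t (21, i)`. `t_5 ≥ 1` would give `t_4 ≥ 1` and
`t_6 ≥ 1` (`d5`, `q2`, `q3`), so `t_5 + t_4 ≥ 2 > b`. So `t_5 = 0`, similarly `t_20 = 0`. `t_4 ≥ 1` would give
`b + 1 ≤ t_4 + l ≤ b`. So `t_4 = 0`, similarly `t_21 = 0`. By the lemma `block` (first block: `c = t_7`,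
`c' = t_8`, `l = t_6`, `r = t_13`, pendant `t_9, …, t_12`, `a = a2`; second: `c = t_13`, `c' = t_14`, `l = t_8`,
`r = t_19`, pendant `t_15, …, t_18`, `a = a3`) there are few cases. `a2 ≤ b + 2 ≤ 3`, so in the first block
the pendant is empty; `a3 ≤ a2 + 1`. (A) first block empty: then `t_6 = 0` (`d6`: `t_6 ≥ 1` gives
`b + 1 ≤ t_6 + 0 + 0`, `b ≥ t_5 + t_6 ≥ 1`), and in the second block `l = 0`: it is empty, or
`t_14 = 1, a3 = 1, t_19 = 1`, contradicting `q16`; then `t_19 = 0` as before, so everything is `0`.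
(B) `t_7 = 1, t_8 = 0, a2 = 1, t_6 = 1`: contradicts `q4`. (C) `t_7 = 0, t_8 = 1, a2 = 1, t_13 = 1`; then
`t_6 = 0` (`d6`); the second block is `t_14 = 0, a3 = 1` (contradicts `q10`), or
`t_13 = t_14 = 1, a3 = 2, t_19 = 1`, pendant empty (the second alternative below), or `a3 ∈ {4, 5}`,
contradicting `a3 ≤ a2 + 1`. (D) `t_7 = t_8 = 1, a2 = 2, t_6 = t_13 = 1`: the second block is
`t_14 = 0, a3 = 1 < a2` (no), or `t_13 = t_14 = 1, a3 = 2, t_19 = 1` (the third alternative below), or
`a3 ∈ {4, 5}` (no). In the last two cases `b ≥ 1` since `b ≥ t_19`. -/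
theorem unit_low {t : ℕ × ℕ → ℕ} {i b a2 a3 : ℕ} (h : UF t i b a2 a3) (hb : b ≤ 1) :
    (∀ p, 4 ≤ p → p < 22 → t (p, i + 1) = 0) ∨
    (b = 1 ∧ a2 = 1 ∧ a3 = 2 ∧ t (8, i + 1) = 1 ∧ t (13, i + 1) = 1 ∧ t (14, i + 1) = 1 ∧
      t (19, i + 1) = 1) ∨
    (b = 1 ∧ a2 = 2 ∧ a3 = 2 ∧ t (6, i + 1) = 1 ∧ t (7, i + 1) = 1 ∧ t (8, i + 1) = 1 ∧
      t (13, i + 1) = 1 ∧ t (14, i + 1) = 1 ∧ t (19, i + 1) = 1) := by
  have h5 : t (5, i + 1) = 0 := by
    by_contra hx
    have := h.d5 (by omega)
    have := h.q2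
    have := h.q3
    omega
  have h20 : t (20, i + 1) = 0 := by
    by_contra hx
    have := h.d20 (by omega)
    have := h.q17
    have := h.q18
    omega
  have h4 : t (4, i + 1) = 0 := by
    by_contra hx
    have := h.d4 (by omega)
    have := h.q1
    omega
  have h21 : t (21, i + 1) = 0 := by
    by_contra hx
    have := h.d21 (by omega)
    have := h.q19
    omega
  have B1 := block (a := a2) (l := t (6, i + 1)) (c := t (7, i + 1)) (c' := t (8, i + 1))
    (r := t (13, i + 1)) (p1 := t (9, i + 1)) (p2 := t (10, i + 1)) (p3 := t (11, i + 1))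
    (p4 := t (12, i + 1)) h.k7 h.k8 h.k9 h.k10 h.k11 h.k6 h.k13
    (by intro hx; have := h.d7 hx; omega) (by intro hx; have := h.d8 hx; omega)
    (by intro hx; have := h.d9 hx; omega) (by intro hx; have := h.d10 hx; omega)
    (by intro hx; have := h.d11 hx; omega) (by intro hx; have := h.d12 hx; omega)
    (by have := h.q5; omega) (by have := h.q7; omega) (by have := h.q8; omega)
    (by have := h.q9; omega) (by have := h.q6; omega) (by have := h.s2; omega)
  have B2 := block (a := a3) (l := t (8, i + 1)) (c := t (13, i + 1)) (c' := t (14, i + 1))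
    (r := t (19, i + 1)) (p1 := t (15, i + 1)) (p2 := t (16, i + 1)) (p3 := t (17, i + 1))
    (p4 := t (18, i + 1)) h.k13 h.k14 h.k15 h.k16 h.k17 h.k8 h.k19
    (by intro hx; have := h.d13 hx; omega) (by intro hx; have := h.d14 hx; omega)
    (by intro hx; have := h.d15 hx; omega) (by intro hx; have := h.d16 hx; omega)
    (by intro hx; have := h.d17 hx; omega) (by intro hx; have := h.d18 hx; omega)
    (by have := h.q11; omega) (by have := h.q13; omega) (by have := h.q14; omega)
    (by have := h.q15; omega) (by have := h.q12; omega) (by have := h.s3; omega)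
  have b2 := h.b2
  have b3 := h.b3
  have b4 := h.b4
  have b5 := h.b5
  have d6 := h.d6
  have d19 := h.d19
  have q3 := h.q3
  have q4 := h.q4
  have q10 := h.q10
  have q16 := h.q16
  have q17 := h.q17
  rcases B1 with ⟨hp, hB⟩ | hB
  · rcases B2 with ⟨hp', hB'⟩ | hB'
    · rcases hB with hA | hA | hA | hA
      · left
        have h6 : t (6, i + 1) = 0 := by
          by_contra hx
          have := d6 (by omega)
          omega
        have h1314 : t (13, i + 1) = 0 ∧ t (14, i + 1) = 0 := by omega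
        have h19 : t (19, i + 1) = 0 := by
          by_contra hx
          have := d19 (by omega)
          omega
        intro p hp4 hp22
        interval_cases p <;> omega
      · omega
      · right
        left
        have h6 : t (6, i + 1) = 0 := by
          by_contra hx
          have := d6 (by omega)
          omega
        omega
      · right
        right
        omega
    · omega
  · omega

/-- JOB BP-LOW (2). The caps, numerically, if `b ≤ 1` and the units are empty.

Proof. `t (1,0) ≥ 1` would give `t (0,0) ≥ 1`, `t (2,0) ≥ 1` (`d1`, `q0`, `q1`) and `2 ≤ b`. So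
`t (1,0) = 0`. `t (0,0) ≥ 1`: `e + 1 ≤ t (0,0) ≤ e`. `t (2,0) ≥ 1`: `b + 1 ≤ t (2,0) + t (3,0) ≤ b`.
`t (3,0) ≥ 1`: `e ≥ 1` by `e3`, so `2 ≤ t (3,0) + (t (4,1) + t (22,1)) ≤ b`. Symmetrically for the right
cap: `t (23, M+1) ≥ 1` would give `t (22, M+1) ≥ 1`; `t (24, M+1) ≥ 1`: `e + 1 ≤ t (24, M+1) ≤ e`;
`t (22, M+1) ≥ 1`: `b + 1 ≤ t (22, M+1) + (t (3, M) + t (21, M)) ≤ b`. Everything else is `0` by `out`
(and `mem_chJ`) and `hz`. -/
theorem caps_low {t : ℕ × ℕ → ℕ} {M e b : ℕ} (hc : CF t M e b) (hb : b ≤ 1)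
    (hz : ∀ i < M, ∀ p, 4 ≤ p → p < 22 → t (p, i + 1) = 0) (p : ℕ × ℕ) : t p = 0 := by
  have h10 : t (1, 0) = 0 := by
    by_contra hx
    have := hc.d1 (by omega)
    have := hc.q0
    have := hc.q1
    omega
  have h00 : t (0, 0) = 0 := by
    by_contra hx
    have := hc.d0 (by omega)
    have := hc.e0
    omega
  have h20 : t (2, 0) = 0 := by
    by_contra hx
    have := hc.d2 (by omega)
    have := hc.q2
    omega
  have h30 : t (3, 0) = 0 := by
    by_contra hx
    have := hc.d3 (by omega)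
    have := hc.e3
    have := hc.q3
    omega
  have h23 : t (23, M + 1) = 0 := by
    by_contra hx
    have := hc.d23 (by omega)
    have := hc.q23
    have := hc.q24
    omega
  have h24 : t (24, M + 1) = 0 := by
    by_contra hx
    have := hc.d24 (by omega)
    have := hc.e24
    omega
  have h22 : t (22, M + 1) = 0 := by
    by_contra hx
    have := hc.d22 (by omega)
    have := hc.q22
    omega
  by_cases hp : p ∈ chJ M
  · obtain ⟨c, j⟩ := p
    rw [mem_chJ] at hp
    rcases hp with ⟨h1, rfl⟩ | ⟨h1, h2, h3, h4⟩ | ⟨h1, h2, rfl⟩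
    · interval_cases c <;> assumption
    · obtain ⟨k, rfl⟩ : ∃ k, j = k + 1 := ⟨j - 1, by omega⟩
      exact hz k (by omega) c h1 h2
    · interval_cases c <;> assumption
  · exact hc.out p hp

variable {N : Type} [DecidableEq N] [Inhabited N]

/-- the palette of a list -/
private theorem card_pal {K S : Finset N} {e : ℕ} :
    ((K ∩ S).disjSum (Finset.univ : Finset (Fin e))).card = e + (K ∩ S).card := by
  rw [Finset.card_disjSum, Finset.card_univ, Fintype.card_fin, add_comm]

private theorem pal_mono {K S S' : Finset N} {e : ℕ} (h : S ⊆ S') :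
    (K ∩ S).disjSum (Finset.univ : Finset (Fin e)) ⊆
      (K ∩ S').disjSum (Finset.univ : Finset (Fin e)) := by
  apply Finset.disjSum_mono
  · exact Finset.inter_subset_inter_left h
  · exact subset_rfl

private theorem low_sub {z : N} {T : List (N × (N × N))} {K : Finset N} {e : ℕ}
    {C : ℕ × ℕ → Finset (N ⊕ Fin e)} (h : Feas (chain z T) K e C) (p : ℕ × ℕ) :
    C p ⊆ (K ∩ chL z T p).disjSum (Finset.univ : Finset (Fin e)) := h.sub p

private theorem low_two {z : N} {T : List (N × (N × N))} {K : Finset N} {e : ℕ}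
    {C : ℕ × ℕ → Finset (N ⊕ Fin e)} (h : Feas (chain z T) K e C) {i : ℕ} (hi : i < T.length)
    (hb1 : bb e K z = 1) (h2 : aa2 e K z T i = 1) (h3 : aa3 e K z T i = 2)
    (c8 : cnt C (8, i + 1) = 1) (c13 : cnt C (13, i + 1) = 1) (c14 : cnt C (14, i + 1) = 1)
    (c19 : cnt C (19, i + 1) = 1) : False := by
  classical
  set B := (K ∩ {z}).disjSum (Finset.univ : Finset (Fin e)) with hB
  set A2 := (K ∩ {z, (trip T (i + 1)).1, (trip T (i + 1)).2.1}).disjSum
    (Finset.univ : Finset (Fin e)) with hA2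
  set A3 := (K ∩ {z, (trip T (i + 1)).1, (trip T (i + 1)).2.1, (trip T (i + 1)).2.2}).disjSum
    (Finset.univ : Finset (Fin e)) with hA3
  have cB : B.card = 1 := by rw [hB, card_pal]; exact hb1
  have cA2 : A2.card = 1 := by rw [hA2, card_pal]; exact h2
  have cA3 : A3.card = 2 := by rw [hA3, card_pal]; exact h3
  have hBA2 : B ⊆ A2 := pal_mono (by simp)
  have hBA3 : B ⊆ A3 := pal_mono (by simp)
  have eB : B = A2 := Finset.eq_of_subset_of_card_le hBA2 (by omega)
  have s8 : C (8, i + 1) ⊆ A2 := by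
    have := low_sub h (8, i + 1)
    simpa [chL] using this
  have s19 : C (19, i + 1) ⊆ B := by
    have := low_sub h (19, i + 1)
    simpa [chL] using this
  have s13 : C (13, i + 1) ⊆ A3 := by
    have := low_sub h (13, i + 1)
    simpa [chL] using this
  have s14 : C (14, i + 1) ⊆ A3 := by
    have := low_sub h (14, i + 1)
    simpa [chL] using this
  have e8 : C (8, i + 1) = B := by
    rw [eB]
    exact Finset.eq_of_subset_of_card_le s8 (by unfold cnt at c8; omega)
  have e19 : C (19, i + 1) = B :=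
    Finset.eq_of_subset_of_card_le s19 (by unfold cnt at c19; omega)
  have d813 : Disjoint (C (8, i + 1)) (C (13, i + 1)) :=
    h.disj (8, i + 1) (13, i + 1) (by show (13, i + 1) ∈ nbs (8, i + 1); rw [nbs_8]; simp)
  have d1314 : Disjoint (C (13, i + 1)) (C (14, i + 1)) :=
    h.disj (13, i + 1) (14, i + 1) (by show (14, i + 1) ∈ nbs (13, i + 1); rw [nbs_13]; simp)
  have d1419 : Disjoint (C (14, i + 1)) (C (19, i + 1)) :=
    h.disj (14, i + 1) (19, i + 1) (by show (19, i + 1) ∈ nbs (14, i + 1); rw [nbs_14]; simp)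
  rw [e8] at d813
  rw [e19] at d1419
  have t13 : C (13, i + 1) ⊆ A3 \ B := fun x hx =>
    Finset.mem_sdiff.2 ⟨s13 hx, fun hx' => Finset.disjoint_left.1 d813 hx' hx⟩
  have t14 : C (14, i + 1) ⊆ A3 \ B := fun x hx =>
    Finset.mem_sdiff.2 ⟨s14 hx, fun hx' => Finset.disjoint_left.1 d1419 hx hx'⟩
  have cD : (A3 \ B).card = 1 := by
    rw [Finset.card_sdiff_of_subset hBA3]; omega
  have u13 : C (13, i + 1) = A3 \ B :=
    Finset.eq_of_subset_of_card_le t13 (by unfold cnt at c13; omega)
  have u14 : C (14, i + 1) = A3 \ B :=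
    Finset.eq_of_subset_of_card_le t14 (by unfold cnt at c14; omega)
  rw [u13, u14, disjoint_self, Finset.bot_eq_empty] at d1314
  rw [d1314] at cD
  simp at cD

private theorem low_three {z : N} {T : List (N × (N × N))} {K : Finset N} {e : ℕ}
    {C : ℕ × ℕ → Finset (N ⊕ Fin e)} (h : Feas (chain z T) K e C) {i : ℕ} (hi : i < T.length)
    (hb1 : bb e K z = 1) (h2 : aa2 e K z T i = 2) (h3 : aa3 e K z T i = 2)
    (c6 : cnt C (6, i + 1) = 1) (c7 : cnt C (7, i + 1) = 1)
    (c8 : cnt C (8, i + 1) = 1) (c13 : cnt C (13, i + 1) = 1) (c14 : cnt C (14, i + 1) = 1)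
    (c19 : cnt C (19, i + 1) = 1) : False := by
  classical
  set B := (K ∩ {z}).disjSum (Finset.univ : Finset (Fin e)) with hB
  set A2 := (K ∩ {z, (trip T (i + 1)).1, (trip T (i + 1)).2.1}).disjSum
    (Finset.univ : Finset (Fin e)) with hA2
  set A3 := (K ∩ {z, (trip T (i + 1)).1, (trip T (i + 1)).2.1, (trip T (i + 1)).2.2}).disjSum
    (Finset.univ : Finset (Fin e)) with hA3
  have cB : B.card = 1 := by rw [hB, card_pal]; exact hb1
  have cA2 : A2.card = 2 := by rw [hA2, card_pal]; exact h2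
  have cA3 : A3.card = 2 := by rw [hA3, card_pal]; exact h3
  have hA23 : A2 ⊆ A3 := pal_mono (by
    intro x hx
    simp only [Finset.mem_insert, Finset.mem_singleton] at hx ⊢
    tauto)
  have hBA3 : B ⊆ A3 := pal_mono (by simp)
  have eA : A2 = A3 := Finset.eq_of_subset_of_card_le hA23 (by omega)
  have s6 : C (6, i + 1) ⊆ B := by
    have := low_sub h (6, i + 1)
    simpa [chL] using this
  have s7 : C (7, i + 1) ⊆ A3 := by
    rw [← eA]
    have := low_sub h (7, i + 1)
    simpa [chL] using this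
  have s8 : C (8, i + 1) ⊆ A3 := by
    rw [← eA]
    have := low_sub h (8, i + 1)
    simpa [chL] using this
  have s19 : C (19, i + 1) ⊆ B := by
    have := low_sub h (19, i + 1)
    simpa [chL] using this
  have s13 : C (13, i + 1) ⊆ A3 := by
    have := low_sub h (13, i + 1)
    simpa [chL] using this
  have s14 : C (14, i + 1) ⊆ A3 := by
    have := low_sub h (14, i + 1)
    simpa [chL] using this
  have e6 : C (6, i + 1) = B :=
    Finset.eq_of_subset_of_card_le s6 (by unfold cnt at c6; omega)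
  have e19 : C (19, i + 1) = B :=
    Finset.eq_of_subset_of_card_le s19 (by unfold cnt at c19; omega)
  have d67 : Disjoint (C (6, i + 1)) (C (7, i + 1)) :=
    h.disj (6, i + 1) (7, i + 1) (by show (7, i + 1) ∈ nbs (6, i + 1); rw [nbs_6]; simp)
  have d78 : Disjoint (C (7, i + 1)) (C (8, i + 1)) :=
    h.disj (7, i + 1) (8, i + 1) (by show (8, i + 1) ∈ nbs (7, i + 1); rw [nbs_7]; simp)
  have d813 : Disjoint (C (8, i + 1)) (C (13, i + 1)) :=
    h.disj (8, i + 1) (13, i + 1) (by show (13, i + 1) ∈ nbs (8, i + 1); rw [nbs_8]; simp)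
  have d1314 : Disjoint (C (13, i + 1)) (C (14, i + 1)) :=
    h.disj (13, i + 1) (14, i + 1) (by show (14, i + 1) ∈ nbs (13, i + 1); rw [nbs_13]; simp)
  have d1419 : Disjoint (C (14, i + 1)) (C (19, i + 1)) :=
    h.disj (14, i + 1) (19, i + 1) (by show (19, i + 1) ∈ nbs (14, i + 1); rw [nbs_14]; simp)
  unfold cnt at c6 c7 c8 c13 c14 c19
  -- two disjoint sets of size one fill the palette
  have fill : ∀ X Y : Finset (N ⊕ Fin e), X ⊆ A3 → Y ⊆ A3 → Disjoint X Y → X.card = 1 →
      Y.card = 1 → Y = A3 \ X := by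
    intro X Y hX hY hd cX cY
    apply Finset.eq_of_subset_of_card_le
    · exact fun x hx => Finset.mem_sdiff.2 ⟨hY hx, fun hx' => Finset.disjoint_left.1 hd hx' hx⟩
    · rw [Finset.card_sdiff_of_subset hX]; omega
  have f7 := fill _ _ (s6.trans hBA3) s7 d67 c6 c7
  have f8 := fill _ _ s7 s8 d78 c7 c8
  have f13 := fill _ _ s8 s13 d813 c8 c13
  have f14 := fill _ _ s13 s14 d1314 c13 c14
  have g8 : C (8, i + 1) = B := by
    rw [f8, f7, Finset.sdiff_sdiff_eq_self (s6.trans hBA3), e6]
  have g14 : C (14, i + 1) = B := by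
    rw [f14, f13, Finset.sdiff_sdiff_eq_self s8, g8]
  rw [g14, e19, disjoint_self, Finset.bot_eq_empty] at d1419
  rw [d1419] at cB
  simp at cB

/-- JOB BP-LOW (3). There are no feasible data with `b ≤ 1`.

Proof. By `uf_of_feas`, `cf_of_feas`, `unit_low`, `caps_low` and `h.ne` it remains to exclude the two
last alternatives of `unit_low` for a unit `i < M`. Let `B = (K ∩ {z}).disjSum univ`,
`A2 = (K ∩ {z, x, y}).disjSum univ`, `A3 = (K ∩ {z, x, y, w}).disjSum univ`, with
`(x, y, w) = trip T (i + 1)`; `|B| = b = 1`, `|A2| = a2`, `|A3| = a3`, `B ⊆ A2 ⊆ A3`. Write `C_p` for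
`C (p, i + 1)`; `C_6, C_19 ⊆ B`, `C_7, C_8 ⊆ A2`, `C_13, C_14 ⊆ A3` (`h.sub`), and `C_6 C_7`, `C_7 C_8`,
`C_8 C_13`, `C_13 C_14`, `C_14 C_19` are disjoint (`h.disj` with `nbs_6`, …). Second alternative:
`a2 = 1`, so `A2 = B` and `C_8 = B` (equal cardinalities); `C_19 = B`; so `C_13` and `C_14` are non-empty
subsets of `A3 \ B`, which has one element, so they are equal, but disjoint. Third alternative:
`A2 = A3` has two elements; `C_6 = B`, so `C_7 = A3 \ B`, `C_8 = B` (both have one element),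
`C_13 = A3 \ B`, `C_14 = B`, but `C_19 = B` is disjoint from `C_14`. -/
theorem no_low {z : N} {T : List (N × (N × N))} {K : Finset N} {e : ℕ}
    {C : ℕ × ℕ → Finset (N ⊕ Fin e)} (h : Feas (chain z T) K e C) : ¬ bb e K z ≤ 1 := by
  intro hb
  classical
  have hUF : ∀ i, i < T.length → UF (cnt C) i (bb e K z) (aa2 e K z T i) (aa3 e K z T i) :=
    fun i hi => uf_of_feas h hi
  have hCF := cf_of_feas h
  -- it remains to exclude the two last alternatives
  have key : ∀ i, i < T.length → ∀ p, 4 ≤ p → p < 22 → cnt C (p, i + 1) = 0 := by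
    intro i hi
    rcases unit_low (hUF i hi) hb with h0 | h0 | h0
    · exact h0
    · exfalso
      obtain ⟨e1, e2, e3, c8, c13, c14, c19⟩ := h0
      exact low_two h hi e1 e2 e3 c8 c13 c14 c19
    · exfalso
      obtain ⟨e1, e2, e3, c6, c7, c8, c13, c14, c19⟩ := h0
      exact low_three h hi e1 e2 e3 c6 c7 c8 c13 c14 c19
  obtain ⟨p, hp⟩ := h.ne
  have h0 := caps_low hCF hb key p
  unfold cnt at h0
  rw [Finset.card_eq_zero] at h0
  rw [h0] at hp
  exact Finset.not_nonempty_empty hp

end Pool.Agent.H79.BP
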