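import Pool.Agent.H79.BP.Viol
import Pool.Agent.H79.Thr.Member
import Pool.Agent.H87.HC.Kit

/-!
# The graphs that are not beta-perfect are in `NP`
-/

namespace Pool.Agent.H79.BP

open Pool.Agent.PPS Pool.Agent.H64.Cook Pool.Agent.H79.Thr

/-! ### The check of the graph -/

/-- The check that `x` is the matrix of a graph on `n` vertices. -/
def memG (x : List Bool) (n : ℕ) : Bool :=
  decide (x.length = n * n) &&
  ((List.range n).all fun u =>
    !(ment x n u u) && ((List.range n).all fun v => ment x n u v == ment x n v u))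

theorem memG_enc {n : ℕ} (G : SimpleGraph (Fin n)) : memG (enc G) n = true := by
  simp only [memG, enc_len, decide_true, Bool.true_and, List.all_eq_true, List.mem_range,
    Bool.and_eq_true, Bool.not_eq_true', beq_iff_eq]
  intro u hu
  refine ⟨?_, ?_⟩
  · have := (ment_enc G ⟨u, hu⟩ ⟨u, hu⟩).not.2 (SimpleGraph.irrefl G)
    simpa using this
  · intro v hv
    rw [Bool.eq_iff_iff]
    have h1 := ment_enc G ⟨u, hu⟩ ⟨v, hv⟩
    have h2 := ment_enc G ⟨v, hv⟩ ⟨u, hu⟩
    simp only at h1 h2
    rw [h1, h2]
    exact ⟨fun h => h.symm, fun h => h.symm⟩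

theorem memG_spec {n : ℕ} {x : List Bool} (h : memG x n = true) :
    ∃ G : SimpleGraph (Fin n), x = enc G := by
  classical
  simp only [memG, List.all_eq_true, List.mem_range,
    Bool.and_eq_true, Bool.not_eq_true', decide_eq_true_eq, beq_iff_eq] at h
  obtain ⟨hl, h⟩ := h
  let G : SimpleGraph (Fin n) :=
    { Adj := fun u v => ment x n u v = true
      symm := ⟨fun u v huv => by
        have := (h u u.2).2 v v.2
        rw [← this]
        exact huv⟩
      loopless := ⟨fun u hu => by
        rw [(h u u.2).1] at hu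
        exact absurd hu (by simp)⟩ }
  refine ⟨G, ?_⟩
  unfold enc
  rw [mflat_eq]
  apply List.ext_getElem
  · rw [List.length_ofFn, hl]
  · intro i h1 h2
    rw [List.getElem_ofFn]
    have h3 : ∀ (j : Fin (n * n)) (inst : Decidable (G.Adj j.divNat j.modNat)),
        @decide _ inst = ment x n j.divNat j.modNat := by
      intro j inst
      rw [Bool.eq_iff_iff, decide_eq_true_eq]
    refine Eq.trans ?_ (h3 ⟨i, hl ▸ h1⟩ _).symm
    rw [ment, Fin.coe_divNat, Fin.coe_modNat]
    show x[i] = x.getD (i / n * n + i % n) false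
    rw [Nat.div_add_mod', List.getD_eq_getElem _ _ h1]

/-- The check that `y` is a violation of the graph `x` with `n` vertices. -/
def memV (z : ℕ × (List Bool × List Bool)) : Bool :=
  ((List.range z.1).any fun u => decide (1 ≤ mcol z.2.2 (z.1 + 2) u)) &&
  ((List.range z.1).all fun u =>
    decide (mcol z.2.2 (z.1 + 2) u ≤ mcol z.2.2 (z.1 + 2) z.1) &&
    ((!decide (1 ≤ mcol z.2.2 (z.1 + 2) u) ||
      decide (mcol z.2.2 (z.1 + 2) z.1 ≤ ((List.range z.1).filter fun v =>
        decide (1 ≤ mcol z.2.2 (z.1 + 2) v) && ment z.2.1 z.1 u v).length)) &&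
    ((List.range z.1).all fun v =>
      !(decide (1 ≤ mcol z.2.2 (z.1 + 2) u) && (decide (1 ≤ mcol z.2.2 (z.1 + 2) v) &&
        (ment z.2.1 z.1 u v &&
          decide (mcol z.2.2 (z.1 + 2) u = mcol z.2.2 (z.1 + 2) v)))))))

section

variable {m : Bool} {α : Type} [Rep α]

private theorem mem_memG {x : α → List Bool} {n : α → ℕ} (hx : PT m x) (hn : PT m n) :
    PT m (fun a => memG (x a) (n a)) := by
  unfold memG
  refine PT.and' (by fun_prop) ?_
  refine H87.HC.PT.all2 (by fun_prop) ?_
  have hx1 : PT m (fun z : α × ℕ => x z.1) := hx.comp (by fun_prop)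
  have hn1 : PT m (fun z : α × ℕ => n z.1) := hn.comp (by fun_prop)
  refine PT.and' (by fun_prop) ?_
  refine H87.HC.PT.all2 (f := fun (z : α × ℕ) v => ment (x z.1) (n z.1) z.2 v ==
    ment (x z.1) (n z.1) v z.2) (by fun_prop) ?_
  have hx2 : PT m (fun z : (α × ℕ) × ℕ => x z.1.1) := hx.comp (by fun_prop)
  have hn2 : PT m (fun z : (α × ℕ) × ℕ => n z.1.1) := hn.comp (by fun_prop)
  fun_prop

@[fun_prop]
private theorem mem_mcol {y : α → List Bool} {k u : α → ℕ} (hy : PT m y) (hk : PT m k)
    (hu : PT m u) : PT m (fun a => mcol (y a) (k a) (u a)) := by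
  unfold mcol
  have hy1 : PT m (fun z : α × ℕ => y z.1) := hy.comp (by fun_prop)
  have hk1 : PT m (fun z : α × ℕ => k z.1) := hk.comp (by fun_prop)
  have hu1 : PT m (fun z : α × ℕ => u z.1) := hu.comp (by fun_prop)
  refine PT.length' (H87.HC.PT.filter2 (by fun_prop) ?_)
  fun_prop

end

private theorem mem_memV : PT true memV := by
  unfold memV
  refine PT.and' ?_ ?_
  · refine H87.HC.PT.any2 (by fun_prop) ?_
    exact PT.decideLe (by fun_prop) (by fun_prop)
  · refine H87.HC.PT.all2 (by fun_prop) ?_
    refine PT.and' (PT.decideLe (by fun_prop) (by fun_prop)) (PT.and' (PT.or' ?_ ?_) ?_)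
    · exact PT.not' (PT.decideLe (by fun_prop) (by fun_prop))
    · refine PT.decideLe (by fun_prop) (PT.length' ?_)
      refine H87.HC.PT.filter2 (f := fun (z : (ℕ × (List Bool × List Bool)) × ℕ) v =>
        decide (1 ≤ mcol z.1.2.2 (z.1.1 + 2) v) && ment z.1.2.1 z.1.1 z.2 v) (by fun_prop) ?_
      exact PT.and' (PT.decideLe (by fun_prop) (by fun_prop)) (by fun_prop)
    · refine H87.HC.PT.all2 (f := fun (z : (ℕ × (List Bool × List Bool)) × ℕ) v =>
        !(decide (1 ≤ mcol z.1.2.2 (z.1.1 + 2) z.2) &&
          (decide (1 ≤ mcol z.1.2.2 (z.1.1 + 2) v) &&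
        (ment z.1.2.1 z.1.1 z.2 v && decide (mcol z.1.2.2 (z.1.1 + 2) z.2 =
          mcol z.1.2.2 (z.1.1 + 2) v))))) (by fun_prop) ?_
      refine PT.not' (PT.and' (PT.decideLe (by fun_prop) (by fun_prop)) (PT.and'
        (PT.decideLe (by fun_prop) (by fun_prop)) (PT.and' (by fun_prop) ?_)))
      exact PT.decideEq (by fun_prop) (by fun_prop)

private theorem mem_ncard {n : ℕ} {P : Fin n → Prop} {p : ℕ → Bool}
    (h : ∀ v : Fin n, p v = true ↔ P v) :
    {v | P v}.ncard = ((List.range n).filter p).length := by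
  rw [← Set.ncard_image_of_injective {v | P v} Fin.val_injective]
  have h2 : (Fin.val '' {v | P v}) = (((List.range n).filter p).toFinset : Set ℕ) := by
    ext v
    simp only [Set.mem_image, List.coe_toFinset, List.mem_filter, List.mem_range,
      Set.mem_ofPred_eq]
    constructor
    · rintro ⟨w, hw, rfl⟩
      exact ⟨w.2, (h w).2 hw⟩
    · rintro ⟨hv, hv'⟩
      exact ⟨⟨v, hv⟩, (h ⟨v, hv⟩).1 hv', rfl⟩
  rw [h2, Set.ncard_coe_finset, List.toFinset_card_of_nodup (List.nodup_range.filter _)]

/-- JOB BP-MEM. The matrices of the graphs with a violation form a language in `NP`.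

Proof. Certificate: the word `mword f` of a function `f : Fin (n + 1) → Fin (n + 2)`, where `f n = k`
and, for `u < n`, `f u = 0` if `u ∉ S`, and `f u = c u + 1` if `u ∈ S`; the verifier is `memG` and
`memV`. From the check one gets `S = {u | 1 ≤ g u}` and the colouring `c u = g u - 1`. -/
theorem mem_viol :
    {x : List Bool | ∃ (n : ℕ) (G : SimpleGraph (Fin n)), x = enc G ∧
      ∃ (S : Set (Fin n)) (k : ℕ), Viol G S k} ∈ NP := by
  classical
  refine mem_NP_of (c := fun z => memG z.1 (mroot z.1.length) &&
    memV (mroot z.1.length, z.1, z.2)) ?_ (Polynomial.C 4 * Polynomial.X + 3) ?_ ?_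
  · refine PT.and' (mem_memG (by fun_prop) (by fun_prop)) ?_
    exact mem_memV.comp' (by fun_prop)
  · rintro x ⟨n, G, rfl, S, k, hV⟩
    obtain ⟨c, hc1, hc2⟩ := hV.col
    have hk : k ≤ n := by
      obtain ⟨v, hv⟩ := hV.ne
      refine (hV.deg v hv).trans ?_
      refine (Set.ncard_le_card _).trans ?_
      simp
    let f : Fin (n + 1) → Fin (n + 2) := fun u =>
      if h : (u : ℕ) < n then
        if hu : (⟨u, h⟩ : Fin n) ∈ S then ⟨c ⟨u, h⟩ + 1, by have := hc1 _ hu; omega⟩ else 0
      else ⟨k, by omega⟩
    have hg : ∀ u (hu : u < n), mcol (mword f) (n + 2) u =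
        if (⟨u, hu⟩ : Fin n) ∈ S then c ⟨u, hu⟩ + 1 else 0 := by
      intro u hu
      have h1 := mcol_mword f ⟨u, by omega⟩
      simp only at h1
      rw [h1]
      simp only [f, dif_pos hu]
      split_ifs <;> rfl
    have hgn : mcol (mword f) (n + 2) n = k := by
      have h1 := mcol_mword f ⟨n, by omega⟩
      simp only at h1
      rw [h1]
      simp [f]
    refine ⟨mword f, ?_, ?_⟩
    · rw [enc_len]
      unfold mword
      rw [mflat_length]
      simp only [Polynomial.eval_add, Polynomial.eval_mul, Polynomial.eval_C, Polynomial.eval_X,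
        Polynomial.eval_ofNat]
      have h := Nat.le_mul_self n
      nlinarith
    · simp only [enc_len, mroot_sq, memG_enc, Bool.true_and]
      simp only [memV, Bool.and_eq_true, List.any_eq_true, List.all_eq_true, List.mem_range,
        decide_eq_true_eq, Bool.or_eq_true, Bool.not_eq_true', Bool.and_eq_false_iff,
        decide_eq_false_iff_not, hgn]
      refine ⟨?_, ?_⟩
      · obtain ⟨v, hv⟩ := hV.ne
        refine ⟨v, v.2, ?_⟩
        rw [hg v v.2, if_pos hv]
        omega
      · intro u hu
        refine ⟨?_, ?_, ?_⟩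
        · rw [hg u hu]
          split_ifs with h
          · have := hc1 _ h
            omega
          · omega
        · by_cases h : (⟨u, hu⟩ : Fin n) ∈ S
          · right
            refine (hV.deg _ h).trans (le_of_eq ?_)
            apply mem_ncard
            intro v
            rw [Bool.and_eq_true, decide_eq_true_eq, hg v v.2]
            have h2 := ment_enc G ⟨u, hu⟩ v
            simp only at h2
            rw [h2]
            refine and_congr_left fun _ => ?_
            split_ifs with h3
            · exact ⟨fun _ => h3, fun _ => by omega⟩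
            · exact ⟨fun h4 => by omega, fun h4 => absurd h4 h3⟩
          · left
            rw [hg u hu, if_neg h]
            omega
        · intro v hv
          by_cases h1 : (⟨u, hu⟩ : Fin n) ∈ S
          · by_cases h2 : (⟨v, hv⟩ : Fin n) ∈ S
            · by_cases h3 : G.Adj ⟨u, hu⟩ ⟨v, hv⟩
              · right; right; right
                rw [hg u hu, hg v hv, if_pos h1, if_pos h2]
                have := hc2 _ h1 _ h2 h3
                omega
              · right; right; left
                have h4 := (ment_enc G ⟨u, hu⟩ ⟨v, hv⟩).not.2 h3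
                simpa using h4
            · right; left
              rw [hg v hv, if_neg h2]
              omega
          · left
            rw [hg u hu, if_neg h1]
            omega
  · intro x y h
    simp only [Bool.and_eq_true] at h
    obtain ⟨h3, h4⟩ := h
    obtain ⟨G, hG⟩ := memG_spec h3
    obtain ⟨n, hn⟩ : ∃ n, n = mroot x.length := ⟨_, rfl⟩
    rw [← hn] at h4
    revert G
    rw [← hn]
    intro G hG
    subst hG
    simp only [memV, Bool.and_eq_true, List.any_eq_true, List.all_eq_true, List.mem_range,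
      decide_eq_true_eq, Bool.or_eq_true, Bool.not_eq_true', Bool.and_eq_false_iff,
      decide_eq_false_iff_not] at h4
    obtain ⟨⟨u0, hu0, hu0'⟩, h5⟩ := h4
    refine ⟨n, G, rfl, {u | 1 ≤ mcol y (n + 2) u}, mcol y (n + 2) n, ?_⟩
    refine ⟨Set.toFinite _, ⟨⟨u0, hu0⟩, hu0'⟩, fun v hv => ?_,
      fun u => mcol y (n + 2) u - 1, fun v hv => ?_, fun u hu v hv huv => ?_⟩
    · have hv' : 1 ≤ mcol y (n + 2) v := hv
      rcases (h5 v v.2).2.1 with h6 | h6
      · exact absurd hv' h6
      · refine h6.trans (le_of_eq ?_)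
        symm
        apply mem_ncard
        intro w
        rw [Bool.and_eq_true, decide_eq_true_eq]
        have h2 := ment_enc G v w
        rw [h2]
        rfl
    · have hv' : 1 ≤ mcol y (n + 2) v := hv
      have h6 := (h5 v v.2).1
      change mcol y (n + 2) v - 1 < mcol y (n + 2) n
      omega
    · have hu' : 1 ≤ mcol y (n + 2) u := hu
      have hv' : 1 ≤ mcol y (n + 2) v := hv
      have h6 := (ment_enc G u v).2 huv
      change mcol y (n + 2) u - 1 ≠ mcol y (n + 2) v - 1
      rcases (h5 u u.2).2.2 v v.2 with h7 | h7 | h7 | h7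
      · exact absurd hu' h7
      · exact absurd hv' h7
      · rw [h6] at h7
        exact absurd h7 (by simp)
      · omega

end Pool.Agent.H79.BP
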