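import Pool.Agent.H79.BP.Model

/-!
# From a violation to feasible data
-/

namespace Pool.Agent.H79.BP

variable {N I : Type} [DecidableEq N] [DecidableEq I]

/-- JOB BP-MODELA. From a violation to feasible data.

Proof. Let `K` be the set of the names in `S`, `S_i` the set of the `c` with `inr (i, c) ∈ S`, `col`
the colouring with colours `< k`. The names in `K` are pairwise adjacent, so they have different
colours, hence `|K| ≤ k`; put `e = k - |K|`. The number of colours `< k` that are not colours of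
names in `K` is `e`; fix an injection `ι` of the set `E0` of these colours into `Fin e`. Let
`C i` be the set of the colours of the vertices `inr (i, c) ∈ S`, where the colour of a name
`x ∈ K` is written `inl x` and the colour `n ∈ E0` is written `inr (ι n)`. `sub`: if a vertex of the
bag `i` has the colour of `x ∈ K` it is not adjacent to `x`, so `x ∈ L i`. The vertices of a bag
are pairwise adjacent, so `|C i| = |S_i|`, and neighbouring bags get disjoint sets. `deg`: the
number of neighbours in `S` of `inr (i, c) ∈ S` is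
`|K \ L i| + (|S_i| - 1) + ∑ j ∈ nbrs i, |S_j| ≥ k = |K| + e`. `ne`: if `S` contained names only, the
degrees would be `|K| - 1 < |K| ≤ k`. -/
theorem feas_of_viol (m : Mdl N I) (h0 : ∀ i, i ∉ m.J → m.cap i = 0) {k : ℕ}
    {S : Set (N ⊕ (I × ℕ))} (hS : S ⊆ m.W) (h : Viol m.graph S k) :
    ∃ (K : Finset N) (e : ℕ) (C : I → Finset (N ⊕ Fin e)), K ⊆ m.names ∧ k = K.card + e ∧
      Feas m K e C := by
  classical
  obtain ⟨hfin, hne, hdeg, c, hck, hcol⟩ := h
  -- the names and the bags
  set K : Finset N := m.names.filter (fun x => Sum.inl x ∈ S) with hK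
  have hKmem : ∀ x, x ∈ K ↔ Sum.inl x ∈ S := by
    intro x
    rw [hK, Finset.mem_filter]
    exact ⟨fun h => h.2, fun h => ⟨hS h, h⟩⟩
  set B : I → Finset ℕ := fun i => (Finset.range (m.cap i)).filter (fun a => Sum.inr (i, a) ∈ S)
    with hB
  have hBmem : ∀ i a, a ∈ B i ↔ Sum.inr (i, a) ∈ S := by
    intro i a
    rw [hB, Finset.mem_filter, Finset.mem_range]
    exact ⟨fun h => h.2, fun h => ⟨(hS h).2, h⟩⟩
  -- colours
  have hadj1 : ∀ x y, x ≠ y → m.graph.Adj (Sum.inl x) (Sum.inl y) := fun x y h => h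
  have hadj2 : ∀ x i a, x ∉ m.L i → m.graph.Adj (Sum.inl x) (Sum.inr (i, a)) := fun x i a h => h
  have hadj3 : ∀ i a b, a ≠ b → m.graph.Adj (Sum.inr (i, a)) (Sum.inr (i, b)) :=
    fun i a b h => Or.inl ⟨rfl, h⟩
  have hadj4 : ∀ i j a b, j ∈ m.nbrs i → m.graph.Adj (Sum.inr (i, a)) (Sum.inr (j, b)) :=
    fun i j a b h => Or.inr h
  have hKinj : Set.InjOn (fun x => c (Sum.inl x)) (K : Set N) := by
    intro x hx y hy hxy
    by_contra hne
    exact hcol _ ((hKmem x).1 hx) _ ((hKmem y).1 hy) (hadj1 x y hne) hxy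
  set cK : Finset ℕ := K.image (fun x => c (Sum.inl x)) with hcK
  have hcKcard : cK.card = K.card := Finset.card_image_of_injOn hKinj
  have hcKsub : cK ⊆ Finset.range k := by
    intro n hn
    rw [hcK, Finset.mem_image] at hn
    obtain ⟨x, hx, rfl⟩ := hn
    exact Finset.mem_range.2 (hck _ ((hKmem x).1 hx))
  set E0 : Finset ℕ := Finset.range k \ cK with hE0
  have hke : k = K.card + E0.card := by
    have h1 := Finset.card_sdiff_add_card_eq_card hcKsub
    rw [Finset.card_range, hcKcard, ← hE0] at h1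
    omega
  set val : N ⊕ Fin E0.card → ℕ := fun y => Sum.elim (fun x => c (Sum.inl x))
    (fun j => (E0.equivFin.symm j).1) y with hval
  have hvalinj : Set.InjOn val ((K.disjSum Finset.univ : Finset (N ⊕ Fin E0.card)) : Set _) := by
    rintro (x | i) hx (y | j) hy hxy
    · rw [Finset.mem_coe, Finset.inl_mem_disjSum] at hx hy
      rw [hKinj hx hy hxy]
    · rw [Finset.mem_coe, Finset.inl_mem_disjSum] at hx
      exfalso
      have h1 : c (Sum.inl x) = (E0.equivFin.symm j).1 := hxy
      have h2 := (E0.equivFin.symm j).2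
      rw [← h1, hE0, Finset.mem_sdiff] at h2
      exact h2.2 (Finset.mem_image_of_mem _ hx)
    · rw [Finset.mem_coe, Finset.inl_mem_disjSum] at hy
      exfalso
      have h1 : (E0.equivFin.symm i).1 = c (Sum.inl y) := hxy
      have h2 := (E0.equivFin.symm i).2
      rw [h1, hE0, Finset.mem_sdiff] at h2
      exact h2.2 (Finset.mem_image_of_mem _ hy)
    · have h1 : (E0.equivFin.symm i).1 = (E0.equivFin.symm j).1 := hxy
      rw [E0.equivFin.symm.injective (Subtype.ext h1)]
  have hvalsurj : ∀ n < k, ∃ y ∈ (K.disjSum Finset.univ : Finset (N ⊕ Fin E0.card)), val y = n := by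
    intro n hn
    by_cases h1 : n ∈ cK
    · rw [hcK, Finset.mem_image] at h1
      obtain ⟨x, hx, rfl⟩ := h1
      exact ⟨Sum.inl x, Finset.inl_mem_disjSum.2 hx, rfl⟩
    · have h2 : n ∈ E0 := Finset.mem_sdiff.2 ⟨Finset.mem_range.2 hn, h1⟩
      refine ⟨Sum.inr (E0.equivFin ⟨n, h2⟩), Finset.inr_mem_disjSum.2 (Finset.mem_univ _), ?_⟩
      show (E0.equivFin.symm (E0.equivFin ⟨n, h2⟩)).1 = n
      rw [Equiv.symm_apply_apply]
  set C : I → Finset (N ⊕ Fin E0.card) := fun i =>
    (K.disjSum Finset.univ).filter (fun y => ∃ a ∈ B i, c (Sum.inr (i, a)) = val y) with hC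
  have hCmem : ∀ i y, y ∈ C i ↔ y ∈ (K.disjSum Finset.univ : Finset (N ⊕ Fin E0.card)) ∧
      ∃ a ∈ B i, c (Sum.inr (i, a)) = val y := fun i y => Finset.mem_filter
  have hBinj : ∀ i, Set.InjOn (fun a => c (Sum.inr (i, a))) (B i : Set ℕ) := by
    intro i a ha b hb hab
    by_contra hne
    exact hcol _ ((hBmem i a).1 ha) _ ((hBmem i b).1 hb) (hadj3 i a b hne) hab
  have hcard : ∀ i, (C i).card = (B i).card := by
    intro i
    have h1 : ((C i).image val).card = (C i).card := by
      refine Finset.card_image_of_injOn (hvalinj.mono fun y hy => ?_)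
      exact ((hCmem i y).1 hy).1
    have h2 : (C i).image val = (B i).image (fun a => c (Sum.inr (i, a))) := by
      ext n
      rw [Finset.mem_image, Finset.mem_image]
      constructor
      · rintro ⟨y, hy, rfl⟩
        exact ((hCmem i y).1 hy).2
      · rintro ⟨a, ha, rfl⟩
        obtain ⟨y, hy, hyv⟩ := hvalsurj _ (hck _ ((hBmem i a).1 ha))
        exact ⟨y, (hCmem i y).2 ⟨hy, a, ha, hyv.symm⟩, hyv⟩
    rw [← h1, h2, Finset.card_image_of_injOn (hBinj i)]
  refine ⟨K, E0.card, C, Finset.filter_subset _ _, hke, ?_, ?_, ?_, ?_, ?_, ?_⟩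
  · -- sub
    rintro i (x | j) hy
    · obtain ⟨h1, a, ha, h2⟩ := (hCmem i _).1 hy
      rw [Finset.inl_mem_disjSum] at h1 ⊢
      rw [Finset.mem_inter]
      refine ⟨h1, ?_⟩
      by_contra hx
      exact hcol _ ((hKmem x).1 h1) _ ((hBmem i a).1 ha) (hadj2 x i a hx) h2.symm
    · exact Finset.inr_mem_disjSum.2 (Finset.mem_univ _)
  · -- zero
    intro i hi
    have h1 : B i = ∅ := by
      rw [hB]
      simp only [h0 i hi, Finset.range_zero, Finset.filter_empty]
    rw [← Finset.card_eq_zero, hcard, h1, Finset.card_empty]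
  · -- disj
    intro i j hj
    rw [Finset.disjoint_left]
    intro y hy hy'
    obtain ⟨-, a, ha, h1⟩ := (hCmem i y).1 hy
    obtain ⟨-, b, hb, h2⟩ := (hCmem j y).1 hy'
    exact hcol _ ((hBmem i a).1 ha) _ ((hBmem j b).1 hb) (hadj4 i j a b hj) (h1.trans h2.symm)
  · -- deg
    intro i hi
    have hBi : (B i).Nonempty := by
      rw [← Finset.card_pos, ← hcard]
      exact Finset.card_pos.2 hi
    obtain ⟨a, ha⟩ := hBi
    have h1 := hdeg _ ((hBmem i a).1 ha)
    set T : Finset (N ⊕ (I × ℕ)) := (K \ m.L i).image Sum.inl ∪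
      (((B i).erase a).image (fun b => Sum.inr (i, b)) ∪
        (m.nbrs i).biUnion (fun j => (B j).image (fun b => Sum.inr (j, b)))) with hT
    have h2 : {u | u ∈ S ∧ m.graph.Adj (Sum.inr (i, a)) u} ⊆ (T : Set (N ⊕ (I × ℕ))) := by
      rintro (x | ⟨j, b⟩) ⟨hu, hadj⟩
      · rw [hT, Finset.mem_coe, Finset.mem_union]
        left
        refine Finset.mem_image_of_mem _ (Finset.mem_sdiff.2 ⟨(hKmem x).2 hu, ?_⟩)
        exact hadj
      · rw [hT, Finset.mem_coe, Finset.mem_union]
        right
        rw [Finset.mem_union]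
        rcases hadj with ⟨h3, h4⟩ | h3
        · left
          have h3' : i = j := h3
          subst h3'
          exact Finset.mem_image_of_mem _ (Finset.mem_erase.2 ⟨Ne.symm h4, (hBmem i b).2 hu⟩)
        · right
          rw [Finset.mem_biUnion]
          exact ⟨j, h3, Finset.mem_image_of_mem _ ((hBmem j b).2 hu)⟩
    have h3 : k ≤ T.card := by
      refine h1.trans ?_
      rw [← Set.ncard_coe_finset]
      exact Set.ncard_le_ncard h2 T.finite_toSet
    have h4 : T.card ≤ (K \ m.L i).card + ((B i).card - 1 + ∑ j ∈ m.nbrs i, (B j).card) := by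
      refine (Finset.card_union_le _ _).trans (Nat.add_le_add Finset.card_image_le ?_)
      refine (Finset.card_union_le _ _).trans (Nat.add_le_add ?_ ?_)
      · refine Finset.card_image_le.trans ?_
        rw [Finset.card_erase_of_mem ha]
      · exact Finset.card_biUnion_le.trans (Finset.sum_le_sum fun j _ => Finset.card_image_le)
    have h5 : (K \ m.L i).card + (K ∩ m.L i).card = K.card := Finset.card_sdiff_add_card_inter _ _
    have h6 : 1 ≤ (B i).card := Finset.card_pos.2 ⟨a, ha⟩
    rw [hcard, Finset.sum_congr rfl fun j _ => hcard j]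
    omega
  · -- cap
    intro i
    rw [hcard]
    refine (Finset.card_filter_le _ _).trans ?_
    rw [Finset.card_range]
  · -- ne
    by_contra hcon
    have hempty : ∀ i, B i = ∅ := by
      intro i
      rw [← Finset.card_eq_zero, ← hcard, Finset.card_eq_zero]
      by_contra h1
      exact hcon ⟨i, Finset.nonempty_iff_ne_empty.2 h1⟩
    obtain ⟨v, hv⟩ := hne
    have hinl : ∀ u ∈ S, ∃ x ∈ K, u = Sum.inl x := by
      rintro (x | ⟨i, a⟩) hu
      · exact ⟨x, (hKmem x).2 hu, rfl⟩
      · have := (hBmem i a).2 hu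
        rw [hempty i] at this
        exact absurd this (Finset.notMem_empty _)
    obtain ⟨x, hx, rfl⟩ := hinl v hv
    have h1 := hdeg _ hv
    have h2 : {u | u ∈ S ∧ m.graph.Adj (Sum.inl x) u} ⊆
        (((K.erase x).image Sum.inl : Finset (N ⊕ (I × ℕ))) : Set (N ⊕ (I × ℕ))) := by
      rintro u ⟨hu, hadj⟩
      obtain ⟨y, hy, rfl⟩ := hinl u hu
      exact Finset.mem_image_of_mem _ (Finset.mem_erase.2 ⟨Ne.symm hadj, hy⟩)
    have h3 := Set.ncard_le_ncard h2 (Finset.finite_toSet _)
    rw [Set.ncard_coe_finset] at h3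
    have h4 : ((K.erase x).image Sum.inl : Finset (N ⊕ (I × ℕ))).card ≤ K.card - 1 := by
      refine Finset.card_image_le.trans ?_
      rw [Finset.card_erase_of_mem hx]
    have h5 : 1 ≤ K.card := Finset.card_pos.2 ⟨x, hx⟩
    omega

end Pool.Agent.H79.BP
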