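import Pool.Agent.H79.BP.Model

/-!
# From feasible data to a violation
-/

namespace Pool.Agent.H79.BP

variable {N I : Type} [DecidableEq N] [DecidableEq I]

/-- The copies of the bag `i`, `n` of them. -/
def modelB_bag (i : I) (n : ℕ) : Finset (I × ℕ) := (Finset.range n).map ⟨fun b => (i, b), fun _ _ h =>
  (Prod.mk.inj h).2⟩

omit [DecidableEq I] in
lemma modelB_mem_bag {i j : I} {n b : ℕ} : (j, b) ∈ modelB_bag i n ↔ j = i ∧ b < n := by
  unfold modelB_bag
  rw [Finset.mem_map]
  constructor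
  · rintro ⟨b', hb', h⟩
    obtain ⟨rfl, rfl⟩ := Prod.mk.inj h
    exact ⟨rfl, Finset.mem_range.1 hb'⟩
  · rintro ⟨rfl, h⟩
    exact ⟨b, Finset.mem_range.2 h, rfl⟩

omit [DecidableEq I] in
lemma modelB_card_bag (i : I) (n : ℕ) : (modelB_bag i n).card = n := by
  unfold modelB_bag
  rw [Finset.card_map, Finset.card_range]

lemma modelB_card_biUnion (T : Finset I) (f : I → ℕ) :
    (T.biUnion fun i => modelB_bag i (f i)).card = ∑ i ∈ T, f i := by
  rw [Finset.card_biUnion]
  · exact Finset.sum_congr rfl fun i _ => modelB_card_bag i (f i)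
  · intro i _ j _ hij
    refine Finset.disjoint_left.2 ?_
    rintro ⟨a, b⟩ h1 h2
    exact hij ((modelB_mem_bag.1 h1).1.symm.trans (modelB_mem_bag.1 h2).1)

lemma modelB_mem_biUnion {T : Finset I} {f : I → ℕ} {i : I} {b : ℕ} :
    (i, b) ∈ (T.biUnion fun i => modelB_bag i (f i)) ↔ i ∈ T ∧ b < f i := by
  rw [Finset.mem_biUnion]
  constructor
  · rintro ⟨j, hj, h⟩
    obtain ⟨rfl, h⟩ := modelB_mem_bag.1 h
    exact ⟨hj, h⟩
  · rintro ⟨h1, h2⟩
    exact ⟨i, h1, modelB_mem_bag.2 ⟨rfl, h2⟩⟩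

/-- JOB BP-MODELB. From feasible data to a violation with `k = |K| + e`.

Proof. `S` consists of the names in `K` and the vertices `inr (i, c)` with `c < |C i|`. The colours
are `K ⊕ Fin e`, numbered by an injection `N ⊕ Fin e → ℕ` that maps the `|K| + e` used ones to numbers
`< |K| + e`; the vertex `inr (i, c)` gets the colour number `c` of `C i`. Degrees as above; the degree
of a name `x ∈ K` is `|K| - 1 + ∑ i ∈ J with x ∉ L i, |C i|`. -/
theorem viol_of_feas (m : Mdl N I) {K : Finset N} {e : ℕ} {C : I → Finset (N ⊕ Fin e)}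
    (hK : K ⊆ m.names) (h : Feas m K e C) (hb : Boost m K e C) :
    ∃ S ⊆ m.W, Viol m.graph S (K.card + e) := by
  classical
  obtain ⟨hsub, hzero, hdisj, hdeg, hcap, hne⟩ := h
  let S : Set (N ⊕ (I × ℕ)) := {v | match v with
    | Sum.inl x => x ∈ K
    | Sum.inr p => p.2 < (C p.1).card}
  have hSinl : ∀ x, Sum.inl x ∈ S ↔ x ∈ K := fun x => Iff.rfl
  have hSinr : ∀ i b, Sum.inr (i, b) ∈ S ↔ b < (C i).card := fun i b => Iff.rfl
  have hJ : ∀ i b, b < (C i).card → i ∈ m.J := by
    intro i b hb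
    by_contra hi
    rw [hzero i hi, Finset.card_empty] at hb
    omega
  let val : N ⊕ Fin e → ℕ := fun y => match y with
    | Sum.inl x => if hx : x ∈ K then (K.equivFin ⟨x, hx⟩).val else 0
    | Sum.inr j => K.card + j.val
  have hvall : ∀ x (hx : x ∈ K), val (Sum.inl x) = (K.equivFin ⟨x, hx⟩).val := fun x hx =>
    dif_pos hx
  have hvalr : ∀ j, val (Sum.inr j) = K.card + j.val := fun j => rfl
  have hvalinj : ∀ y ∈ K.disjSum (Finset.univ : Finset (Fin e)),
      ∀ z ∈ K.disjSum (Finset.univ : Finset (Fin e)), val y = val z → y = z := by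
    rintro (x | i) hx (y | j) hy hxy
    · rw [Finset.inl_mem_disjSum] at hx hy
      rw [hvall x hx, hvall y hy] at hxy
      have h1 := K.equivFin.injective (Fin.ext hxy)
      rw [Subtype.mk.injEq] at h1
      rw [h1]
    · rw [Finset.inl_mem_disjSum] at hx
      rw [hvall x hx, hvalr] at hxy
      have h1 := (K.equivFin ⟨x, hx⟩).isLt
      omega
    · rw [Finset.inl_mem_disjSum] at hy
      rw [hvall y hy, hvalr] at hxy
      have h1 := (K.equivFin ⟨y, hy⟩).isLt
      omega
    · rw [hvalr, hvalr] at hxy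
      have h1 : i = j := Fin.ext (by omega)
      rw [h1]
  have hvallt : ∀ y ∈ K.disjSum (Finset.univ : Finset (Fin e)), val y < K.card + e := by
    rintro (x | i) hx
    · rw [Finset.inl_mem_disjSum] at hx
      rw [hvall x hx]
      have h1 := (K.equivFin ⟨x, hx⟩).isLt
      omega
    · rw [hvalr]
      have := i.isLt
      omega
  -- the colour of a copy
  have hcC : ∀ (i : I) (b : ℕ), ∃ y : ℕ, ∀ h : b < (C i).card,
      y = val ((C i).equivFin.symm ⟨b, h⟩).1 := by
    intro i b
    by_cases h : b < (C i).card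
    · exact ⟨val ((C i).equivFin.symm ⟨b, h⟩).1, fun _ => rfl⟩
    · exact ⟨0, fun h' => absurd h' h⟩
  choose cC hcC using hcC
  have hCK : ∀ i, ∀ y ∈ C i, y ∈ K.disjSum (Finset.univ : Finset (Fin e)) := by
    intro i y hy
    have h1 := hsub i hy
    rcases y with x | j
    · rw [Finset.inl_mem_disjSum] at h1 ⊢
      exact Finset.mem_of_mem_inter_left h1
    · exact Finset.inr_mem_disjSum.2 (Finset.mem_univ _)
  have hcCmem : ∀ i b, b < (C i).card → ∃ y ∈ C i, cC i b = val y := fun i b h =>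
    ⟨_, ((C i).equivFin.symm ⟨b, h⟩).2, hcC i b h⟩
  let col : N ⊕ (I × ℕ) → ℕ := fun v => match v with
    | Sum.inl x => val (Sum.inl x)
    | Sum.inr p => cC p.1 p.2
  have hSfin : S.Finite := by
    refine (K.disjSum (m.J.biUnion fun i => modelB_bag i (C i).card)).finite_toSet.subset ?_
    rintro (x | ⟨i, b⟩) hv
    · exact Finset.inl_mem_disjSum.2 hv
    · exact Finset.inr_mem_disjSum.2 (modelB_mem_biUnion.2 ⟨hJ i b hv, hv⟩)
  have hcount : ∀ (v : N ⊕ (I × ℕ)) (T : Finset (N ⊕ (I × ℕ))),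
      (∀ u ∈ T, u ∈ S ∧ m.graph.Adj v u) → T.card ≤ {u | u ∈ S ∧ m.graph.Adj v u}.ncard := by
    intro v T hT
    rw [← Set.ncard_coe_finset]
    exact Set.ncard_le_ncard (fun u hu => hT u hu) (hSfin.subset fun u hu => hu.1)
  refine ⟨S, ?_, hSfin, ?_, ?_, col, ?_, ?_⟩
  · rintro (x | ⟨i, b⟩) hv
    · exact hK hv
    · exact ⟨hJ i b hv, lt_of_lt_of_le hv (hcap i)⟩
  · obtain ⟨i, hi⟩ := hne
    exact ⟨Sum.inr (i, 0), Finset.card_pos.2 hi⟩
  · rintro (x | ⟨i, a⟩) hv
    · have hx : x ∈ K := hv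
      have h1 := hcount (Sum.inl x) ((K.erase x).disjSum
        ((m.J.filter fun i => x ∉ m.L i).biUnion fun i => modelB_bag i (C i).card)) (by
          rintro (y | ⟨j, b⟩) hu
          · rw [Finset.inl_mem_disjSum, Finset.mem_erase] at hu
            exact ⟨hu.2, Ne.symm hu.1⟩
          · rw [Finset.inr_mem_disjSum, modelB_mem_biUnion, Finset.mem_filter] at hu
            exact ⟨hu.2, hu.1.2⟩)
      rw [Finset.card_disjSum, modelB_card_biUnion, Finset.card_erase_of_mem hx] at h1
      have h2 := hb x hx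
      have h3 : 1 ≤ K.card := Finset.card_pos.2 ⟨x, hx⟩
      omega
    · have ha : a < (C i).card := hv
      have h1 := hcount (Sum.inr (i, a)) ((K \ m.L i).disjSum
        (((modelB_bag i (C i).card).erase (i, a)) ∪
          ((m.nbrs i).biUnion fun j => modelB_bag j (C j).card))) (by
          rintro (y | ⟨j, b⟩) hu
          · rw [Finset.inl_mem_disjSum, Finset.mem_sdiff] at hu
            exact ⟨hu.1, hu.2⟩
          · rw [Finset.inr_mem_disjSum, Finset.mem_union, modelB_mem_biUnion, Finset.mem_erase,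
              modelB_mem_bag] at hu
            rcases hu with ⟨h1, rfl, h2⟩ | ⟨h1, h2⟩
            · refine ⟨h2, Or.inl ⟨rfl, fun h3 => h1 ?_⟩⟩
              have h4 : a = b := h3
              rw [h4]
            · exact ⟨h2, Or.inr h1⟩)
      rw [Finset.card_disjSum, Finset.card_union_of_disjoint, modelB_card_biUnion,
        Finset.card_erase_of_mem (modelB_mem_bag.2 ⟨rfl, ha⟩), modelB_card_bag] at h1
      · have h2 := hdeg i (Finset.card_pos.1 (by omega))
        have h5 : (K \ m.L i).card + (K ∩ m.L i).card = K.card :=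
          Finset.card_sdiff_add_card_inter _ _
        omega
      · rw [Finset.disjoint_left]
        rintro ⟨j, b⟩ h2 h3
        obtain ⟨-, h2⟩ := Finset.mem_erase.1 h2
        obtain ⟨rfl, -⟩ := modelB_mem_bag.1 h2
        exact m.irrefl _ (modelB_mem_biUnion.1 h3).1
  · rintro (x | ⟨i, a⟩) hv
    · exact hvallt _ (Finset.inl_mem_disjSum.2 hv)
    · obtain ⟨y, hy, h1⟩ := hcCmem i a hv
      show cC i a < _
      rw [h1]
      exact hvallt _ (hCK i y hy)
  · have hmix : ∀ x i a, x ∈ K → a < (C i).card → x ∉ m.L i → val (Sum.inl x) ≠ cC i a := by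
      intro x i a hx ha hL h1
      obtain ⟨y, hy, h2⟩ := hcCmem i a ha
      rw [h2] at h1
      have h3 := hvalinj _ (Finset.inl_mem_disjSum.2 hx) _ (hCK i y hy) h1
      rw [← h3] at hy
      have h4 := Finset.inl_mem_disjSum.1 (hsub i hy)
      exact hL (Finset.mem_of_mem_inter_right h4)
    rintro (x | ⟨i, a⟩) hu (y | ⟨j, b⟩) hv hadj
    · intro h1
      have h2 := hvalinj _ (Finset.inl_mem_disjSum.2 hu) _ (Finset.inl_mem_disjSum.2 hv) h1
      exact hadj (Sum.inl.inj h2)
    · exact hmix x j b hu hv hadj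
    · exact fun h1 => hmix y i a hv hu hadj h1.symm
    · have ha : a < (C i).card := hu
      have hb' : b < (C j).card := hv
      intro h1
      have h1' : cC i a = cC j b := h1
      rcases hadj with ⟨h2, h3⟩ | h2
      · have h2' : i = j := h2
        subst h2'
        rw [hcC i a ha, hcC i b hb'] at h1'
        have h4 := hvalinj _ (hCK i _ ((C i).equivFin.symm ⟨a, ha⟩).2) _
          (hCK i _ ((C i).equivFin.symm ⟨b, hb'⟩).2) h1'
        have h5 := (C i).equivFin.symm.injective (Subtype.ext h4)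
        exact h3 (congrArg Fin.val h5)
      · obtain ⟨y, hy, h3⟩ := hcCmem i a ha
        obtain ⟨z, hz, h4⟩ := hcCmem j b hb'
        rw [h3, h4] at h1'
        have h5 := hvalinj _ (hCK i y hy) _ (hCK j z hz) h1'
        rw [← h5] at hz
        exact Finset.disjoint_left.1 (hdisj i j h2) hy hz

end Pool.Agent.H79.BP
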