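import Pool.Agent.H79.BP.MatV

/-!
# The matrix of the reduction
-/

namespace Pool.Agent.H79.BP

open Pool.Agent.PPS Pool.Agent.H64.Cook Pool.Agent.H79.Thr

variable {N : Type} [DecidableEq N] [Inhabited N]

/-- The vertex with a given code: `(0, x, _, _)` is the name `x`, and `(b + 1, _, i, c)` is the copy
number `c` of the bag `(b, i)`. -/
def dec (p : ℕ × (N × (ℕ × ℕ))) : N ⊕ ((ℕ × ℕ) × ℕ) :=
  if p.1 = 0 then Sum.inl p.2.1 else Sum.inr ((p.1 - 1, p.2.2.1), p.2.2.2)

/-- The indices of the bags with tag `b`. -/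
def idx (M b : ℕ) : List ℕ :=
  bif decide (b < 4) then [0] else bif decide (b < 22) then (List.range M).map (fun i => i + 1)
    else [M + 1]

/-- The list of the codes of the names. -/
def vlistN (z : N) (T : List (N × (N × N))) : List (ℕ × (N × (ℕ × ℕ))) :=
  (z :: T.flatMap fun t => [t.1, t.2.1, t.2.2]).dedup.map fun x => (0, (x, (0, 0)))

/-- The list of the codes of the copies of the bags. -/
def vlistB (N : Type) [Inhabited N] (M : ℕ) : List (ℕ × (N × (ℕ × ℕ))) :=
  (List.range 25).flatMap fun b => (idx M b).flatMap fun i =>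
    (List.range (capL.getD b 0)).map fun c => (b + 1, (default, (i, c)))

/-- The list of the codes of the vertices. -/
def vlist (z : N) (T : List (N × (N × N))) : List (ℕ × (N × (ℕ × ℕ))) :=
  vlistN z T ++ vlistB N T.length

/-- The name `x` is in the list of the bag `(b, i)`. -/
def memL (z : N) (T : List (N × (N × N))) (b i : ℕ) (x : N) : Bool :=
  bif decide (b = 0) || (decide (b = 3) || decide (b = 24)) then false else
    decide (x = z) ||
      ((decide (7 ≤ b) && (decide (b ≤ 18) &&
        (decide (x = (T.getD (i - 1) default).1) || decide (x = (T.getD (i - 1) default).2.1)))) ||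
      (decide (13 ≤ b) && (decide (b ≤ 18) && decide (x = (T.getD (i - 1) default).2.2))))

/-- The bags `p`, `q` are neighbours. -/
def relB (p q : ℕ × ℕ) : Bool :=
  EL.any fun r => (decide (p.1 = r.1) && (decide (q.1 = r.2.1) && decide (q.2 = p.2 + r.2.2))) ||
    (decide (q.1 = r.1) && (decide (p.1 = r.2.1) && decide (p.2 = q.2 + r.2.2)))

/-- Adjacency of codes. -/
def adjB (z : N) (T : List (N × (N × N)))
    (w : (ℕ × (N × (ℕ × ℕ))) × (ℕ × (N × (ℕ × ℕ)))) : Bool :=
  bif decide (w.1.1 = 0) then
    (bif decide (w.2.1 = 0) then !(decide (w.1.2.1 = w.2.2.1))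
      else !(memL z T (w.2.1 - 1) w.2.2.2.1 w.1.2.1))
  else
    (bif decide (w.2.1 = 0) then !(memL z T (w.1.1 - 1) w.1.2.2.1 w.2.2.1)
      else ((decide (w.1.1 = w.2.1) && (decide (w.1.2.2.1 = w.2.2.2.1) &&
        !(decide (w.1.2.2.2 = w.2.2.2.2)))) ||
        relB (w.1.1 - 1, w.1.2.2.1) (w.2.1 - 1, w.2.2.2.1)))

/-- The matrix. -/
def redM (z : N) (T : List (N × (N × N))) : List Bool := matV (vlist z T) (adjB z T)

section RedAux

omit [DecidableEq N] [Inhabited N] in
private theorem dec_zero (x : N) : dec (0, (x, (0, 0))) = Sum.inl x := by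
  simp [dec]

omit [DecidableEq N] [Inhabited N] in
private theorem dec_succ (b : ℕ) (x : N) (i c : ℕ) :
    dec (b + 1, (x, (i, c))) = Sum.inr ((b, i), c) := by
  simp [dec]

omit [Inhabited N] in
private theorem map_dec_vlistN (z : N) (T : List (N × (N × N))) :
    (vlistN z T).map dec =
      (z :: T.flatMap fun t => [t.1, t.2.1, t.2.2]).dedup.map Sum.inl := by
  unfold vlistN
  rw [List.map_map]
  apply List.map_congr_left
  intro x _
  exact dec_zero x

omit [DecidableEq N] in
private theorem map_dec_vlistB (M : ℕ) :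
    (vlistB N M).map dec = (List.range 25).flatMap fun b => (idx M b).flatMap fun i =>
      (List.range (capL.getD b 0)).map fun c => (Sum.inr ((b, i), c) : N ⊕ ((ℕ × ℕ) × ℕ)) := by
  unfold vlistB
  simp only [List.map_flatMap, List.map_map]
  congr 1

private theorem mem_idx {M b i : ℕ} : i ∈ idx M b ↔
    (b < 4 ∧ i = 0) ∨ (4 ≤ b ∧ b < 22 ∧ 1 ≤ i ∧ i ≤ M) ∨ (22 ≤ b ∧ i = M + 1) := by
  unfold idx
  by_cases h1 : b < 4
  · simp [h1]
    omega
  · by_cases h2 : b < 22
    · simp only [h1, h2, decide_true, decide_false, cond_true, cond_false, List.mem_map,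
        List.mem_range, false_and, false_or, true_and]
      constructor
      · rintro ⟨a, ha, rfl⟩
        omega
      · rintro (h | h)
        · exact ⟨i - 1, by omega, by omega⟩
        · omega
    · simp [h1, h2]
      omega

private theorem nodup_idx (M b : ℕ) : (idx M b).Nodup := by
  unfold idx
  by_cases h1 : b < 4
  · simp [h1]
  · by_cases h2 : b < 22
    · simp only [h1, h2, decide_true, decide_false, cond_true, cond_false]
      exact List.nodup_range.map (fun a b h => by simpa using h)
    · simp [h1, h2]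

private theorem memL_iff (z : N) (T : List (N × (N × N))) (b i : ℕ) (x : N) :
    memL z T b i x = true ↔ x ∈ chL z T (b, i) := by
  unfold memL chL trip
  by_cases h1 : b = 0 ∨ b = 3 ∨ b = 24
  · have h2 : (decide (b = 0) || (decide (b = 3) || decide (b = 24))) = true := by
      simpa using h1
    rw [h2, if_pos h1]
    simp
  · have h2 : (decide (b = 0) || (decide (b = 3) || decide (b = 24))) = false := by
      simpa using h1
    rw [h2, if_neg h1]
    by_cases h3 : 7 ≤ b ∧ b ≤ 12
    · have h4 : 7 ≤ b := h3.1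
      have h5 : b ≤ 18 := by omega
      have h6 : ¬ 13 ≤ b := by omega
      simp [h3, h5, h6]
    · by_cases h7 : 13 ≤ b ∧ b ≤ 18
      · have h4 : 7 ≤ b := by omega
        have h8 : ¬ b ≤ 12 := by omega
        simp [h7, h4, h8, or_assoc]
      · rw [if_neg h3, if_neg h7]
        have h9 : ¬ (7 ≤ b ∧ b ≤ 18) := by omega
        have h10 : (decide (7 ≤ b) && (decide (b ≤ 18) &&
            (decide (x = (T.getD (i - 1) default).1) ||
              decide (x = (T.getD (i - 1) default).2.1)))) = false := by
          rcases not_and_or.mp h9 with h | h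
          · simp [h]
          · simp [h]
        have h11 : (decide (13 ≤ b) && (decide (b ≤ 18) &&
            decide (x = (T.getD (i - 1) default).2.2))) = false := by
          rcases not_and_or.mp h7 with h | h
          · simp [h]
          · simp [h]
        rw [h10, h11]
        simp

private theorem relB_iff (p q : ℕ × ℕ) : relB p q = true ↔ q ∈ nbs p := by
  rw [mem_nbs]
  unfold relB ERel
  rw [List.any_eq_true]
  simp only [Bool.or_eq_true, Bool.and_eq_true, decide_eq_true_eq]
  rw [← exists_or]
  exact exists_congr fun r => and_or_left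

omit [Inhabited N] in
private theorem mem_vlistN {z : N} {T : List (N × (N × N))} {u : ℕ × (N × (ℕ × ℕ))}
    (hu : u ∈ vlistN z T) : ∃ x, u = (0, (x, (0, 0))) := by
  unfold vlistN at hu
  obtain ⟨x, _, rfl⟩ := List.mem_map.mp hu
  exact ⟨x, rfl⟩

omit [DecidableEq N] in
private theorem mem_vlistB {M : ℕ} {u : ℕ × (N × (ℕ × ℕ))}
    (hu : u ∈ vlistB N M) : ∃ b i c, u = (b + 1, (default, (i, c))) := by
  unfold vlistB at hu
  simp only [List.mem_flatMap, List.mem_map] at hu
  obtain ⟨b, _, i, _, c, _, rfl⟩ := hu
  exact ⟨b, i, c, rfl⟩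

end RedAux

/-- JOB BP-RED (1). The matrix encodes the subgraph induced on `(chain z T).W`.

Proof. `matV_spec` with `g = dec`. The list `(vlist z T).map dec` has no duplicates: it is
`(z :: names).dedup.map inl ++ …`, and the second part is the list of the `inr ((b, i), c)` with `b < 25`,
`i ∈ idx M b`, `c < capL.getD b 0` (all the lists involved have no duplicates; `List.nodup_flatMap` or
`List.Nodup.map`/`Pairwise` arguments). Its members are the elements of `(chain z T).W`: names
`x ∈ insert z (tnames T)`, and `((b, i), c)` with `(b, i) ∈ chJ M` (`mem_chJ`) and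
`c < (chain z T).cap (b, i)`. The adjacency: `memL z T b i x = true ↔ x ∈ chL z T (b, i)` and
`relB p q = true ↔ q ∈ nbs p` (`mem_nbs`, `ERel`), for codes in `vlist` with first component `0`
or positive. -/
theorem redM_spec (z : N) (T : List (N × (N × N))) :
    ∃ (n : ℕ) (φ : Fin n → N ⊕ ((ℕ × ℕ) × ℕ)), Function.Injective φ ∧
      Set.range φ = (chain z T).W ∧ redM z T = enc ((chain z T).graph.comap φ) := by
  have hnd : ((vlist z T).map dec).Nodup := by
    unfold vlist
    rw [List.map_append, map_dec_vlistN, map_dec_vlistB, List.nodup_append]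
    refine ⟨(List.nodup_dedup _).map Sum.inl_injective, ?_, ?_⟩
    · rw [List.nodup_flatMap]
      refine ⟨fun b _ => ?_, ?_⟩
      · rw [List.nodup_flatMap]
        refine ⟨fun i _ => List.nodup_range.map (fun c c' h => by simpa using h), ?_⟩
        refine (nodup_idx T.length b).imp ?_
        intro i i' hne u hu hu'
        obtain ⟨c, _, rfl⟩ := List.mem_map.mp hu
        obtain ⟨c', _, h⟩ := List.mem_map.mp hu'
        simp only [Sum.inr.injEq, Prod.mk.injEq, true_and] at h
        exact hne h.1.symm
      · refine List.nodup_range.imp ?_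
        intro b b' hne u hu hu'
        simp only [List.mem_flatMap, List.mem_map] at hu hu'
        obtain ⟨i, _, c, _, rfl⟩ := hu
        obtain ⟨i', _, c', _, h⟩ := hu'
        simp only [Sum.inr.injEq, Prod.mk.injEq] at h
        exact hne h.1.1.symm
    · intro u hu v hv
      obtain ⟨x, _, rfl⟩ := List.mem_map.mp hu
      simp only [List.mem_flatMap, List.mem_map] at hv
      obtain ⟨b, _, i, _, c, _, rfl⟩ := hv
      simp
  have hadj : ∀ u ∈ vlist z T, ∀ v ∈ vlist z T,
      (adjB z T (u, v) = true ↔ (chain z T).graph.Adj (dec u) (dec v)) := by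
    intro u hu v hv
    unfold vlist at hu hv
    rw [List.mem_append] at hu hv
    rcases hu with hu | hu
    · obtain ⟨x, rfl⟩ := mem_vlistN hu
      rcases hv with hv | hv
      · obtain ⟨y, rfl⟩ := mem_vlistN hv
        rw [dec_zero, dec_zero]
        change _ ↔ x ≠ y
        simp [adjB]
      · obtain ⟨b, i, c, rfl⟩ := mem_vlistB hv
        rw [dec_zero, dec_succ]
        change _ ↔ x ∉ chL z T (b, i)
        rw [← memL_iff]
        simp [adjB]
    · obtain ⟨b, i, c, rfl⟩ := mem_vlistB hu
      rcases hv with hv | hv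
      · obtain ⟨y, rfl⟩ := mem_vlistN hv
        rw [dec_zero, dec_succ]
        change _ ↔ y ∉ chL z T (b, i)
        rw [← memL_iff]
        simp [adjB]
      · obtain ⟨b', i', c', rfl⟩ := mem_vlistB hv
        rw [dec_succ, dec_succ]
        change _ ↔ ((b, i) = (b', i') ∧ c ≠ c') ∨ (b', i') ∈ nbs (b, i)
        rw [← relB_iff]
        simp [adjB, and_assoc]
  obtain ⟨n, φ, h1, h2, h3⟩ := matV_spec (vlist z T) (adjB z T) (chain z T).graph dec hnd hadj
  refine ⟨n, φ, h1, ?_, h3⟩
  rw [h2]
  ext v
  rw [Set.mem_ofPred_eq]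
  unfold vlist
  rw [List.map_append, List.mem_append, map_dec_vlistN, map_dec_vlistB]
  rcases v with x | ⟨⟨b, i⟩, c⟩
  · change _ ↔ x ∈ insert z (tnames T)
    rw [Finset.mem_insert, tnames, List.mem_toFinset]
    constructor
    · rintro (h | h)
      · obtain ⟨y, hy, h⟩ := List.mem_map.mp h
        rw [Sum.inl.injEq] at h
        subst h
        rw [List.mem_dedup, List.mem_cons] at hy
        exact hy
      · simp only [List.mem_flatMap, List.mem_map] at h
        obtain ⟨b, _, i, _, c, _, h⟩ := h
        exact absurd h (by simp)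
    · intro h
      refine Or.inl (List.mem_map.mpr ⟨x, ?_, rfl⟩)
      rw [List.mem_dedup, List.mem_cons]
      exact h
  · change _ ↔ (b, i) ∈ chJ T.length ∧
      c < (if (b, i) ∈ chJ T.length then capL.getD b 0 else 0)
    constructor
    · rintro (h | h)
      · obtain ⟨y, hy, h⟩ := List.mem_map.mp h
        exact absurd h (by simp)
      · simp only [List.mem_flatMap, List.mem_map] at h
        obtain ⟨b', hb, i', hi, c', hc, h⟩ := h
        simp only [Sum.inr.injEq, Prod.mk.injEq] at h
        obtain ⟨⟨rfl, rfl⟩, rfl⟩ := h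
        rw [List.mem_range] at hb hc
        have h5 : (b', i') ∈ chJ T.length := by
          rw [mem_idx] at hi
          rw [mem_chJ]
          omega
        rw [if_pos h5]
        exact ⟨h5, hc⟩
    · rintro ⟨h5, h6⟩
      rw [if_pos h5] at h6
      rw [mem_chJ] at h5
      refine Or.inr ?_
      simp only [List.mem_flatMap, List.mem_map]
      refine ⟨b, by rw [List.mem_range]; omega, i, ?_, c, by rwa [List.mem_range], rfl⟩
      rw [mem_idx]
      omega

/-- JOB BP-RED (2). The matrix is computed in polynomial time.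

Proof. `PT.matV'`, `PT.flatMap'`, `PT.map'`, `PT.dedup'`, `PT.any'`, `PT.getD'`, … and `fun_prop`. -/
theorem PT.redM' [Rep N] {m : Bool} {α : Type} [Rep α] (z : N) {T : α → List (N × (N × N))}
    (hT : PT m T) : PT m (fun a => redM z (T a)) := by
  have hN : PT m (fun a => vlistN z (T a)) := by
    unfold vlistN
    have h1 : PT m (fun a => (z :: (T a).flatMap fun t => [t.1, t.2.1, t.2.2]).dedup) := by
      refine H64.ENC.PT.dedup' (PT.cons' (by fun_prop) ?_)
      exact H64.Cook.PT.flatMap' (m := m) (l := T)
        (f := fun w : α × (N × (N × N)) => [w.2.1, w.2.2.1, w.2.2.2]) hT (by fun_prop)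
    exact PT.map' (m := m)
      (f := fun w : α × N => ((0, (w.2, (0, 0))) : ℕ × (N × (ℕ × ℕ)))) h1 (by fun_prop)
  have hM : PT m (fun a => (T a).length) := by fun_prop
  have hB : PT m (fun a => vlistB N (T a).length) := by
    unfold vlistB
    refine H64.Cook.PT.flatMapConst (m := m) (List.range 25)
      (f := fun b a => (idx (T a).length b).flatMap fun i =>
        (List.range (capL.getD b 0)).map fun c => ((b + 1, (default, (i, c))) :
          ℕ × (N × (ℕ × ℕ)))) (fun b => ?_)
    refine H64.Cook.PT.flatMap' (m := m) (l := fun a => idx (T a).length b)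
      (f := fun w : α × ℕ => (List.range (capL.getD b 0)).map fun c =>
        ((b + 1, (default, (w.2, c))) : ℕ × (N × (ℕ × ℕ)))) ?_ ?_
    · unfold idx
      refine PT.cond (by fun_prop) (by fun_prop) (PT.cond (by fun_prop) ?_ (by fun_prop))
      exact PT.map' (m := m) (l := fun a => List.range (T a).length)
        (f := fun w : α × ℕ => w.2 + 1) (by fun_prop) (by fun_prop)
    · exact PT.map' (m := m) (l := fun _ : α × ℕ => List.range (capL.getD b 0))
        (f := fun w : (α × ℕ) × ℕ => ((b + 1, (default, (w.1.2, w.2))) : ℕ × (N × (ℕ × ℕ))))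
        (by fun_prop) (by fun_prop)
  have hmem : ∀ {γ : Type} [Rep γ] {S : γ → List (N × (N × N))} {b i : γ → ℕ} {x : γ → N},
      PT m S → PT m b → PT m i → PT m x → PT m (fun a => memL z (S a) (b a) (i a) (x a)) := by
    intro γ _ S b i x hS hb hi hx
    have h1 : PT m (fun a => (S a).getD (i a - 1) default) := by fun_prop
    unfold memL
    fun_prop
  have hrel : ∀ {γ : Type} [Rep γ] {p q : γ → ℕ × ℕ},
      PT m p → PT m q → PT m (fun a => relB (p a) (q a)) := by
    intro γ _ p q hp hq
    unfold relB
    exact H64.Cook.PT.any' (m := m) (l := fun _ : γ => EL)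
      (f := fun w : γ × (ℕ × (ℕ × ℕ)) =>
        (decide ((p w.1).1 = w.2.1) && (decide ((q w.1).1 = w.2.2.1) &&
          decide ((q w.1).2 = (p w.1).2 + w.2.2.2))) ||
        (decide ((q w.1).1 = w.2.1) && (decide ((p w.1).1 = w.2.2.1) &&
          decide ((p w.1).2 = (q w.1).2 + w.2.2.2)))) (by fun_prop) (by fun_prop)
  have hadj : PT m (fun w : α × ((ℕ × (N × (ℕ × ℕ))) × (ℕ × (N × (ℕ × ℕ)))) =>
      adjB z (T w.1) w.2) := by
    unfold adjB
    have hT1 : PT m (fun w : α × ((ℕ × (N × (ℕ × ℕ))) × (ℕ × (N × (ℕ × ℕ)))) => T w.1) :=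
      hT.comp' PT.fst
    refine PT.cond (by fun_prop) (PT.cond (by fun_prop) (by fun_prop) ?_)
      (PT.cond (by fun_prop) ?_ ?_)
    · exact (hmem hT1 (by fun_prop) (by fun_prop) (by fun_prop)).not'
    · exact (hmem hT1 (by fun_prop) (by fun_prop) (by fun_prop)).not'
    · exact PT.or' (by fun_prop) (hrel (by fun_prop) (by fun_prop))
  have hV : PT m (fun a => vlist z (T a)) := by
    unfold vlist
    exact hN.append' hB
  unfold redM
  exact PT.matV' (VL := fun a => vlist z (T a)) (adj := fun w => adjB z (T w.1) w.2) hV hadj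

end Pool.Agent.H79.BP
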