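import Pool.Agent.H79.BP.Sound
import Pool.Agent.H79.BP.Enc3
import Pool.Agent.H79.BP.Red
import Pool.Agent.H79.BP.Mem
import Pool.Agent.H79.BP.ModelA
import Pool.Agent.H79.BP.ModelB
import Pool.Agent.H64.Cook.Verifier

/-!
# Recognising beta-perfect graphs is coNP-complete
-/

namespace Pool.Agent.H79.BP

open Pool.Agent.PPS Pool.Agent.H64.Cook Pool.Agent.H79.Thr

/-- The graph of the reduction: its matrix, and its properties. -/
theorem reduction (E : List (V3 × V3)) :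
    ∃ (n : ℕ) (G : SimpleGraph (Fin n)), redM nz (trs E) = enc G ∧ EvenHoleFree G ∧
      (EColourable 3 E ↔ ¬ BetaPerfect G) := by
  obtain ⟨n, φ, hinj, hr, he⟩ := redM_spec nz (trs E)
  have hsound : ∀ {S : Set (Fin n)} {k : ℕ},
      Viol ((chain nz (trs E)).graph.comap φ) S k → 3 ≤ k ∧
        ∃ K : Finset Nm, K ⊆ insert nz (tnames (trs E)) ∧ nz ∈ K ∧ ∀ s ∈ trs E, Good K s := by
    intro S k hS
    obtain ⟨S', hS', hv⟩ := (viol_comap_iff _ φ hinj k).1 ⟨S, hS⟩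
    rw [hr] at hS'
    obtain ⟨K, e, C, hK, hk, hF⟩ := feas_of_viol (chain nz (trs E))
      (fun p hp => if_neg hp) hS' hv
    obtain ⟨h1, h2, h3⟩ := sound hF (nz_notMem E) (ny_mem E) (guard_mem E)
    have h4 : 1 ≤ K.card := Finset.card_pos.2 ⟨_, h2⟩
    exact ⟨by omega, K, hK, h2, h3⟩
  refine ⟨n, _, he, ?_, ?_⟩
  · apply evenHoleFree_of_viol
    intro S hS
    have := (hsound hS).1
    omega
  · rw [← trs_sat, not_betaPerfect_iff]
    constructor
    · rintro ⟨K, hK, hzK, hgood⟩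
      obtain ⟨C, hF, hB⟩ := complete (nz_notMem E) hzK hgood
      obtain ⟨S, hS, hv⟩ := viol_of_feas (chain nz (trs E)) hK hF hB
      rw [← hr] at hS
      obtain ⟨S', hv'⟩ := (viol_comap_iff _ φ hinj _).2 ⟨S, hS, hv⟩
      exact ⟨S', _, hv'⟩
    · rintro ⟨S, k, hS⟩
      exact (hsound hS).2

/-- The graphs that are not beta-perfect are in `NP`. -/
theorem inNP : {x : List Bool | ∃ (n : ℕ) (G : SimpleGraph (Fin n)), x = enc G ∧
    ¬ BetaPerfect G} ∈ NP := by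
  have h : {x : List Bool | ∃ (n : ℕ) (G : SimpleGraph (Fin n)), x = enc G ∧
      ¬ BetaPerfect G} = {x : List Bool | ∃ (n : ℕ) (G : SimpleGraph (Fin n)), x = enc G ∧
      ∃ (S : Set (Fin n)) (k : ℕ), Viol G S k} := by
    simp only [not_betaPerfect_iff]
  rw [h]
  exact mem_viol

/-- NP-hardness. -/
theorem hard {L : Set (List Bool)} (hL : L ∈ NP) :
    ∃ f ∈ FP, ∀ x, ∃ (n : ℕ) (G : SimpleGraph (Fin n)), f x = enc G ∧ EvenHoleFree G ∧
      (x ∈ L ↔ ¬ BetaPerfect G) := by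
  obtain ⟨φ, hφ, h⟩ := hard3 hL
  refine ⟨fun x => redM nz (trs (φ x)), ?_, fun x => ?_⟩
  · rw [mem_FP_iff]
    exact PT.redM' nz (PT.trs' hφ)
  · obtain ⟨n, G, h1, h2, h3⟩ := reduction (φ x)
    exact ⟨n, G, h1, h2, (h x).2.trans h3⟩

end Pool.Agent.H79.BP
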