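import Pool.Agent.H79.BP.Chain
import Pool.Agent.H79.Thr.Conv

/-!
# Adjacency matrices from lists of vertices
-/

namespace Pool.Agent.H79.BP

open Pool.Agent.PPS Pool.Agent.H64.Cook Pool.Agent.H79.Thr

/-- The matrix with the entries `adj u v`, where `u`, `v` run through the list `VL`. -/
def matV {F : Type} (VL : List F) (adj : F × F → Bool) : List Bool :=
  VL.flatMap fun u => VL.map fun v => adj (u, v)

/-- JOB BP-MATV (1). The matrix encodes an induced subgraph.

Proof. `n = VL.length`, `φ i = g (VL.get i)`; see the proof of `Thr.mat_spec`. -/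
theorem matV_spec {F V : Type} (VL : List F) (adj : F × F → Bool) (G : SimpleGraph V) (g : F → V)
    (hnd : (VL.map g).Nodup) (h : ∀ u ∈ VL, ∀ v ∈ VL, (adj (u, v) = true ↔ G.Adj (g u) (g v))) :
    ∃ (n : ℕ) (φ : Fin n → V), Function.Injective φ ∧ Set.range φ = {v | v ∈ VL.map g} ∧
      matV VL adj = enc (G.comap φ) := by
  classical
  refine ⟨VL.length, fun i => g (VL.get i), ?_, ?_, ?_⟩
  · intro i j hij
    have h1 := List.inj_on_of_nodup_map hnd (List.get_mem VL i) (List.get_mem VL j) hij
    exact (List.nodup_iff_injective_get.1 hnd.of_map) h1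
  · ext v
    simp only [Set.mem_range, Set.mem_ofPred_eq, List.mem_map]
    constructor
    · rintro ⟨i, rfl⟩
      exact ⟨VL.get i, List.get_mem VL i, rfl⟩
    · rintro ⟨u, hu, rfl⟩
      obtain ⟨i, hi⟩ := List.get_of_mem hu
      exact ⟨i, by rw [hi]⟩
  · have h1 : ∀ {γ : Type} (f : F → γ),
        VL.map f = List.ofFn (fun i : Fin VL.length => f (VL.get i)) := by
      intro γ f
      conv_lhs => rw [← List.ofFn_get VL]
      rw [List.map_ofFn]
      rfl
    unfold matV enc
    rw [List.flatMap_def, h1]
    congr 1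
    congr 1
    funext i
    rw [h1]
    congr 1
    funext j
    rw [Bool.eq_iff_iff, h _ (List.get_mem VL i) _ (List.get_mem VL j)]
    simp

/-- JOB BP-MATV (2). The matrix is computed in polynomial time. (`adj` may depend on the input.) -/
theorem PT.matV' {m : Bool} {α F : Type} [Rep α] [Rep F] {VL : α → List F}
    {adj : α × (F × F) → Bool} (hV : PT m VL) (hadj : PT m adj) :
    PT m (fun a => matV (VL a) (fun p => adj (a, p))) := by
  unfold matV
  refine H64.Cook.PT.flatMap' (m := m) (l := VL)
    (f := fun z : α × F => (VL z.1).map fun v => adj (z.1, (z.2, v))) hV ?_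
  refine PT.map' (m := m) (l := fun z : α × F => VL z.1)
    (f := fun z : (α × F) × F => adj (z.1.1, (z.1.2, z.2))) (hV.comp' PT.fst) ?_
  exact hadj.comp' (by fun_prop)

end Pool.Agent.H79.BP
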