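import Pool.Agent.H79.BP.Viol

/-!
# Blow-ups with a clique of colours

The vertices are names `x : N`, which are pairwise adjacent, and copies `(i, c)` of the bags `i : I`.
Two copies of the same bag are adjacent, and so are copies of neighbouring bags. The name `x` is
adjacent to the copies of the bag `i` unless `x` is in the list `L i`. So in a colouring a copy of the
bag `i` may have the colour of the name `x` only if `x` is in `L i`.
-/

namespace Pool.Agent.H79.BP

variable {N I : Type} [DecidableEq N] [DecidableEq I]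

/-- The data of a blow-up. -/
structure Mdl (N I : Type) where
  nbrs : I → Finset I
  symm : ∀ i j, j ∈ nbrs i → i ∈ nbrs j
  irrefl : ∀ i, i ∉ nbrs i
  L : I → Finset N
  cap : I → ℕ
  J : Finset I
  names : Finset N

/-- Adjacency. -/
def Mdl.Rel (m : Mdl N I) : N ⊕ (I × ℕ) → N ⊕ (I × ℕ) → Prop
  | Sum.inl x, Sum.inl y => x ≠ y
  | Sum.inl x, Sum.inr p => x ∉ m.L p.1
  | Sum.inr p, Sum.inl x => x ∉ m.L p.1
  | Sum.inr p, Sum.inr q => (p.1 = q.1 ∧ p.2 ≠ q.2) ∨ q.1 ∈ m.nbrs p.1

/-- The infinite graph of which the wanted graph is an induced subgraph. -/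
def Mdl.graph (m : Mdl N I) : SimpleGraph (N ⊕ (I × ℕ)) where
  Adj := m.Rel
  symm := ⟨by
    rintro (x | p) (y | q) h
    · exact Ne.symm h
    · exact h
    · exact h
    · rcases h with h | h
      · exact Or.inl ⟨h.1.symm, h.2.symm⟩
      · exact Or.inr (m.symm _ _ h)⟩
  loopless := ⟨by
    rintro (x | p) h
    · exact h rfl
    · rcases h with h | h
      · exact h.2 rfl
      · exact m.irrefl _ h⟩

/-- The vertices of the wanted graph. -/
def Mdl.W (m : Mdl N I) : Set (N ⊕ (I × ℕ)) :=
  {v | match v with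
    | Sum.inl x => x ∈ m.names
    | Sum.inr p => p.1 ∈ m.J ∧ p.2 < m.cap p.1}

/-- Feasible data: `K` is the set of the chosen names, `e` the number of additional colours,
`C i` is the set of the colours that occur in the bag `i`; the colour of the name `x` is `inl x`, and
the additional colours are `inr j`. -/
structure Feas (m : Mdl N I) (K : Finset N) (e : ℕ) (C : I → Finset (N ⊕ Fin e)) : Prop where
  sub : ∀ i, C i ⊆ (K ∩ m.L i).disjSum Finset.univ
  zero : ∀ i, i ∉ m.J → C i = ∅
  disj : ∀ i, ∀ j ∈ m.nbrs i, Disjoint (C i) (C j)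
  deg : ∀ i, (C i).Nonempty →
    e + (K ∩ m.L i).card + 1 ≤ (C i).card + ∑ j ∈ m.nbrs i, (C j).card
  cap : ∀ i, (C i).card ≤ m.cap i
  ne : ∃ i, (C i).Nonempty

/-- The chosen names have enough neighbours. -/
def Boost (m : Mdl N I) (K : Finset N) (e : ℕ) (C : I → Finset (N ⊕ Fin e)) : Prop :=
  ∀ x ∈ K, e + 1 ≤ ∑ i ∈ m.J.filter (fun i => x ∉ m.L i), (C i).card

end Pool.Agent.H79.BP
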