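import Pool.Agent.H79.BP.Chain
import Pool.Agent.H79.BP.Block

/-!
# Numerical facts about the chain

`t p` stands for the number of the copies of the bag `p` in a violation, `b` for the number of the
colours that are available in the bags with list `{z}`, `a2`, `a3` for the number of the colours
available in the bags `7, …, 12` and `13, …, 18` of a unit.
-/

namespace Pool.Agent.H79.BP

/-- The numerical facts about the unit number `i + 1`. -/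
structure UF (t : ℕ × ℕ → ℕ) (i b a2 a3 : ℕ) : Prop where
  b2 : b ≤ a2
  b3 : a2 ≤ a3
  b4 : a2 ≤ b + 2
  b5 : a3 ≤ a2 + 1
  -- capacities
  kl : t (3, i) + t (21, i) ≤ 1
  kr : t (4, i + 2) + t (22, i + 2) ≤ 1
  k4 : t (4, i + 1) ≤ 1
  k5 : t (5, i + 1) ≤ 2
  k6 : t (6, i + 1) ≤ 1
  k7 : t (7, i + 1) ≤ 1
  k8 : t (8, i + 1) ≤ 1
  k9 : t (9, i + 1) ≤ 1
  k10 : t (10, i + 1) ≤ 3
  k11 : t (11, i + 1) ≤ 2
  k12 : t (12, i + 1) ≤ 2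
  k13 : t (13, i + 1) ≤ 1
  k14 : t (14, i + 1) ≤ 1
  k15 : t (15, i + 1) ≤ 1
  k16 : t (16, i + 1) ≤ 3
  k17 : t (17, i + 1) ≤ 2
  k18 : t (18, i + 1) ≤ 2
  k19 : t (19, i + 1) ≤ 1
  k20 : t (20, i + 1) ≤ 2
  k21 : t (21, i + 1) ≤ 1
  -- degrees
  d4 : 1 ≤ t (4, i + 1) → b + 1 ≤ t (4, i + 1) + (t (5, i + 1) + (t (3, i) + t (21, i)))
  d5 : 1 ≤ t (5, i + 1) → b + 1 ≤ t (5, i + 1) + (t (4, i + 1) + t (6, i + 1))
  d6 : 1 ≤ t (6, i + 1) → b + 1 ≤ t (6, i + 1) + (t (5, i + 1) + t (7, i + 1))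
  d7 : 1 ≤ t (7, i + 1) → a2 + 1 ≤ t (7, i + 1) +
    (t (6, i + 1) + (t (8, i + 1) + (t (9, i + 1) + t (12, i + 1))))
  d8 : 1 ≤ t (8, i + 1) → a2 + 1 ≤ t (8, i + 1) +
    (t (7, i + 1) + (t (13, i + 1) + (t (9, i + 1) + t (12, i + 1))))
  d9 : 1 ≤ t (9, i + 1) → a2 + 1 ≤ t (9, i + 1) +
    (t (7, i + 1) + (t (8, i + 1) + t (10, i + 1)))
  d10 : 1 ≤ t (10, i + 1) → a2 + 1 ≤ t (10, i + 1) + (t (9, i + 1) + t (11, i + 1))
  d11 : 1 ≤ t (11, i + 1) → a2 + 1 ≤ t (11, i + 1) + (t (10, i + 1) + t (12, i + 1))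
  d12 : 1 ≤ t (12, i + 1) → a2 + 1 ≤ t (12, i + 1) +
    (t (7, i + 1) + (t (8, i + 1) + t (11, i + 1)))
  d13 : 1 ≤ t (13, i + 1) → a3 + 1 ≤ t (13, i + 1) +
    (t (8, i + 1) + (t (14, i + 1) + (t (15, i + 1) + t (18, i + 1))))
  d14 : 1 ≤ t (14, i + 1) → a3 + 1 ≤ t (14, i + 1) +
    (t (13, i + 1) + (t (19, i + 1) + (t (15, i + 1) + t (18, i + 1))))
  d15 : 1 ≤ t (15, i + 1) → a3 + 1 ≤ t (15, i + 1) +
    (t (13, i + 1) + (t (14, i + 1) + t (16, i + 1)))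
  d16 : 1 ≤ t (16, i + 1) → a3 + 1 ≤ t (16, i + 1) + (t (15, i + 1) + t (17, i + 1))
  d17 : 1 ≤ t (17, i + 1) → a3 + 1 ≤ t (17, i + 1) + (t (16, i + 1) + t (18, i + 1))
  d18 : 1 ≤ t (18, i + 1) → a3 + 1 ≤ t (18, i + 1) +
    (t (13, i + 1) + (t (14, i + 1) + t (17, i + 1)))
  d19 : 1 ≤ t (19, i + 1) → b + 1 ≤ t (19, i + 1) + (t (14, i + 1) + t (20, i + 1))
  d20 : 1 ≤ t (20, i + 1) → b + 1 ≤ t (20, i + 1) + (t (19, i + 1) + t (21, i + 1))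
  d21 : 1 ≤ t (21, i + 1) → b + 1 ≤ t (21, i + 1) +
    (t (20, i + 1) + (t (4, i + 2) + t (22, i + 2)))
  -- neighbouring bags
  q1 : t (3, i) + t (21, i) + t (4, i + 1) ≤ b
  q2 : t (4, i + 1) + t (5, i + 1) ≤ b
  q3 : t (5, i + 1) + t (6, i + 1) ≤ b
  q4 : t (6, i + 1) + t (7, i + 1) ≤ a2
  q5 : t (7, i + 1) + t (8, i + 1) + t (9, i + 1) ≤ a2
  q6 : t (7, i + 1) + t (8, i + 1) + t (12, i + 1) ≤ a2
  q7 : t (9, i + 1) + t (10, i + 1) ≤ a2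
  q8 : t (10, i + 1) + t (11, i + 1) ≤ a2
  q9 : t (11, i + 1) + t (12, i + 1) ≤ a2
  q10 : t (8, i + 1) + t (13, i + 1) ≤ a3
  q11 : t (13, i + 1) + t (14, i + 1) + t (15, i + 1) ≤ a3
  q12 : t (13, i + 1) + t (14, i + 1) + t (18, i + 1) ≤ a3
  q13 : t (15, i + 1) + t (16, i + 1) ≤ a3
  q14 : t (16, i + 1) + t (17, i + 1) ≤ a3
  q15 : t (17, i + 1) + t (18, i + 1) ≤ a3
  q16 : t (14, i + 1) + t (19, i + 1) ≤ a3
  q17 : t (19, i + 1) + t (20, i + 1) ≤ b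
  q18 : t (20, i + 1) + t (21, i + 1) ≤ b
  q19 : t (21, i + 1) + (t (4, i + 2) + t (22, i + 2)) ≤ b
  -- every colour occurs at most twice in a block with its pendant
  s2 : t (7, i + 1) + t (8, i + 1) + t (9, i + 1) + t (10, i + 1) + t (11, i + 1) +
    t (12, i + 1) ≤ 2 * a2
  s3 : t (13, i + 1) + t (14, i + 1) + t (15, i + 1) + t (16, i + 1) + t (17, i + 1) +
    t (18, i + 1) ≤ 2 * a3

/-- The numerical facts about the two caps; there are `M` units. -/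
structure CF (t : ℕ × ℕ → ℕ) (M e b : ℕ) : Prop where
  eb : e ≤ b
  be : b ≤ e + 1
  -- outside
  out : ∀ p, p ∉ chJ M → t p = 0
  -- the left cap
  k0 : t (0, 0) ≤ 1
  k1 : t (1, 0) ≤ 2
  k2 : t (2, 0) ≤ 1
  k3 : t (3, 0) ≤ 1
  kr : t (4, 1) + t (22, 1) ≤ 1
  e0 : t (0, 0) ≤ e
  e3 : t (3, 0) ≤ e
  d0 : 1 ≤ t (0, 0) → e + 1 ≤ t (0, 0) + t (1, 0)
  d1 : 1 ≤ t (1, 0) → b + 1 ≤ t (1, 0) + (t (0, 0) + t (2, 0))
  d2 : 1 ≤ t (2, 0) → b + 1 ≤ t (2, 0) + (t (1, 0) + t (3, 0))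
  d3 : 1 ≤ t (3, 0) → e + 1 ≤ t (3, 0) + (t (2, 0) + (t (4, 1) + t (22, 1)))
  q0 : t (0, 0) + t (1, 0) ≤ b
  q1 : t (1, 0) + t (2, 0) ≤ b
  q2 : t (2, 0) + t (3, 0) ≤ b
  q3 : t (3, 0) + (t (4, 1) + t (22, 1)) ≤ b
  -- the right cap
  kl : t (3, M) + t (21, M) ≤ 1
  k22 : t (22, M + 1) ≤ 1
  k23 : t (23, M + 1) ≤ 2
  k24 : t (24, M + 1) ≤ 1
  e24 : t (24, M + 1) ≤ e
  d22 : 1 ≤ t (22, M + 1) → b + 1 ≤ t (22, M + 1) + (t (23, M + 1) + (t (3, M) + t (21, M)))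
  d23 : 1 ≤ t (23, M + 1) → b + 1 ≤ t (23, M + 1) + (t (22, M + 1) + t (24, M + 1))
  d24 : 1 ≤ t (24, M + 1) → e + 1 ≤ t (24, M + 1) + t (23, M + 1)
  q22 : t (3, M) + t (21, M) + t (22, M + 1) ≤ b
  q23 : t (22, M + 1) + t (23, M + 1) ≤ b
  q24 : t (23, M + 1) + t (24, M + 1) ≤ b

variable {N : Type} [DecidableEq N] [Inhabited N]

/-- The number of the colours available in the bags with list `{z}`. -/
def bb (e : ℕ) (K : Finset N) (z : N) : ℕ := e + (K ∩ {z}).card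

/-- The number of the colours available in the bags `(7, i + 1), …, (12, i + 1)`. -/
def aa2 (e : ℕ) (K : Finset N) (z : N) (T : List (N × (N × N))) (i : ℕ) : ℕ :=
  e + (K ∩ {z, (trip T (i + 1)).1, (trip T (i + 1)).2.1}).card

/-- The number of the colours available in the bags `(13, i + 1), …, (18, i + 1)`. -/
def aa3 (e : ℕ) (K : Finset N) (z : N) (T : List (N × (N × N))) (i : ℕ) : ℕ :=
  e + (K ∩ {z, (trip T (i + 1)).1, (trip T (i + 1)).2.1, (trip T (i + 1)).2.2}).card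

/-- The number of the copies. -/
def cnt {e : ℕ} (C : ℕ × ℕ → Finset (N ⊕ Fin e)) (p : ℕ × ℕ) : ℕ := (C p).card

end Pool.Agent.H79.BP
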