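import Pool.Agent.H79.BP.NumDefs

/-!
# The numerical facts hold for feasible data: units
-/

namespace Pool.Agent.H79.BP

private theorem numU_two {α : Type} [DecidableEq α] {X Y S : Finset α} {n : ℕ} (hn : S.card = n)
    (hX : X ⊆ S) (hY : Y ⊆ S) (h : Disjoint X Y) : X.card + Y.card ≤ n := by
  rw [← hn, ← Finset.card_union_of_disjoint h]
  exact Finset.card_le_card (Finset.union_subset hX hY)

private theorem numU_three {α : Type} [DecidableEq α] {X Y Z S : Finset α} {n : ℕ}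
    (hn : S.card = n) (hX : X ⊆ S) (hY : Y ⊆ S) (hZ : Z ⊆ S) (h : Disjoint X Y)
    (h1 : Disjoint X Z) (h2 : Disjoint Y Z) : X.card + Y.card + Z.card ≤ n := by
  rw [← Finset.card_union_of_disjoint h]
  exact numU_two hn (Finset.union_subset hX hY) hZ (Finset.disjoint_union_left.2 ⟨h1, h2⟩)

private theorem numU_card {α : Type} [DecidableEq α] {X S : Finset α} (h : X ⊆ S) :
    X.card = ∑ a ∈ S, if a ∈ X then 1 else 0 := by
  rw [Finset.sum_ite_mem, Finset.sum_const, smul_eq_mul, mul_one,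
    Finset.inter_eq_right.2 h]

private theorem numU_five {α : Type} [DecidableEq α] {X0 X1 X2 X3 X4 S : Finset α} {n : ℕ}
    (hn : S.card = n) (h0 : X0 ⊆ S) (h1 : X1 ⊆ S) (h2 : X2 ⊆ S) (h3 : X3 ⊆ S) (h4 : X4 ⊆ S)
    (h01 : Disjoint X0 X1) (h12 : Disjoint X1 X2) (h23 : Disjoint X2 X3) (h34 : Disjoint X3 X4)
    (h40 : Disjoint X4 X0) : X0.card + X1.card + X2.card + X3.card + X4.card ≤ 2 * n := by
  rw [numU_card h0, numU_card h1, numU_card h2, numU_card h3, numU_card h4,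
    ← Finset.sum_add_distrib, ← Finset.sum_add_distrib, ← Finset.sum_add_distrib,
    ← Finset.sum_add_distrib]
  have key : ∀ a ∈ S, (((((if a ∈ X0 then 1 else 0) + (if a ∈ X1 then 1 else 0)) +
      (if a ∈ X2 then 1 else 0)) + (if a ∈ X3 then 1 else 0)) + (if a ∈ X4 then 1 else 0)) ≤ 2 := by
    intro a _
    have g01 : a ∈ X0 → a ∉ X1 := fun ha => Finset.disjoint_left.1 h01 ha
    have g12 : a ∈ X1 → a ∉ X2 := fun ha => Finset.disjoint_left.1 h12 ha
    have g23 : a ∈ X2 → a ∉ X3 := fun ha => Finset.disjoint_left.1 h23 ha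
    have g34 : a ∈ X3 → a ∉ X4 := fun ha => Finset.disjoint_left.1 h34 ha
    have g40 : a ∈ X4 → a ∉ X0 := fun ha => Finset.disjoint_left.1 h40 ha
    clear h0 h1 h2 h3 h4 h01 h12 h23 h34 h40 hn
    by_cases a0 : a ∈ X0 <;> by_cases a1 : a ∈ X1 <;> by_cases a2 : a ∈ X2 <;>
      by_cases a3 : a ∈ X3 <;> by_cases a4 : a ∈ X4 <;> simp_all
  calc _ ≤ ∑ a ∈ S, 2 := Finset.sum_le_sum key
    _ = 2 * n := by rw [Finset.sum_const, smul_eq_mul, hn, mul_comm]

private theorem numU_sum2 (f : ℕ × ℕ → ℕ) {a b i j : ℕ} (h : a ≠ b) :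
    ∑ q ∈ ({(a, i), (b, j)} : Finset (ℕ × ℕ)), f q = f (a, i) + f (b, j) :=
  Finset.sum_pair fun h1 => h (congrArg Prod.fst h1)

private theorem numU_sum3 (f : ℕ × ℕ → ℕ) {a b c i j k : ℕ} (h : (a ≠ b ∧ a ≠ c) ∧ b ≠ c) :
    ∑ q ∈ ({(a, i), (b, j), (c, k)} : Finset (ℕ × ℕ)), f q = f (a, i) + (f (b, j) + f (c, k)) := by
  rw [Finset.sum_insert, numU_sum2 f h.2]
  rw [Finset.mem_insert, Finset.mem_singleton]
  rintro (h1 | h1)
  · exact h.1.1 (congrArg Prod.fst h1)
  · exact h.1.2 (congrArg Prod.fst h1)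

private theorem numU_sum4 (f : ℕ × ℕ → ℕ) {a b c d i j k l : ℕ}
    (h0 : a ≠ b ∧ a ≠ c ∧ a ≠ d) (h : (b ≠ c ∧ b ≠ d) ∧ c ≠ d) :
    ∑ q ∈ ({(a, i), (b, j), (c, k), (d, l)} : Finset (ℕ × ℕ)), f q =
      f (a, i) + (f (b, j) + (f (c, k) + f (d, l))) := by
  rw [Finset.sum_insert, numU_sum3 f h]
  rw [Finset.mem_insert, Finset.mem_insert, Finset.mem_singleton]
  rintro (h1 | h1 | h1)
  · exact h0.1 (congrArg Prod.fst h1)
  · exact h0.2.1 (congrArg Prod.fst h1)
  · exact h0.2.2 (congrArg Prod.fst h1)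

variable {N : Type} [DecidableEq N] [Inhabited N]

private theorem numU_deg {z : N} {T : List (N × (N × N))} {K : Finset N} {e : ℕ}
    {C : ℕ × ℕ → Finset (N ⊕ Fin e)} (h : Feas (chain z T) K e C) {p : ℕ × ℕ}
    {Q : Finset (ℕ × ℕ)} {S : Finset N} {n s : ℕ} (hQ : nbs p = Q) (hS : chL z T p = S)
    (hn : n = e + (K ∩ S).card) (hs : ∑ q ∈ Q, cnt C q = s) (hp : 1 ≤ cnt C p) :
    n + 1 ≤ cnt C p + s := by
  subst hQ hS hn hs
  exact h.deg p (Finset.card_pos.1 hp)

private theorem numU_T1 (z : N) (T : List (N × (N × N))) {b j : ℕ}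
    (hb : b = 4 ∨ b = 5 ∨ b = 6 ∨ b = 19 ∨ b = 20 ∨ b = 21 ∨ b = 22) :
    chL z T (b, j) = {z} := by
  rcases hb with rfl | rfl | rfl | rfl | rfl | rfl | rfl <;> rfl

private theorem numU_T2 (z : N) (T : List (N × (N × N))) {b j : ℕ} (h1 : 7 ≤ b) (h2 : b ≤ 12) :
    chL z T (b, j) = {z, (trip T j).1, (trip T j).2.1} := by
  unfold chL
  rw [if_neg (by simp only; omega), if_pos ⟨h1, h2⟩]

private theorem numU_T3 (z : N) (T : List (N × (N × N))) {b j : ℕ} (h1 : 13 ≤ b) (h2 : b ≤ 18) :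
    chL z T (b, j) = {z, (trip T j).1, (trip T j).2.1, (trip T j).2.2} := by
  unfold chL
  rw [if_neg (by simp only; omega), if_neg (by simp only; omega), if_pos ⟨h1, h2⟩]


private theorem numU_cap {z : N} {T : List (N × (N × N))} {K : Finset N} {e : ℕ}
    {C : ℕ × ℕ → Finset (N ⊕ Fin e)} (h : Feas (chain z T) K e C) (b j : ℕ) {n : ℕ}
    (hn : capL.getD b 0 = n) : cnt C (b, j) ≤ n := by
  have h1 : (C (b, j)).card ≤ if (b, j) ∈ chJ T.length then capL.getD b 0 else 0 := h.cap (b, j)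
  rw [← hn]
  refine h1.trans ?_
  split_ifs
  · exact le_rfl
  · exact Nat.zero_le _

private theorem numU_zero {z : N} {T : List (N × (N × N))} {K : Finset N} {e : ℕ}
    {C : ℕ × ℕ → Finset (N ⊕ Fin e)} (h : Feas (chain z T) K e C) {p : ℕ × ℕ}
    (hp : p ∉ chJ T.length) : cnt C p = 0 := by
  have h1 : C p = ∅ := h.zero p hp
  rw [cnt, h1, Finset.card_empty]

private theorem numU_sub {z : N} {T : List (N × (N × N))} {K : Finset N} {e : ℕ}
    {C : ℕ × ℕ → Finset (N ⊕ Fin e)} (h : Feas (chain z T) K e C) {p : ℕ × ℕ} {S S' : Finset N}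
    (hS : chL z T p = S) (hSS : S ⊆ S') : C p ⊆ (K ∩ S').disjSum Finset.univ := by
  subst hS
  exact (h.sub p).trans (Finset.disjSum_mono (Finset.inter_subset_inter_left hSS)
    (Finset.Subset.refl _))

/-- Two neighbouring bags. -/
private theorem numU_q2 {z : N} {T : List (N × (N × N))} {K : Finset N} {e : ℕ}
    {C : ℕ × ℕ → Finset (N ⊕ Fin e)} (h : Feas (chain z T) K e C) {p q : ℕ × ℕ}
    {S : Finset N} {n : ℕ} (hn : n = e + (K ∩ S).card)
    (hp : C p ⊆ (K ∩ S).disjSum Finset.univ) (hq : C q ⊆ (K ∩ S).disjSum Finset.univ)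
    (hpq : q ∈ nbs p) : cnt C p + cnt C q ≤ n := by
  refine numU_two ?_ hp hq (h.disj p q hpq)
  rw [Finset.card_disjSum, Finset.card_univ, Fintype.card_fin, add_comm, hn]

/-- Three pairwise neighbouring bags. -/
private theorem numU_q3 {z : N} {T : List (N × (N × N))} {K : Finset N} {e : ℕ}
    {C : ℕ × ℕ → Finset (N ⊕ Fin e)} (h : Feas (chain z T) K e C) {p q r : ℕ × ℕ}
    {S : Finset N} {n : ℕ} (hn : n = e + (K ∩ S).card)
    (hp : C p ⊆ (K ∩ S).disjSum Finset.univ) (hq : C q ⊆ (K ∩ S).disjSum Finset.univ)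
    (hr : C r ⊆ (K ∩ S).disjSum Finset.univ) (hpq : q ∈ nbs p) (hpr : r ∈ nbs p)
    (hqr : r ∈ nbs q) : cnt C p + cnt C q + cnt C r ≤ n := by
  refine numU_three ?_ hp hq hr (h.disj p q hpq) (h.disj p r hpr) (h.disj q r hqr)
  rw [Finset.card_disjSum, Finset.card_univ, Fintype.card_fin, add_comm, hn]

/-- A block with its pendant. -/
private theorem numU_s {z : N} {T : List (N × (N × N))} {K : Finset N} {e : ℕ}
    {C : ℕ × ℕ → Finset (N ⊕ Fin e)} (h : Feas (chain z T) K e C) {p p' q r s t : ℕ × ℕ}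
    {S : Finset N} {n : ℕ} (hn : n = e + (K ∩ S).card)
    (hp : C p ⊆ (K ∩ S).disjSum Finset.univ) (hp' : C p' ⊆ (K ∩ S).disjSum Finset.univ)
    (hq : C q ⊆ (K ∩ S).disjSum Finset.univ) (hr : C r ⊆ (K ∩ S).disjSum Finset.univ)
    (hs : C s ⊆ (K ∩ S).disjSum Finset.univ) (ht : C t ⊆ (K ∩ S).disjSum Finset.univ)
    (h1 : p' ∈ nbs p) (h2 : q ∈ nbs p) (h3 : q ∈ nbs p') (h4 : r ∈ nbs q) (h5 : s ∈ nbs r)
    (h6 : t ∈ nbs s) (h7 : t ∈ nbs p) (h8 : t ∈ nbs p') :
    cnt C p + cnt C p' + cnt C q + cnt C r + cnt C s + cnt C t ≤ 2 * n := by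
  have hc : (C p ∪ C p').card = cnt C p + cnt C p' :=
    Finset.card_union_of_disjoint (h.disj p p' h1)
  rw [← hc]
  refine numU_five ?_ (Finset.union_subset hp hp') hq hr hs ht
    (Finset.disjoint_union_left.2 ⟨h.disj p q h2, h.disj p' q h3⟩) (h.disj q r h4)
    (h.disj r s h5) (h.disj s t h6)
    (Finset.disjoint_union_right.2 ⟨(h.disj p t h7).symm, (h.disj p' t h8).symm⟩)
  rw [Finset.card_disjSum, Finset.card_univ, Fintype.card_fin, add_comm, hn]

/-- JOB BP-NUMU. Feasible data satisfy the numerical facts about the units.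

Proof. Write `A S = (K ∩ S).disjSum Finset.univ`, a finset with `(K ∩ S).card + e` elements, monotone
in `S`. `C p ⊆ A (chL z T p)` by `h.sub`, and for concrete tags `chL z T (tag, j)` is one of
`∅`, `{z}`, `{z, x, y}`, `{z, x, y, w}` (with `(x, y, w) = trip T j`).
* `b2`-`b5`: cardinalities of intersections: `{z} ⊆ {z, x, y} ⊆ {z, x, y, w}`, and `{x, y}`, `{w}` have
  at most `2`, `1` elements.
* capacities: `h.cap (tag, j)` with `(chain z T).cap p = if p ∈ chJ T.length then capL.getD p.1 0 else 0`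
  and `mem_chJ`; for `kl`: if `i = 0` then `(21, 0) ∉ chJ` and `(3, 0)` has capacity `1`; if `1 ≤ i`, then
  `(3, i) ∉ chJ` and `(21, i)` has capacity `1`. Similarly for `kr`: `(4, i + 2) ∈ chJ` iff `i + 2 ≤ M`,
  `(22, i + 2) ∈ chJ` iff `i + 2 = M + 1`.
* degrees `d4`-`d21`: `h.deg (tag, i + 1)` with `(C p).Nonempty ↔ 1 ≤ (C p).card` and `nbs_4`, …,
  `nbs_21` (use `Finset.sum_insert`, or `simp` with the decision that the listed pairs are different).
* neighbouring bags `q1`-`q19`: a general lemma: if `X, Y` are disjoint subsets of a finset `S` then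
  `|X| + |Y| ≤ |S|`; the same for three pairwise disjoint sets. The disjointness is `h.disj p q` with
  `q ∈ nbs p` (use `nbs_4`, …). In `q1` one of the sets `C (3, i)`, `C (21, i)` is empty (`h.zero`, by
  `mem_chJ`), likewise in `q19`.
* `s2`, `s3`: a general lemma: if `X0, …, X4 ⊆ S` and `X0 X1`, `X1 X2`, `X2 X3`, `X3 X4`, `X4 X0` are
  disjoint, then `|X0| + … + |X4| ≤ 2 |S|`, since every element of `S` is in at most two of the sets
  (write `|Xi| = ∑ a ∈ S, if a ∈ Xi then 1 else 0`). Apply it to `X0 = C (7, _) ∪ C (8, _)`,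
  `X1 = C (9, _)`, …, `X4 = C (12, _)`. -/
theorem uf_of_feas {z : N} {T : List (N × (N × N))} {K : Finset N} {e : ℕ}
    {C : ℕ × ℕ → Finset (N ⊕ Fin e)} (h : Feas (chain z T) K e C) {i : ℕ} (hi : i < T.length) :
    UF (cnt C) i (bb e K z) (aa2 e K z T i) (aa3 e K z T i) := by
  have c1 : bb e K z = e + (K ∩ {z}).card := rfl
  have c2 : aa2 e K z T i = e + (K ∩ {z, (trip T (i + 1)).1, (trip T (i + 1)).2.1}).card := rfl
  have c3 : aa3 e K z T i = e + (K ∩ {z, (trip T (i + 1)).1, (trip T (i + 1)).2.1,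
    (trip T (i + 1)).2.2}).card := rfl
  have t1 := @numU_T1 N _ _ z T
  have t2 : ∀ {b : ℕ}, 7 ≤ b → b ≤ 12 → chL z T (b, i + 1) = _ :=
    fun {b} h1 h2 => numU_T2 z T (j := i + 1) h1 h2
  have t3 : ∀ {b : ℕ}, 13 ≤ b → b ≤ 18 → chL z T (b, i + 1) = _ :=
    fun {b} h1 h2 => numU_T3 z T (j := i + 1) h1 h2
  generalize aa2 e K z T i = a2 at *
  generalize aa3 e K z T i = a3 at *
  generalize bb e K z = b0 at *
  generalize (trip T (i + 1)).1 = x at *
  generalize (trip T (i + 1)).2.1 = y at *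
  generalize (trip T (i + 1)).2.2 = w at *
  have m12 : ({z} : Finset N) ⊆ {z, x, y} := by
    intro a ha
    rw [Finset.mem_singleton] at ha
    rw [ha]
    exact Finset.mem_insert_self _ _
  have m23 : ({z, x, y} : Finset N) ⊆ {z, x, y, w} := by
    intro a ha
    simp only [Finset.mem_insert, Finset.mem_singleton] at ha ⊢
    tauto
  have s1 : ∀ {b j : ℕ}, b = 4 ∨ b = 5 ∨ b = 6 ∨ b = 19 ∨ b = 20 ∨ b = 21 ∨ b = 22 →
      C (b, j) ⊆ (K ∩ {z}).disjSum Finset.univ :=
    fun {b j} hb => numU_sub h (t1 hb) (Finset.Subset.refl _)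
  have s0 : C (3, i) ⊆ (K ∩ {z}).disjSum Finset.univ :=
    numU_sub h (S := ∅) rfl (Finset.empty_subset _)
  have s12 : ∀ {b j : ℕ}, b = 4 ∨ b = 5 ∨ b = 6 ∨ b = 19 ∨ b = 20 ∨ b = 21 ∨ b = 22 →
      C (b, j) ⊆ (K ∩ {z, x, y}).disjSum Finset.univ :=
    fun {b j} hb => numU_sub h (t1 hb) m12
  have s13 : ∀ {b j : ℕ}, b = 4 ∨ b = 5 ∨ b = 6 ∨ b = 19 ∨ b = 20 ∨ b = 21 ∨ b = 22 →
      C (b, j) ⊆ (K ∩ {z, x, y, w}).disjSum Finset.univ :=
    fun {b j} hb => numU_sub h (t1 hb) (m12.trans m23)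
  have s2 : ∀ {b : ℕ}, 7 ≤ b → b ≤ 12 → C (b, i + 1) ⊆ (K ∩ {z, x, y}).disjSum Finset.univ :=
    fun {b} h1 h2 => numU_sub h (t2 h1 h2) (Finset.Subset.refl _)
  have s23 : ∀ {b : ℕ}, 7 ≤ b → b ≤ 12 →
      C (b, i + 1) ⊆ (K ∩ {z, x, y, w}).disjSum Finset.univ :=
    fun {b} h1 h2 => numU_sub h (t2 h1 h2) m23
  have s3 : ∀ {b : ℕ}, 13 ≤ b → b ≤ 18 →
      C (b, i + 1) ⊆ (K ∩ {z, x, y, w}).disjSum Finset.univ :=
    fun {b} h1 h2 => numU_sub h (t3 h1 h2) (Finset.Subset.refl _)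
  have d1 : ∀ b Q s, nbs (b, i + 1) = Q → (b = 4 ∨ b = 5 ∨ b = 6 ∨ b = 19 ∨ b = 20 ∨ b = 21 ∨
      b = 22) → ∑ q ∈ Q, cnt C q = s → 1 ≤ cnt C (b, i + 1) → b0 + 1 ≤ cnt C (b, i + 1) + s :=
    fun b Q s hQ hb hs hp => numU_deg h hQ (t1 hb) c1 hs hp
  have d2 : ∀ b Q s, nbs (b, i + 1) = Q → 7 ≤ b → b ≤ 12 → ∑ q ∈ Q, cnt C q = s →
      1 ≤ cnt C (b, i + 1) → a2 + 1 ≤ cnt C (b, i + 1) + s :=
    fun b Q s hQ h1 h2 hs hp => numU_deg h hQ (t2 h1 h2) c2 hs hp
  have d3 : ∀ b Q s, nbs (b, i + 1) = Q → 13 ≤ b → b ≤ 18 → ∑ q ∈ Q, cnt C q = s →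
      1 ≤ cnt C (b, i + 1) → a3 + 1 ≤ cnt C (b, i + 1) + s :=
    fun b Q s hQ h1 h2 hs hp => numU_deg h hQ (t3 h1 h2) c3 hs hp
  have hleft : cnt C (3, i) = 0 ∨ cnt C (21, i) = 0 := by
    rcases Nat.eq_zero_or_pos i with h0 | h0
    · right
      apply numU_zero h
      rw [mem_chJ]
      omega
    · left
      apply numU_zero h
      rw [mem_chJ]
      omega
  have hright : cnt C (4, i + 2) = 0 ∨ cnt C (22, i + 2) = 0 := by
    rcases Nat.lt_or_ge (i + 1) T.length with h0 | h0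
    · right
      apply numU_zero h
      rw [mem_chJ]
      omega
    · left
      apply numU_zero h
      rw [mem_chJ]
      omega
  have n4 := nbs_4 i
  have n5 := nbs_5 (i + 1)
  have n6 := nbs_6 (i + 1)
  have n7 := nbs_7 (i + 1)
  have n8 := nbs_8 (i + 1)
  have n9 := nbs_9 (i + 1)
  have n10 := nbs_10 (i + 1)
  have n11 := nbs_11 (i + 1)
  have n12 := nbs_12 (i + 1)
  have n13 := nbs_13 (i + 1)
  have n14 := nbs_14 (i + 1)
  have n15 := nbs_15 (i + 1)
  have n16 := nbs_16 (i + 1)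
  have n17 := nbs_17 (i + 1)
  have n18 := nbs_18 (i + 1)
  have n19 := nbs_19 (i + 1)
  have n20 := nbs_20 (i + 1)
  have n21 : nbs (21, i + 1) = {(20, i + 1), (4, i + 2), (22, i + 2)} := nbs_21 (i + 1)
  constructor
  -- b2
  · rw [c1, c2]
    exact Nat.add_le_add_left (Finset.card_le_card (Finset.inter_subset_inter_left m12)) _
  · rw [c2, c3]
    exact Nat.add_le_add_left (Finset.card_le_card (Finset.inter_subset_inter_left m23)) _
  · have h1 : (K ∩ {z, x, y}).card ≤ (K ∩ {z}).card + 2 := by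
      have h2 : K ∩ {z, x, y} ⊆ (K ∩ {z}) ∪ {x, y} := by
        intro a ha
        simp only [Finset.mem_inter, Finset.mem_insert, Finset.mem_singleton,
          Finset.mem_union] at ha ⊢
        tauto
      exact (Finset.card_le_card h2).trans ((Finset.card_union_le _ _).trans
        (Nat.add_le_add_left Finset.card_le_two _))
    rw [c1, c2, add_assoc]
    exact Nat.add_le_add_left h1 _
  · have h1 : (K ∩ {z, x, y, w}).card ≤ (K ∩ {z, x, y}).card + 1 := by
      have h2 : K ∩ {z, x, y, w} ⊆ (K ∩ {z, x, y}) ∪ {w} := by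
        intro a ha
        simp only [Finset.mem_inter, Finset.mem_insert, Finset.mem_singleton,
          Finset.mem_union] at ha ⊢
        tauto
      exact (Finset.card_le_card h2).trans ((Finset.card_union_le _ _).trans
        (by rw [Finset.card_singleton]))
    rw [c2, c3, add_assoc]
    exact Nat.add_le_add_left h1 _
  -- capacities
  · have h1 : cnt C (3, i) ≤ 1 := numU_cap h 3 i rfl
    have h2 : cnt C (21, i) ≤ 1 := numU_cap h 21 i rfl
    omega
  · have h1 : cnt C (4, i + 2) ≤ 1 := numU_cap h 4 (i + 2) rfl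
    have h2 : cnt C (22, i + 2) ≤ 1 := numU_cap h 22 (i + 2) rfl
    omega
  · exact numU_cap h 4 (i + 1) rfl
  · exact numU_cap h 5 (i + 1) rfl
  · exact numU_cap h 6 (i + 1) rfl
  · exact numU_cap h 7 (i + 1) rfl
  · exact numU_cap h 8 (i + 1) rfl
  · exact numU_cap h 9 (i + 1) rfl
  · exact numU_cap h 10 (i + 1) rfl
  · exact numU_cap h 11 (i + 1) rfl
  · exact numU_cap h 12 (i + 1) rfl
  · exact numU_cap h 13 (i + 1) rfl
  · exact numU_cap h 14 (i + 1) rfl
  · exact numU_cap h 15 (i + 1) rfl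
  · exact numU_cap h 16 (i + 1) rfl
  · exact numU_cap h 17 (i + 1) rfl
  · exact numU_cap h 18 (i + 1) rfl
  · exact numU_cap h 19 (i + 1) rfl
  · exact numU_cap h 20 (i + 1) rfl
  · exact numU_cap h 21 (i + 1) rfl
  -- degrees
  · exact d1 _ _ _ n4 (by decide) (numU_sum3 _ (by decide))
  · exact d1 _ _ _ n5 (by decide) (numU_sum2 _ (by decide))
  · exact d1 _ _ _ n6 (by decide) (numU_sum2 _ (by decide))
  · exact d2 _ _ _ n7 (by decide) (by decide) (numU_sum4 _ (by decide) (by decide))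
  · exact d2 _ _ _ n8 (by decide) (by decide) (numU_sum4 _ (by decide) (by decide))
  · exact d2 _ _ _ n9 (by decide) (by decide) (numU_sum3 _ (by decide))
  · exact d2 _ _ _ n10 (by decide) (by decide) (numU_sum2 _ (by decide))
  · exact d2 _ _ _ n11 (by decide) (by decide) (numU_sum2 _ (by decide))
  · exact d2 _ _ _ n12 (by decide) (by decide) (numU_sum3 _ (by decide))
  · exact d3 _ _ _ n13 (by decide) (by decide) (numU_sum4 _ (by decide) (by decide))
  · exact d3 _ _ _ n14 (by decide) (by decide) (numU_sum4 _ (by decide) (by decide))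
  · exact d3 _ _ _ n15 (by decide) (by decide) (numU_sum3 _ (by decide))
  · exact d3 _ _ _ n16 (by decide) (by decide) (numU_sum2 _ (by decide))
  · exact d3 _ _ _ n17 (by decide) (by decide) (numU_sum2 _ (by decide))
  · exact d3 _ _ _ n18 (by decide) (by decide) (numU_sum3 _ (by decide))
  · exact d1 _ _ _ n19 (by decide) (numU_sum2 _ (by decide))
  · exact d1 _ _ _ n20 (by decide) (numU_sum2 _ (by decide))
  · exact d1 _ _ _ n21 (by decide) (numU_sum3 _ (by decide))
  -- neighbouring bags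
  · have h1 : cnt C (4, i + 1) + cnt C (3, i) ≤ b0 :=
      numU_q2 h c1 (s1 (by decide)) s0 (by rw [n4]; simp)
    have h2 : cnt C (4, i + 1) + cnt C (21, i) ≤ b0 :=
      numU_q2 h c1 (s1 (by decide)) (s1 (by decide)) (by rw [n4]; simp)
    omega
  · exact numU_q2 h c1 (s1 (by decide)) (s1 (by decide)) (by rw [n4]; simp)
  · exact numU_q2 h c1 (s1 (by decide)) (s1 (by decide)) (by rw [n5]; simp)
  · exact numU_q2 h c2 (s12 (by decide)) (s2 (by decide) (by decide)) (by rw [n6]; simp)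
  · exact numU_q3 h c2 (s2 (by decide) (by decide)) (s2 (by decide) (by decide))
      (s2 (by decide) (by decide)) (by rw [n7]; simp) (by rw [n7]; simp) (by rw [n8]; simp)
  · exact numU_q3 h c2 (s2 (by decide) (by decide)) (s2 (by decide) (by decide))
      (s2 (by decide) (by decide)) (by rw [n7]; simp) (by rw [n7]; simp) (by rw [n8]; simp)
  · exact numU_q2 h c2 (s2 (by decide) (by decide)) (s2 (by decide) (by decide))
      (by rw [n9]; simp)
  · exact numU_q2 h c2 (s2 (by decide) (by decide)) (s2 (by decide) (by decide))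
      (by rw [n10]; simp)
  · exact numU_q2 h c2 (s2 (by decide) (by decide)) (s2 (by decide) (by decide))
      (by rw [n11]; simp)
  · exact numU_q2 h c3 (s23 (by decide) (by decide)) (s3 (by decide) (by decide))
      (by rw [n8]; simp)
  · exact numU_q3 h c3 (s3 (by decide) (by decide)) (s3 (by decide) (by decide))
      (s3 (by decide) (by decide)) (by rw [n13]; simp) (by rw [n13]; simp) (by rw [n14]; simp)
  · exact numU_q3 h c3 (s3 (by decide) (by decide)) (s3 (by decide) (by decide))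
      (s3 (by decide) (by decide)) (by rw [n13]; simp) (by rw [n13]; simp) (by rw [n14]; simp)
  · exact numU_q2 h c3 (s3 (by decide) (by decide)) (s3 (by decide) (by decide))
      (by rw [n15]; simp)
  · exact numU_q2 h c3 (s3 (by decide) (by decide)) (s3 (by decide) (by decide))
      (by rw [n16]; simp)
  · exact numU_q2 h c3 (s3 (by decide) (by decide)) (s3 (by decide) (by decide))
      (by rw [n17]; simp)
  · exact numU_q2 h c3 (s3 (by decide) (by decide)) (s13 (by decide)) (by rw [n14]; simp)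
  · exact numU_q2 h c1 (s1 (by decide)) (s1 (by decide)) (by rw [n19]; simp)
  · exact numU_q2 h c1 (s1 (by decide)) (s1 (by decide)) (by rw [n20]; simp)
  · have h1 : cnt C (21, i + 1) + cnt C (4, i + 2) ≤ b0 :=
      numU_q2 h c1 (s1 (by decide)) (s1 (by decide)) (by rw [n21]; simp)
    have h2 : cnt C (21, i + 1) + cnt C (22, i + 2) ≤ b0 :=
      numU_q2 h c1 (s1 (by decide)) (s1 (by decide)) (by rw [n21]; simp)
    omega
  -- the blocks
  · exact numU_s h c2 (s2 (by decide) (by decide)) (s2 (by decide) (by decide))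
      (s2 (by decide) (by decide)) (s2 (by decide) (by decide)) (s2 (by decide) (by decide))
      (s2 (by decide) (by decide)) (by rw [n7]; simp) (by rw [n7]; simp) (by rw [n8]; simp)
      (by rw [n9]; simp) (by rw [n10]; simp) (by rw [n11]; simp) (by rw [n7]; simp)
      (by rw [n8]; simp)
  · exact numU_s h c3 (s3 (by decide) (by decide)) (s3 (by decide) (by decide))
      (s3 (by decide) (by decide)) (s3 (by decide) (by decide)) (s3 (by decide) (by decide))
      (s3 (by decide) (by decide)) (by rw [n13]; simp) (by rw [n13]; simp) (by rw [n14]; simp)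
      (by rw [n15]; simp) (by rw [n16]; simp) (by rw [n17]; simp) (by rw [n13]; simp)
      (by rw [n14]; simp)

end Pool.Agent.H79.BP
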