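import Pool.Agent.H79.BP.NumDefs

/-!
# One unit, and the chain, when there are at least two colours
-/

namespace Pool.Agent.H79.BP

/-- The unit `i + 1` is present. -/
structure Full (t : ℕ × ℕ → ℕ) (i b a2 a3 : ℕ) : Prop where
  l : 1 ≤ t (3, i) + t (21, i)
  r : 1 ≤ t (4, i + 2) + t (22, i + 2)
  f4 : t (4, i + 1) = 1
  f5 : 1 ≤ t (5, i + 1)
  f6 : t (6, i + 1) = 1
  f7 : t (7, i + 1) = 1
  f8 : t (8, i + 1) = 1
  f13 : t (13, i + 1) = 1
  f14 : t (14, i + 1) = 1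
  f19 : t (19, i + 1) = 1
  f20 : 1 ≤ t (20, i + 1)
  f21 : t (21, i + 1) = 1
  a2 : a2 = 2 ∨ a2 = 4 ∨ a2 = 5
  a3 : a3 = 2 ∨ a3 = 4 ∨ a3 = 5
  two5 : b = 2 → t (5, i + 1) = 1
  two20 : b = 2 → t (20, i + 1) = 1

/-- JOB BP-UNIT (1). If there are at least two colours and a bag of the unit is present, then the
unit is present.

Proof. Write `t_p` for `t (p, i + 1)`, `l = t (3, i) + t (21, i)`, `r = t (4, i + 2) + t (22, i + 2)`.
Apply the lemma `block` to `c = t_7`, `c' = t_8`, `l = t_6`, `r = t_13`, pendant `t_9, t_10, t_11, t_12`,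
`a = a2`, and to `c = t_13`, `c' = t_14`, `l = t_8`, `r = t_19`, pendant `t_15, …, t_18`, `a = a3`.
As `a2, a3 ≥ 2`, each block is off (all its bags are empty) or on (`c = c' = l = r = 1` and
`a ∈ {2, 4, 5}`). If the first is on then `t_13 = 1`, so the second is on; if the second is on then
`t_8 = 1`, so the first is on. If `t_6 ≥ 1`, then `b + 1 ≤ t_6 + t_5 + t_7` and `t_5 + t_6 ≤ b`, so `t_7 ≥ 1`;
if `t_5 ≥ 1`, then `b + 1 ≤ t_5 + t_4 + t_6`, `t_4 + t_5 ≤ b`, so `t_6 ≥ 1`; if `t_4 ≥ 1`, then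
`b + 1 ≤ t_4 + t_5 + l`, `l + t_4 ≤ b`, so `t_5 ≥ 1`; symmetrically for `t_19, t_20, t_21`. So both blocks
are on. Hence `t_6 = 1 = t_7`, and `b + 1 ≤ t_6 + t_5 + t_7` gives `t_5 ≥ b - 1 ≥ 1`, then
`b + 1 ≤ t_5 + t_4 + t_6`, `t_5 + t_6 ≤ b` give `t_4 ≥ 1`, then `b + 1 ≤ t_4 + t_5 + l`, `t_4 + t_5 ≤ b` give
`l ≥ 1`; symmetrically on the right. If `b = 2`, then `t_4 + t_5 ≤ 2` gives `t_5 = 1`. -/
theorem unit_high {t : ℕ × ℕ → ℕ} {i b a2 a3 : ℕ} (h : UF t i b a2 a3) (hb : 2 ≤ b)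
    (hp : ∃ p, 4 ≤ p ∧ p < 22 ∧ 1 ≤ t (p, i + 1)) : Full t i b a2 a3 := by
  obtain ⟨b2, b3, b4, b5, kl, kr, k4, k5, k6, k7, k8, k9, k10, k11, k12, k13, k14, k15, k16, k17,
    k18, k19, k20, k21, d4, d5, d6, d7, d8, d9, d10, d11, d12, d13, d14, d15, d16, d17, d18, d19,
    d20, d21, q1, q2, q3, q4, q5, q6, q7, q8, q9, q10, q11, q12, q13, q14, q15, q16, q17, q18,
    q19, s2, s3⟩ := h
  have B1 := block (a := a2) (l := t (6, i + 1)) (c := t (7, i + 1)) (c' := t (8, i + 1))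
    (r := t (13, i + 1)) (p1 := t (9, i + 1)) (p2 := t (10, i + 1)) (p3 := t (11, i + 1))
    (p4 := t (12, i + 1)) k7 k8 k9 k10 k11 k6 k13 (fun h => by have := d7 h; omega)
    (fun h => by have := d8 h; omega) (fun h => by have := d9 h; omega)
    (fun h => by have := d10 h; omega) (fun h => by have := d11 h; omega)
    (fun h => by have := d12 h; omega) q5 q7 q8 q9 q6 s2
  have B2 := block (a := a3) (l := t (8, i + 1)) (c := t (13, i + 1)) (c' := t (14, i + 1))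
    (r := t (19, i + 1)) (p1 := t (15, i + 1)) (p2 := t (16, i + 1)) (p3 := t (17, i + 1))
    (p4 := t (18, i + 1)) k13 k14 k15 k16 k17 k8 k19 (fun h => by have := d13 h; omega)
    (fun h => by have := d14 h; omega) (fun h => by have := d15 h; omega)
    (fun h => by have := d16 h; omega) (fun h => by have := d17 h; omega)
    (fun h => by have := d18 h; omega) q11 q13 q14 q15 q12 s3
  clear d7 d8 d9 d10 d11 d12 d13 d14 d15 d16 d17 d18 q5 q6 q7 q8 q9 q11 q12 q13 q14 q15 s2 s3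
    k10 k11 k12 k16 k17 k18 k9 k15
  -- each block is off or on
  have C1 : (t (7, i + 1) = 0 ∧ t (8, i + 1) = 0 ∧ t (9, i + 1) = 0 ∧ t (10, i + 1) = 0 ∧
      t (11, i + 1) = 0 ∧ t (12, i + 1) = 0) ∨ (t (7, i + 1) = 1 ∧ t (8, i + 1) = 1 ∧
      t (6, i + 1) = 1 ∧ t (13, i + 1) = 1 ∧ (a2 = 2 ∨ a2 = 4 ∨ a2 = 5)) := by omega
  have C2 : (t (13, i + 1) = 0 ∧ t (14, i + 1) = 0 ∧ t (15, i + 1) = 0 ∧ t (16, i + 1) = 0 ∧
      t (17, i + 1) = 0 ∧ t (18, i + 1) = 0) ∨ (t (13, i + 1) = 1 ∧ t (14, i + 1) = 1 ∧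
      t (8, i + 1) = 1 ∧ t (19, i + 1) = 1 ∧ (a3 = 2 ∨ a3 = 4 ∨ a3 = 5)) := by omega
  clear B1 B2
  have e6 : 1 ≤ t (6, i + 1) → 1 ≤ t (7, i + 1) := fun h => by have := d6 h; omega
  have e5 : 1 ≤ t (5, i + 1) → 1 ≤ t (6, i + 1) := fun h => by have := d5 h; omega
  have e4 : 1 ≤ t (4, i + 1) → 1 ≤ t (5, i + 1) := fun h => by have := d4 h; omega
  have e19 : 1 ≤ t (19, i + 1) → 1 ≤ t (14, i + 1) := fun h => by have := d19 h; omega
  have e20 : 1 ≤ t (20, i + 1) → 1 ≤ t (19, i + 1) := fun h => by have := d20 h; omega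
  have e21 : 1 ≤ t (21, i + 1) → 1 ≤ t (20, i + 1) := fun h => by have := d21 h; omega
  have on : t (7, i + 1) = 1 ∧ t (8, i + 1) = 1 ∧ t (6, i + 1) = 1 ∧ t (13, i + 1) = 1 ∧
      (a2 = 2 ∨ a2 = 4 ∨ a2 = 5) ∧ t (14, i + 1) = 1 ∧ t (19, i + 1) = 1 ∧
      (a3 = 2 ∨ a3 = 4 ∨ a3 = 5) := by
    obtain ⟨p, hp1, hp2, hp3⟩ := hp
    rcases C1 with C1 | C1
    · rcases C2 with C2 | C2
      · exfalso
        interval_cases p <;> omega
      · omega
    · omega
  obtain ⟨o7, o8, o6, o13, oa2, o14, o19, oa3⟩ := on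
  have f6 := d6 (by omega)
  have f5 := d5 (by omega)
  have f4 := d4 (by omega)
  have f19 := d19 (by omega)
  have f20 := d20 (by omega)
  have f21 := d21 (by omega)
  exact ⟨by omega, by omega, by omega, by omega, o6, o7, o8, o13, o14, o19, by omega, by omega,
    oa2, oa3, fun _ => by omega, fun _ => by omega⟩

/-- JOB BP-UNIT (2). If there are at least two colours and a bag with positive index is present,
then the whole chain from `(3, 0)` on is present.

Proof. By `hc.out` and `mem_chJ` the bag `(p, j)` belongs to a unit (`1 ≤ j ≤ M`, `4 ≤ p < 22`) or to the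
right cap (`j = M + 1`, `p ∈ {22, 23, 24}`). Right cap: if `t (24, M+1) ≥ 1`, then
`e + 1 ≤ t (24, M+1) + t (23, M+1)`, so `t (23, M+1) ≥ e ≥ 1`; if `t (23, M+1) ≥ 1`, then
`t (22, M+1) ≥ 1` and `t (24, M+1) ≥ 1` (`d23`, `q23`, `q24`); if `t (22, M+1) ≥ 1`, then
`t (3, M) + t (21, M) ≥ 1` and `t (23, M+1) ≥ 1` (`d22`, `q22`, `q23`). So if a bag of the right cap is
present, then all three are, and `t (3, M) + t (21, M) ≥ 1`. By `unit_high` the same holds for the units.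
Going down: if `t (3, j) + t (21, j) ≥ 1` and `j ≥ 1`, then `t (3, j) = 0` (`hc.out`), so
`t (21, j) ≥ 1`, the unit `j` is present, and `t (3, j-1) + t (21, j-1) ≥ 1`. By induction all the units below
are present and `t (3, 0) + t (21, 0) ≥ 1`, where `t (21, 0) = 0`. Going up: if
`t (4, j+1) + t (22, j+1) ≥ 1` for `1 ≤ j + 1 ≤ M`, then `t (22, j+1) = 0`, so `t (4, j+1) ≥ 1`, the unit
`j + 1` is present and `t (4, j+2) + t (22, j+2) ≥ 1`; finally `t (4, M+1) + t (22, M+1) ≥ 1`, where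
`t (4, M+1) = 0`. (Suggestion: first prove that some `j ≤ M` has `t (3, j) + t (21, j) ≥ 1`; deduce
`t (3, 0) ≥ 1`; but `t (4, 1) + t (22, 1) ≥ 1` does not follow from `t (3, 0) ≥ 1`, so keep the
statement `unit 1 is present` (or, if `M = 0`, the right cap is present) in the downward induction.) -/
theorem main_part {t : ℕ × ℕ → ℕ} {M e b : ℕ} {a2 a3 : ℕ → ℕ} (hc : CF t M e b)
    (hu : ∀ i < M, UF t i b (a2 i) (a3 i)) (he : 1 ≤ e) (hb : 2 ≤ b)
    (hp : ∃ p j, 1 ≤ j ∧ 1 ≤ t (p, j)) :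
    t (3, 0) = 1 ∧ (∀ i < M, Full t i b (a2 i) (a3 i)) ∧ t (22, M + 1) = 1 ∧
      1 ≤ t (23, M + 1) ∧ t (24, M + 1) = 1 := by
  have hout := hc.out
  -- the right cap
  have rc : (1 ≤ t (22, M + 1) ∨ 1 ≤ t (23, M + 1) ∨ 1 ≤ t (24, M + 1)) →
      1 ≤ t (22, M + 1) ∧ 1 ≤ t (23, M + 1) ∧ 1 ≤ t (24, M + 1) ∧ 1 ≤ t (3, M) + t (21, M) := by
    intro h
    have k24 := hc.k24
    have q22 := hc.q22
    have q23 := hc.q23
    have q24 := hc.q24
    have f24 : 1 ≤ t (24, M + 1) → 1 ≤ t (23, M + 1) := fun h => by have := hc.d24 h; omega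
    have f23 : 1 ≤ t (23, M + 1) → 1 ≤ t (22, M + 1) ∧ 1 ≤ t (24, M + 1) := fun h => by
      have := hc.d23 h; omega
    have f22 : 1 ≤ t (22, M + 1) → 1 ≤ t (23, M + 1) ∧ 1 ≤ t (3, M) + t (21, M) := fun h => by
      have := hc.d22 h; omega
    have h23 : 1 ≤ t (23, M + 1) := by
      rcases h with h | h | h
      · exact (f22 h).1
      · exact h
      · exact f24 h
    exact ⟨(f23 h23).1, h23, (f23 h23).2, (f22 (f23 h23).1).2⟩
  -- the neighbour to the right of the position `j` is present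
  let S : ℕ → Prop := fun j => (j < M → Full t j b (a2 j) (a3 j)) ∧ (j = M →
    1 ≤ t (22, M + 1) ∧ 1 ≤ t (23, M + 1) ∧ 1 ≤ t (24, M + 1) ∧ 1 ≤ t (3, M) + t (21, M))
  have hS : ∀ j ≤ M, S j → 1 ≤ t (3, j) + t (21, j) := by
    intro j hj h
    rcases hj.lt_or_eq with h1 | h1
    · exact (h.1 h1).l
    · subst h1
      exact (h.2 rfl).2.2.2
  have down : ∀ j < M, S (j + 1) → S j := by
    intro j hj h
    have h1 := hS (j + 1) hj h
    have h2 : t (3, j + 1) = 0 := hout _ fun hm => by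
      rw [mem_chJ] at hm
      omega
    exact ⟨fun _ => unit_high (hu j hj) hb ⟨21, by omega, by omega, by omega⟩,
      fun h3 => absurd h3 (by omega)⟩
  have up : ∀ j < M, S j → S (j + 1) := by
    intro j hj h
    have h1 := (h.1 hj).r
    refine ⟨fun h2 => ?_, fun h2 => ?_⟩
    · have h3 : t (22, j + 2) = 0 := hout _ fun hm => by
        rw [mem_chJ] at hm
        omega
      exact unit_high (hu (j + 1) h2) hb ⟨4, by omega, by omega, by
        have : t (4, j + 1 + 1) = t (4, j + 2) := rfl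
        omega⟩
    · subst h2
      have h3 : t (4, j + 2) = 0 := hout _ fun hm => by
        rw [mem_chJ] at hm
        omega
      refine rc (Or.inl ?_)
      have : t (22, j + 1 + 1) = t (22, j + 2) := rfl
      omega
  have hex : ∃ j ≤ M, S j := by
    obtain ⟨p, j, hj, hp⟩ := hp
    have hm : (p, j) ∈ chJ M := by
      by_contra hm
      have := hout _ hm
      omega
    rw [mem_chJ] at hm
    rcases hm with hm | hm | hm
    · omega
    · obtain ⟨j, rfl⟩ : ∃ k, j = k + 1 := ⟨j - 1, by omega⟩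
      refine ⟨j, by omega, fun h => unit_high (hu j h) hb ⟨p, hm.1, hm.2.1, hp⟩, fun h => ?_⟩
      omega
    · obtain ⟨h1, h2, rfl⟩ := hm
      refine ⟨M, le_rfl, fun h => absurd h (by omega), fun _ => rc ?_⟩
      have h3 : p = 22 ∨ p = 23 ∨ p = 24 := by omega
      rcases h3 with rfl | rfl | rfl
      · exact Or.inl hp
      · exact Or.inr (Or.inl hp)
      · exact Or.inr (Or.inr hp)
  obtain ⟨j₀, hj₀, hS₀⟩ := hex
  have hdown : ∀ k ≤ j₀, S (j₀ - k) := by
    intro k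
    induction k with
    | zero => exact fun _ => hS₀
    | succ k ih =>
      intro hk
      have h1 := ih (by omega)
      have h2 : j₀ - k = (j₀ - (k + 1)) + 1 := by omega
      rw [h2] at h1
      exact down _ (by omega) h1
  have hup : ∀ k, j₀ + k ≤ M → S (j₀ + k) := by
    intro k
    induction k with
    | zero => exact fun _ => hS₀
    | succ k ih =>
      intro hk
      exact up (j₀ + k) (by omega) (ih (by omega))
  have hall : ∀ j ≤ M, S j := by
    intro j hj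
    rcases le_total j j₀ with h | h
    · have := hdown (j₀ - j) (by omega)
      rwa [Nat.sub_sub_self h] at this
    · have := hup (j - j₀) (by omega)
      rwa [Nat.add_sub_cancel' h] at this
  have h0 := hS 0 (Nat.zero_le _) (hall 0 (Nat.zero_le _))
  have h21 : t (21, 0) = 0 := hout _ fun hm => by
    rw [mem_chJ] at hm
    omega
  have hr := (hall M le_rfl).2 rfl
  have k3 := hc.k3
  have k22 := hc.k22
  have k24 := hc.k24
  exact ⟨by omega, fun i hi => (hall i hi.le).1 hi, by omega, by omega, by omega⟩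

/-- JOB BP-UNIT (3). The case of at least two additional colours.

Proof. If a bag with index `0` is present, then by `out` its tag is `0, 1, 2, 3`, and
`t (0,0) ≥ 1 → t (1,0) ≥ 1` (`d0`, `e ≥ 2`), `t (1,0) ≥ 1 → t (2,0) ≥ 1` (`d1`, `q0`),
`t (2,0) ≥ 1 → t (3,0) ≥ 1` (`d2`, `q1`), and `t (3,0) ≥ 1 → t (4,1) + t (22,1) ≥ 1` (`d3`, since
`t (3,0), t (2,0) ≤ 1`). So a bag with positive index is present and `main_part` applies. Then
`t (3,0) = 1`, so `t (2,0) ≥ 1` (`d3`, `kr`, `e ≥ 2`), `t (1,0) ≥ 1` (`d2`, `q2`), `t (0,0) ≥ 1` (`d1`, `q1`), and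
`e + 1 ≤ t (0,0) + t (1,0) ≤ 3` gives `e = 2` and `t (0,0) + t (1,0) = 3 ≤ b ≤ e + 1 = 3`. -/
theorem e_high {t : ℕ × ℕ → ℕ} {M e b : ℕ} {a2 a3 : ℕ → ℕ} (hc : CF t M e b)
    (hu : ∀ i < M, UF t i b (a2 i) (a3 i)) (he : 2 ≤ e) (hp : ∃ p, 1 ≤ t p) :
    e = 2 ∧ b = 3 ∧ ∀ i < M, Full t i b (a2 i) (a3 i) := by
  have eb := hc.eb
  have be := hc.be
  have k0 := hc.k0
  have k1 := hc.k1
  have k2 := hc.k2
  have k3 := hc.k3
  have kr := hc.kr
  have q0 := hc.q0
  have q1 := hc.q1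
  have q2 := hc.q2
  have hpos : ∃ p j, 1 ≤ j ∧ 1 ≤ t (p, j) := by
    obtain ⟨⟨p, j⟩, hp⟩ := hp
    rcases Nat.eq_zero_or_pos j with hj | hj
    · subst hj
      have hm : (p, 0) ∈ chJ M := by
        by_contra hm
        have := hc.out _ hm
        omega
      rw [mem_chJ] at hm
      have f0 : 1 ≤ t (0, 0) → 1 ≤ t (1, 0) := fun h => by have := hc.d0 h; omega
      have f1 : 1 ≤ t (1, 0) → 1 ≤ t (2, 0) := fun h => by have := hc.d1 h; omega
      have f2 : 1 ≤ t (2, 0) → 1 ≤ t (3, 0) := fun h => by have := hc.d2 h; omega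
      have f3 : 1 ≤ t (3, 0) → 1 ≤ t (4, 1) + t (22, 1) := fun h => by have := hc.d3 h; omega
      have hp4 : p < 4 := by omega
      have h3 : 1 ≤ t (3, 0) := by
        interval_cases p
        · exact f2 (f1 (f0 hp))
        · exact f2 (f1 hp)
        · exact f2 hp
        · exact hp
      have h4 := f3 h3
      by_cases h5 : 1 ≤ t (4, 1)
      · exact ⟨4, 1, le_rfl, h5⟩
      · exact ⟨22, 1, le_rfl, by omega⟩
    · exact ⟨p, j, hj, hp⟩
  obtain ⟨h3, hF, -, -, -⟩ := main_part hc hu (by omega) (by omega) hpos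
  have g3 := hc.d3 (by omega)
  have g2 := hc.d2 (by omega)
  have g1 := hc.d1 (by omega)
  have g0 := hc.d0 (by omega)
  exact ⟨by omega, by omega, hF⟩

end Pool.Agent.H79.BP
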