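import Pool.Agent.H79.BP.NumU
import Pool.Agent.H79.BP.NumC
import Pool.Agent.H79.BP.Unit

/-!
# One additional colour and the colour `z`
-/

namespace Pool.Agent.H79.BP

variable {N : Type} [DecidableEq N] [Inhabited N]

/-- JOB BP-ONE. There are no feasible data with `e = 1`, `z ∈ K`.

Proof. Here `bb e K z = 2`. Let `t = cnt C`, `E0 = (∅ : Finset N).disjSum univ` (one element),
`B = (K ∩ {z}).disjSum univ` (two elements), `E0 ⊆ B`, `Z = B \ E0` (one element). Note: a non-empty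
subset of `B` that is disjoint from `E0` is `Z`, and one that is disjoint from `Z` is `E0`.

(1) The bags `(0,0), (1,0), (2,0)` are empty. If `t (0,0) ≥ 1` then `t (1,0) ≥ 1` (`d0`). If
`t (1,0) ≥ 1` then `t (2,0) ≥ 1` (`d1`, `q0`). If `t (2,0) ≥ 1`, then `t (1,0) ≥ 1` and `t (3,0) ≥ 1` (`d2`, `q2`,
`q1`), `t (0,0) ≥ 1` (`d1`, `q1`). So all four are non-empty. `C (0,0), C (3,0) ⊆ E0` (the lists are
empty), so both are equal to `E0`; `C (1,0) ⊆ B` is disjoint from `C (0,0)`, so it is `Z`, and `C (2,0) ⊆ B`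
is disjoint from `C (1,0)`, so it is `E0`, but it is disjoint from `C (3,0)`. Contradiction.

(2) A bag with positive index is present: by `h.ne` some bag is, and if it has index `0`, then by
`out` and (1) it is `(3,0)`, and `d3` gives `t (4,1) + t (22,1) ≥ 1`.

(3) By `main_part` (with `uf_of_feas`, `cf_of_feas`) every unit is full. So for every `s ∈ T`, say
`s = trip T (i + 1)` with `i < T.length` (`List.mem_iff_getElem`, `trip T (i+1) = T.getD i default`),
`aa2 e K z T i = 1 + |K ∩ {z, s.1, s.2.1}|` is `2`, `4` or `5`. For `s = (y0, (y0, y0))` this is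
`2 + [y0 ∈ K]` (`y0 ≠ z` since `z ∉ tnames T` and `y0 ∈ tnames T`), so `y0 ∉ K`. For
`s = (y0, (x, x))` this is `2 + [x ∈ K]`, so `x ∉ K` for every `x ∈ tnames T`. Hence for every `i < M`
`K ∩ {z, x, y} = K ∩ {z, x, y, w} = {z}` and all the bags `(p, i + 1)` with
`p ∈ {4, 5, 6, 7, 8, 13, 14, 19, 20, 21}` satisfy `C (p, i + 1) ⊆ B` (`h.sub`), and they are non-empty
(`Full`).

(4) `C (3,0) = E0` (non-empty, list empty). Claim: for all `i ≤ M`, `C (21, i) = E0` if `i ≥ 1`. Induction on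
`i`: the bag before `(4, i + 1)` (it is `(3, 0)` if `i = 0` and `(21, i)` otherwise) has the set `E0`,
so `C (4,i+1) = Z`, `C (5,i+1) = E0`, `C (6,i+1) = Z`, `C (7,i+1) = E0`, `C (8,i+1) = Z`,
`C (13,i+1) = E0`, `C (14,i+1) = Z`, `C (19,i+1) = E0`, `C (20,i+1) = Z`, `C (21,i+1) = E0`.

(5) So `C (22,M+1) = Z`, `C (23,M+1) = E0` (both non-empty by `main_part`, and `⊆ B`), and
`C (24,M+1) ⊆ E0` is non-empty, so it is `E0`, but it is disjoint from `C (23,M+1)`. Contradiction. -/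
theorem no_one {z : N} {T : List (N × (N × N))} {K : Finset N} {e : ℕ}
    {C : ℕ × ℕ → Finset (N ⊕ Fin e)} (h : Feas (chain z T) K e C) (hz : z ∉ tnames T) {y0 : N}
    (hy : (y0, (y0, y0)) ∈ T) (hg : ∀ x ∈ tnames T, (y0, (x, x)) ∈ T) (he : e = 1)
    (hzK : z ∈ K) : False := by
  subst he
  have hc := cf_of_feas h
  have hKz : K ∩ {z} = {z} := by
    ext a
    simp only [Finset.mem_inter, Finset.mem_singleton]
    constructor
    · exact fun h => h.2
    · rintro rfl
      exact ⟨hzK, rfl⟩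
  have hb : bb 1 K z = 2 := by simp [bb, hKz]
  rw [hb] at hc
  have hu : ∀ i < T.length, UF (cnt C) i 2 (aa2 1 K z T i) (aa3 1 K z T i) := fun i hi => by
    have := uf_of_feas h hi
    rw [hb] at this
    exact this
  have hne : ∀ p, 1 ≤ cnt C p → (C p).Nonempty := fun p hp => Finset.card_pos.mp hp
  have hne' : ∀ p, (C p).Nonempty → 1 ≤ cnt C p := fun p hp => Finset.card_pos.mpr hp
  have hE : ∀ p : ℕ × ℕ, (p.1 = 0 ∨ p.1 = 3 ∨ p.1 = 24) → ∀ c ∈ C p, c = Sum.inr 0 := by
    intro p hp c hcp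
    have h1 := h.sub p hcp
    rw [Finset.mem_disjSum] at h1
    rcases h1 with ⟨n, hn, rfl⟩ | ⟨k, -, rfl⟩
    · exfalso
      have h2 : chL z T p = ∅ := by simp [chL, hp]
      have h3 : n ∈ chL z T p := (Finset.mem_inter.mp hn).2
      rw [h2] at h3
      simp at h3
    · rw [Subsingleton.elim k 0]
  have hB1 : ∀ p : ℕ × ℕ, K ∩ chL z T p ⊆ {z} → ∀ c ∈ C p, c = Sum.inl z ∨ c = Sum.inr 0 := by
    intro p hp c hcp
    have h1 := h.sub p hcp
    rw [Finset.mem_disjSum] at h1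
    rcases h1 with ⟨n, hn, rfl⟩ | ⟨k, -, rfl⟩
    · left
      have := hp hn
      rw [Finset.mem_singleton] at this
      rw [this]
    · right
      rw [Subsingleton.elim k 0]
  have hOZ : ∀ p q : ℕ × ℕ, q ∈ nbs p → (C q).Nonempty →
      (∀ c ∈ C q, c = Sum.inl z ∨ c = Sum.inr 0) → Sum.inr 0 ∈ C p → Sum.inl z ∈ C q := by
    intro p q hpq hq hB hp
    obtain ⟨c, hcq⟩ := hq
    rcases hB c hcq with rfl | rfl
    · exact hcq
    · exact absurd hcq (Finset.disjoint_left.mp (h.disj p q hpq) hp)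
  have hZO : ∀ p q : ℕ × ℕ, q ∈ nbs p → (C q).Nonempty →
      (∀ c ∈ C q, c = Sum.inl z ∨ c = Sum.inr 0) → Sum.inl z ∈ C p → Sum.inr 0 ∈ C q := by
    intro p q hpq hq hB hp
    obtain ⟨c, hcq⟩ := hq
    rcases hB c hcq with rfl | rfl
    · exact absurd hcq (Finset.disjoint_left.mp (h.disj p q hpq) hp)
    · exact hcq
  have hO : ∀ p : ℕ × ℕ, (p.1 = 0 ∨ p.1 = 3 ∨ p.1 = 24) → (C p).Nonempty →
      Sum.inr 0 ∈ C p := by
    intro p hp hn
    obtain ⟨c, hcp⟩ := hn
    rw [← hE p hp c hcp]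
    exact hcp
  -- (1)
  have h012 : cnt C (0, 0) = 0 ∧ cnt C (1, 0) = 0 ∧ cnt C (2, 0) = 0 := by
    by_contra hcon
    have k0 := hc.k0
    have k3 := hc.k3
    have d0 := hc.d0
    have d1 := hc.d1
    have d2 := hc.d2
    have q0 := hc.q0
    have q1 := hc.q1
    have q2 := hc.q2
    have hall : 1 ≤ cnt C (0, 0) ∧ 1 ≤ cnt C (1, 0) ∧ 1 ≤ cnt C (2, 0) ∧ 1 ≤ cnt C (3, 0) := by
      omega
    obtain ⟨a0, a1, a2, a3⟩ := hall
    have l1 : K ∩ chL z T (1, 0) ⊆ {z} := by
      have : chL z T (1, 0) = {z} := by simp [chL]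
      rw [this]
      exact Finset.inter_subset_right
    have l2 : K ∩ chL z T (2, 0) ⊆ {z} := by
      have : chL z T (2, 0) = {z} := by simp [chL]
      rw [this]
      exact Finset.inter_subset_right
    have l3 : K ∩ chL z T (3, 0) ⊆ {z} := by
      have : chL z T (3, 0) = ∅ := by simp [chL]
      rw [this]
      simp
    have m0 := hO (0, 0) (Or.inl rfl) (hne _ a0)
    have m1 := hOZ (0, 0) (1, 0) (by rw [nbs_0]; simp) (hne _ a1) (hB1 _ l1) m0
    have m2 := hZO (1, 0) (2, 0) (by rw [nbs_1]; simp) (hne _ a2) (hB1 _ l2) m1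
    have m3 := hOZ (2, 0) (3, 0) (by rw [nbs_2]; simp) (hne _ a3) (hB1 _ l3) m2
    have := hE (3, 0) (Or.inr (Or.inl rfl)) _ m3
    exact absurd this (by simp)
  -- (2)
  have hpos : ∃ p j, 1 ≤ j ∧ 1 ≤ cnt C (p, j) := by
    obtain ⟨⟨p, j⟩, hpj⟩ := h.ne
    have hpj' := hne' _ hpj
    rcases Nat.eq_zero_or_pos j with rfl | hj
    · have hmem : (p, 0) ∈ chJ T.length := by
        by_contra hcon
        have := hc.out _ hcon
        omega
      rw [mem_chJ] at hmem
      have hp4 : p < 4 := by omega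
      have hp3 : p = 3 := by
        obtain ⟨b0, b1, b2⟩ := h012
        by_contra h3
        have : p = 0 ∨ p = 1 ∨ p = 2 := by omega
        rcases this with rfl | rfl | rfl <;> omega
      subst hp3
      have d3 := hc.d3
      have k3 := hc.k3
      have hs : 1 ≤ cnt C (4, 1) ∨ 1 ≤ cnt C (22, 1) := by omega
      rcases hs with hs | hs
      · exact ⟨4, 1, le_rfl, hs⟩
      · exact ⟨22, 1, le_rfl, hs⟩
    · exact ⟨p, j, hj, hpj'⟩
  obtain ⟨m30, hfull, m22, m23, m24⟩ := main_part hc hu le_rfl le_rfl hpos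
  -- (3)
  have htrip : ∀ s ∈ T, ∃ i < T.length, trip T (i + 1) = s := by
    intro s hs
    obtain ⟨i, hi, rfl⟩ := List.mem_iff_getElem.mp hs
    refine ⟨i, hi, ?_⟩
    simp [trip, hi]
  have hmemt : ∀ s ∈ T, s.1 ∈ tnames T ∧ s.2.1 ∈ tnames T ∧ s.2.2 ∈ tnames T := by
    intro s hs
    refine ⟨?_, ?_, ?_⟩ <;>
    · simp only [tnames, List.mem_toFinset, List.mem_flatMap]
      exact ⟨s, hs, by simp⟩
  have hy0K : y0 ∉ K := by
    intro hy0
    obtain ⟨i, hi, hti⟩ := htrip _ hy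
    have hf := (hfull i hi).a2
    have hzy : z ≠ y0 := fun e => hz (e ▸ (hmemt _ hy).1)
    have : K ∩ {z, y0, y0} = {z, y0} := by
      ext a
      simp only [Finset.mem_inter, Finset.mem_insert, Finset.mem_singleton]
      constructor
      · rintro ⟨-, h1 | h1 | h1⟩
        · exact Or.inl h1
        · exact Or.inr h1
        · exact Or.inr h1
      · rintro (rfl | rfl)
        · exact ⟨hzK, Or.inl rfl⟩
        · exact ⟨hy0, Or.inr (Or.inl rfl)⟩
    simp only [aa2, hti, this, Finset.card_pair hzy] at hf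
    omega
  have hxK : ∀ x ∈ tnames T, x ∉ K := by
    intro x hx hxK
    obtain ⟨i, hi, hti⟩ := htrip _ (hg x hx)
    have hf := (hfull i hi).a2
    have hzx : z ≠ x := fun e => hz (e ▸ hx)
    have : K ∩ {z, y0, x} = {z, x} := by
      ext a
      simp only [Finset.mem_inter, Finset.mem_insert, Finset.mem_singleton]
      constructor
      · rintro ⟨h0, h1 | h1 | h1⟩
        · exact Or.inl h1
        · exact absurd (h1 ▸ h0) hy0K
        · exact Or.inr h1
      · rintro (rfl | rfl)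
        · exact ⟨hzK, Or.inl rfl⟩
        · exact ⟨hxK, Or.inr (Or.inr rfl)⟩
    simp only [aa2, hti, this, Finset.card_pair hzx] at hf
    omega
  have hB : ∀ p : ℕ × ℕ, ∀ c ∈ C p, c = Sum.inl z ∨ c = Sum.inr 0 := by
    rintro ⟨b, j⟩ c hcp
    refine hB1 (b, j) ?_ c hcp
    have hmem : (b, j) ∈ chJ T.length := by
      by_contra hcon
      have := hc.out _ hcon
      have := hne' _ ⟨c, hcp⟩
      omega
    rw [mem_chJ] at hmem
    have ht : 7 ≤ b ∧ b ≤ 18 → trip T j ∈ T := by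
      intro hb7
      have : j - 1 < T.length := by omega
      simp only [trip, List.getD_eq_getElem _ _ this]
      exact List.getElem_mem this
    intro n hn
    obtain ⟨hnK, hnL⟩ := Finset.mem_inter.mp hn
    rw [Finset.mem_singleton]
    by_contra hnz
    unfold chL at hnL
    split_ifs at hnL with c1 c2 c3
    · simp at hnL
    · simp only [Finset.mem_insert, Finset.mem_singleton] at hnL
      obtain ⟨t1, t2, t3⟩ := hmemt _ (ht (by simp only at c2; omega))
      rcases hnL with h1 | h1 | h1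
      · exact hnz h1
      · exact hxK _ t1 (h1 ▸ hnK)
      · exact hxK _ t2 (h1 ▸ hnK)
    · simp only [Finset.mem_insert, Finset.mem_singleton] at hnL
      obtain ⟨t1, t2, t3⟩ := hmemt _ (ht (by simp only at c3; omega))
      rcases hnL with h1 | h1 | h1 | h1
      · exact hnz h1
      · exact hxK _ t1 (h1 ▸ hnK)
      · exact hxK _ t2 (h1 ▸ hnK)
      · exact hxK _ t3 (h1 ▸ hnK)
    · simp only [Finset.mem_singleton] at hnL
      exact hnz hnL
  -- (4)
  have hstart : Sum.inr 0 ∈ C (3, 0) :=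
    hO (3, 0) (Or.inr (Or.inl rfl)) (hne _ (by omega))
  have hrun : ∀ i < T.length, ∀ pr : ℕ × ℕ, (4, i + 1) ∈ nbs pr → Sum.inr 0 ∈ C pr →
      Sum.inr 0 ∈ C (21, i + 1) := by
    intro i hi pr hpr h0
    have hf := hfull i hi
    have s4 := hOZ pr (4, i + 1) hpr (hne _ hf.f4.ge) (hB _) h0
    have s5 := hZO (4, i + 1) (5, i + 1) (by rw [nbs_4]; simp) (hne _ hf.f5) (hB _) s4
    have s6 := hOZ (5, i + 1) (6, i + 1) (by rw [nbs_5]; simp) (hne _ hf.f6.ge) (hB _) s5
    have s7 := hZO (6, i + 1) (7, i + 1) (by rw [nbs_6]; simp) (hne _ hf.f7.ge) (hB _) s6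
    have s8 := hOZ (7, i + 1) (8, i + 1) (by rw [nbs_7]; simp) (hne _ hf.f8.ge) (hB _) s7
    have s13 := hZO (8, i + 1) (13, i + 1) (by rw [nbs_8]; simp) (hne _ hf.f13.ge) (hB _) s8
    have s14 := hOZ (13, i + 1) (14, i + 1) (by rw [nbs_13]; simp) (hne _ hf.f14.ge) (hB _) s13
    have s19 := hZO (14, i + 1) (19, i + 1) (by rw [nbs_14]; simp) (hne _ hf.f19.ge) (hB _) s14
    have s20 := hOZ (19, i + 1) (20, i + 1) (by rw [nbs_19]; simp) (hne _ hf.f20) (hB _) s19
    exact hZO (20, i + 1) (21, i + 1) (by rw [nbs_20]; simp) (hne _ hf.f21.ge) (hB _) s20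
  have hend : ∀ i, i < T.length → Sum.inr 0 ∈ C (21, i + 1) := by
    intro i
    induction i with
    | zero => exact fun hi => hrun 0 hi (3, 0) (by rw [nbs_3]; simp) hstart
    | succ i ih =>
      exact fun hi => hrun (i + 1) hi (21, i + 1) (by rw [nbs_21]; simp) (ih (by omega))
  have hlast : ∃ pr : ℕ × ℕ, (22, T.length + 1) ∈ nbs pr ∧ Sum.inr 0 ∈ C pr := by
    rcases Nat.eq_zero_or_pos T.length with h0 | h0
    · rw [h0]
      exact ⟨(3, 0), by rw [nbs_3]; simp, hstart⟩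
    · obtain ⟨k, hk⟩ : ∃ k, T.length = k + 1 := ⟨T.length - 1, by omega⟩
      rw [hk]
      exact ⟨(21, k + 1), by rw [nbs_21]; simp, hend k (by omega)⟩
  -- (5)
  obtain ⟨pr, hpr, h0⟩ := hlast
  have s22 := hOZ pr (22, T.length + 1) hpr (hne _ m22.ge) (hB _) h0
  have s23 := hZO (22, T.length + 1) (23, T.length + 1) (by rw [nbs_22]; simp) (hne _ m23)
    (hB _) s22
  have s24 := hOZ (23, T.length + 1) (24, T.length + 1) (by rw [nbs_23]; simp) (hne _ m24.ge)
    (hB _) s23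
  have := hE (24, T.length + 1) (Or.inr (Or.inr rfl)) _ s24
  exact absurd this (by simp)

end Pool.Agent.H79.BP
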