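import Pool.Agent.H79.BP.Low
import Pool.Agent.H79.BP.One
import Pool.Agent.H79.BP.Complete

/-!
# Soundness
-/

namespace Pool.Agent.H79.BP

variable {N : Type} [DecidableEq N] [Inhabited N]

omit [Inhabited N] in
theorem card_inter_single {K : Finset N} {z : N} : (K ∩ {z}).card = if z ∈ K then 1 else 0 := by
  split_ifs with h
  · rw [Finset.inter_singleton_of_mem h]; rfl
  · rw [Finset.inter_singleton_of_notMem h]; rfl

/-- Feasible data come from a satisfying set. -/
theorem sound {z : N} {T : List (N × (N × N))} {K : Finset N} {e : ℕ}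
    {C : ℕ × ℕ → Finset (N ⊕ Fin e)} (h : Feas (chain z T) K e C) (hz : z ∉ tnames T) {y0 : N}
    (hy : (y0, (y0, y0)) ∈ T) (hg : ∀ x ∈ tnames T, (y0, (x, x)) ∈ T) :
    e = 2 ∧ z ∈ K ∧ ∀ s ∈ T, Good K s := by
  have hlow := no_low h
  have hc := cf_of_feas h
  have hbe := hc.be
  have hzc := card_inter_single (K := K) (z := z)
  have hb : bb e K z = e + (K ∩ {z}).card := rfl
  by_cases he : e = 1
  · exfalso
    refine no_one h hz hy hg he ?_
    by_contra hzK
    rw [if_neg hzK] at hzc
    omega
  · obtain ⟨p, hp⟩ := h.ne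
    have hp' : 1 ≤ cnt C p := Finset.card_pos.2 hp
    obtain ⟨he2, hb3, hF⟩ := e_high hc (fun i hi => uf_of_feas h hi) (by omega) ⟨p, hp'⟩
    have hzK : z ∈ K := by
      by_contra hzK
      rw [if_neg hzK] at hzc
      omega
    refine ⟨he2, hzK, ?_⟩
    intro s hs
    obtain ⟨i, hi, his⟩ := List.mem_iff_getElem.1 hs
    have htr : trip T (i + 1) = s := by
      unfold trip
      rw [Nat.add_sub_cancel, List.getD_eq_getElem _ _ hi, his]
    have hf := hF i hi
    have h2 := hf.a2
    have h3 := hf.a3
    unfold aa2 at h2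
    unfold aa3 at h3
    rw [htr] at h2 h3
    have hn : ∀ x, (x = s.1 ∨ x = s.2.1 ∨ x = s.2.2) → x ≠ z := by
      intro x hx hxz
      apply hz
      rw [← hxz]
      unfold tnames
      rw [List.mem_toFinset, List.mem_flatMap]
      refine ⟨s, hs, ?_⟩
      simp only [List.mem_cons, List.not_mem_nil, or_false]
      exact hx
    constructor
    · by_contra hno
      push Not at hno
      have h4 : K ∩ {z, s.1, s.2.1} ⊆ {z} := by
        intro x hx
        simp only [Finset.mem_inter, Finset.mem_insert, Finset.mem_singleton] at hx ⊢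
        rcases hx with ⟨hx1, hx2 | hx2 | hx2⟩
        · exact hx2
        · exact absurd (hx2 ▸ hx1) hno.1
        · exact absurd (hx2 ▸ hx1) hno.2
      have h5 := Finset.card_le_card h4
      have h6 : 1 ≤ (K ∩ {z, s.1, s.2.1}).card := by
        apply Finset.card_pos.2
        exact ⟨z, by simp [hzK]⟩
      rw [Finset.card_singleton] at h5
      omega
    · rintro ⟨n1, n2, n3, k1, k2, k3⟩
      have h4 : K ∩ {z, s.1, s.2.1, s.2.2} = {z, s.1, s.2.1, s.2.2} := by
        rw [Finset.inter_eq_right]
        intro x hx
        simp only [Finset.mem_insert, Finset.mem_singleton] at hx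
        rcases hx with rfl | rfl | rfl | rfl
        · exact hzK
        · exact k1
        · exact k2
        · exact k3
      rw [h4] at h3
      have h5 : ({z, s.1, s.2.1, s.2.2} : Finset N).card = 4 := by
        rw [Finset.card_insert_of_notMem, Finset.card_insert_of_notMem,
          Finset.card_insert_of_notMem, Finset.card_singleton]
        · simpa using n3
        · simp only [Finset.mem_insert, Finset.mem_singleton, not_or]
          exact ⟨n1, n2⟩
        · simp only [Finset.mem_insert, Finset.mem_singleton, not_or]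
          exact ⟨fun h => hn _ (Or.inl rfl) h.symm, fun h => hn _ (Or.inr (Or.inl rfl)) h.symm,
            fun h => hn _ (Or.inr (Or.inr rfl)) h.symm⟩
      omega

end Pool.Agent.H79.BP
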