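import Pool.Agent.H79.BP.Defs

/-!
# Violations

`Viol G S k`: the subgraph of `G` induced on the non-empty finite set `S` of vertices has a proper
colouring with `k` colours and minimum degree at least `k`.
-/

namespace Pool.Agent.H79.BP

variable {V : Type}

/-- The subgraph induced on `S` is `k`-colourable and has minimum degree at least `k`. -/
structure Viol (G : SimpleGraph V) (S : Set V) (k : ℕ) : Prop where
  fin : S.Finite
  ne : S.Nonempty
  deg : ∀ v ∈ S, k ≤ {u | u ∈ S ∧ G.Adj v u}.ncard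
  col : ∃ c : V → ℕ, (∀ v ∈ S, c v < k) ∧ ∀ u ∈ S, ∀ v ∈ S, G.Adj u v → c u ≠ c v

/-! ### Minimum degree and `β` -/

lemma viol_nbr {W : Type} (H : SimpleGraph W) (T : Set W) (x : T) :
    ((H.induce T).neighborSet x).ncard = {u | u ∈ T ∧ H.Adj x.1 u}.ncard := by
  rw [← Set.ncard_image_of_injective _ Subtype.val_injective]
  congr 1
  ext u
  simp only [Set.mem_image, SimpleGraph.mem_neighborSet, SimpleGraph.comap_adj,
    Function.Embedding.subtype_apply, Subtype.exists, exists_and_right, exists_eq_right,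
    Set.mem_setOf_eq]
  constructor
  · rintro ⟨hu, h⟩; exact ⟨hu, h⟩
  · rintro ⟨hu, h⟩; exact ⟨hu, h⟩

lemma viol_minDeg_le {W : Type} (H : SimpleGraph W) (v : W) :
    minDeg H ≤ (H.neighborSet v).ncard :=
  ciInf_le (OrderBot.bddBelow _) v

lemma viol_minDeg_mem {W : Type} [Nonempty W] (H : SimpleGraph W) :
    ∃ v, (H.neighborSet v).ncard = minDeg H :=
  ciInf_mem (fun v => (H.neighborSet v).ncard)

lemma viol_le_minDeg {W : Type} [Nonempty W] (H : SimpleGraph W) {k : ℕ}
    (h : ∀ v, k ≤ (H.neighborSet v).ncard) : k ≤ minDeg H := le_ciInf h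

lemma viol_le_beta {W : Type} [Finite W] (H : SimpleGraph W) (T : Set W) (hT : T.Nonempty) :
    minDeg (H.induce T) + 1 ≤ beta H := by
  have hb : BddAbove (Set.range fun S : {S : Set W // S.Nonempty} =>
      minDeg (H.induce S.1) + 1) := (Set.finite_range _).bddAbove
  exact le_ciSup hb ⟨T, hT⟩

lemma viol_beta_mem {W : Type} [Finite W] (H : SimpleGraph W) (h : 0 < beta H) :
    ∃ T : Set W, T.Nonempty ∧ minDeg (H.induce T) + 1 = beta H := by
  rcases isEmpty_or_nonempty {S : Set W // S.Nonempty} with he | hne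
  · exfalso
    have h0 : beta H = 0 := by
      unfold beta
      rw [ciSup_of_empty]
      rfl
    omega
  · obtain ⟨T, hT⟩ := exists_eq_ciSup_of_finite (f := fun S : {S : Set W // S.Nonempty} =>
      minDeg (H.induce S.1) + 1)
    exact ⟨T.1, T.2, hT⟩

/-- greedy colouring -/
lemma viol_greedy {W : Type} [Finite W] (H : SimpleGraph W) (n : ℕ) : ∀ T : Set W, T.ncard = n →
    ∃ c : W → ℕ, (∀ v ∈ T, c v < beta H) ∧ ∀ u ∈ T, ∀ v ∈ T, H.Adj u v → c u ≠ c v := by
  classical
  induction n with
  | zero =>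
    intro T hT
    rw [Set.ncard_eq_zero (Set.toFinite T)] at hT
    subst hT
    exact ⟨fun _ => 0, fun v hv => absurd hv (Set.notMem_empty v),
      fun u hu => absurd hu (Set.notMem_empty u)⟩
  | succ n ih =>
    intro T hT
    have hne : T.Nonempty := by
      rw [← Set.ncard_pos (Set.toFinite T)]
      omega
    haveI : Nonempty T := hne.to_subtype
    obtain ⟨v0, hv0⟩ := viol_minDeg_mem (H.induce T)
    have hb := viol_le_beta H T hne
    rw [← hv0, viol_nbr] at hb
    obtain ⟨c, hc1, hc2⟩ := ih (T \ {v0.1}) (by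
      rw [Set.ncard_diff_singleton_of_mem v0.2, hT]
      rfl)
    -- a free colour
    have hcard : (c '' {u | u ∈ T ∧ H.Adj v0.1 u}).ncard < (Set.Iio (beta H)).ncard := by
      have h1 : (c '' {u | u ∈ T ∧ H.Adj v0.1 u}).ncard ≤ {u | u ∈ T ∧ H.Adj v0.1 u}.ncard :=
        Set.ncard_image_le (Set.toFinite _)
      have h2 : (Set.Iio (beta H)).ncard = beta H := by
        rw [Set.ncard_eq_toFinset_card', Set.toFinset_Iio, Nat.card_Iio]
      omega
    obtain ⟨x, hx1, hx2⟩ := Set.exists_mem_notMem_of_ncard_lt_ncard hcard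
      ((Set.toFinite _).image _)
    refine ⟨Function.update c v0.1 x, ?_, ?_⟩
    · intro v hv
      by_cases h : v = v0.1
      · rw [h, Function.update_self]; exact hx1
      · rw [Function.update_of_ne h]
        exact hc1 v ⟨hv, h⟩
    · intro u hu v hv huv
      by_cases hu0 : u = v0.1
      · by_cases hv0' : v = v0.1
        · rw [hu0, hv0'] at huv
          exact absurd huv (H.irrefl)
        · rw [hu0, Function.update_self, Function.update_of_ne hv0']
          intro h
          apply hx2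
          rw [h]
          exact ⟨v, ⟨hv, by rw [← hu0]; exact huv⟩, rfl⟩
      · by_cases hv0' : v = v0.1
        · rw [hv0', Function.update_self, Function.update_of_ne hu0]
          intro h
          apply hx2
          rw [← h]
          exact ⟨u, ⟨hu, by rw [← hv0']; exact huv.symm⟩, rfl⟩
        · rw [Function.update_of_ne hu0, Function.update_of_ne hv0']
          exact hc2 u ⟨hu, hu0⟩ v ⟨hv, hv0'⟩ huv

lemma viol_colorable {W : Type} [Finite W] (H : SimpleGraph W) : H.Colorable (beta H) := by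
  obtain ⟨c, hc1, hc2⟩ := viol_greedy H _ Set.univ rfl
  exact ⟨SimpleGraph.Coloring.mk (fun v => ⟨c v, hc1 v (Set.mem_univ v)⟩) (by
    intro u v huv h
    exact hc2 u (Set.mem_univ u) v (Set.mem_univ v) huv (congrArg Fin.val h))⟩

lemma viol_of_ne {W : Type} [Finite W] (H : SimpleGraph W)
    (h : H.chromaticNumber ≠ (beta H : ℕ∞)) : ∃ (T : Set W) (k : ℕ), Viol H T k := by
  have hle := (viol_colorable H).chromaticNumber_le
  have hlt : H.chromaticNumber < (beta H : ℕ∞) := lt_of_le_of_ne hle h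
  obtain ⟨k, hk⟩ := ENat.ne_top_iff_exists.1 (ne_top_of_lt hlt)
  rw [← hk] at hlt
  have hkb : k < beta H := by exact_mod_cast hlt
  have hcol : H.Colorable k := by
    rw [← SimpleGraph.chromaticNumber_le_iff_colorable, ← hk]
  obtain ⟨C⟩ := hcol
  obtain ⟨T, hT, hTb⟩ := viol_beta_mem H (by omega)
  refine ⟨T, k, Set.toFinite T, hT, ?_, fun v => (C v).val, fun v _ => (C v).isLt, ?_⟩
  · intro v hv
    have h1 := viol_minDeg_le (H.induce T) ⟨v, hv⟩
    rw [viol_nbr] at h1
    simp only at h1
    omega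
  · intro u _ v _ huv h
    exact C.valid huv (Fin.ext h)

/-- JOB BP-VIOL (2). Violations of an induced subgraph. -/
theorem viol_comap_iff {W : Type} (G : SimpleGraph V) (φ : W → V) (hφ : Function.Injective φ)
    (k : ℕ) : (∃ S : Set W, Viol (G.comap φ) S k) ↔ ∃ S ⊆ Set.range φ, Viol G S k := by
  constructor
  · rintro ⟨S, hfin, hne, hdeg, c, hc1, hc2⟩
    refine ⟨φ '' S, Set.image_subset_range _ _, hfin.image _, hne.image _, ?_,
      Function.extend φ c (fun _ => 0), ?_, ?_⟩
    · rintro _ ⟨w, hw, rfl⟩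
      have h1 : {u | u ∈ φ '' S ∧ G.Adj (φ w) u} = φ '' {u | u ∈ S ∧ (G.comap φ).Adj w u} := by
        ext u
        constructor
        · rintro ⟨⟨u, hu, rfl⟩, h⟩
          exact ⟨u, ⟨hu, h⟩, rfl⟩
        · rintro ⟨u, ⟨hu, h⟩, rfl⟩
          exact ⟨⟨u, hu, rfl⟩, h⟩
      rw [h1, Set.ncard_image_of_injective _ hφ]
      exact hdeg w hw
    · rintro _ ⟨w, hw, rfl⟩
      rw [hφ.extend_apply]
      exact hc1 w hw
    · rintro _ ⟨u, hu, rfl⟩ _ ⟨v, hv, rfl⟩ huv
      rw [hφ.extend_apply, hφ.extend_apply]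
      exact hc2 u hu v hv huv
  · rintro ⟨S, hS, hfin, hne, hdeg, c, hc1, hc2⟩
    refine ⟨φ ⁻¹' S, hfin.preimage hφ.injOn, ?_, ?_, fun w => c (φ w), fun w hw => hc1 _ hw,
      fun u hu v hv huv => hc2 _ hu _ hv huv⟩
    · obtain ⟨v, hv⟩ := hne
      obtain ⟨w, rfl⟩ := hS hv
      exact ⟨w, hv⟩
    · intro w hw
      have h1 : {u | u ∈ S ∧ G.Adj (φ w) u} = φ '' {u | u ∈ φ ⁻¹' S ∧ (G.comap φ).Adj w u} := by
        ext u
        constructor
        · rintro ⟨hu, h⟩
          obtain ⟨u, rfl⟩ := hS hu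
          exact ⟨u, ⟨hu, h⟩, rfl⟩
        · rintro ⟨u, ⟨hu, h⟩, rfl⟩
          exact ⟨hu, h⟩
      have h2 := hdeg _ hw
      rw [h1, Set.ncard_image_of_injective _ hφ] at h2
      exact h2

/-- JOB BP-VIOL (1). A finite graph is not `β`-perfect iff it has a violation. -/
theorem not_betaPerfect_iff [Finite V] (G : SimpleGraph V) :
    ¬ BetaPerfect G ↔ ∃ (S : Set V) (k : ℕ), Viol G S k := by
  constructor
  · intro h
    unfold BetaPerfect at h
    push Not at h
    obtain ⟨S, hS⟩ := h
    obtain ⟨T, k, hT⟩ := viol_of_ne (G.induce S) hS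
    obtain ⟨T', _, hT'⟩ := (viol_comap_iff G (Subtype.val : S → V) Subtype.val_injective k).1
      ⟨T, hT⟩
    exact ⟨T', k, hT'⟩
  · rintro ⟨S, k, hfin, hne, hdeg, c, hc1, hc2⟩ hBP
    have h1 := hBP S
    haveI : Nonempty S := hne.to_subtype
    have hcol : (G.induce S).Colorable k :=
      ⟨SimpleGraph.Coloring.mk (fun v => ⟨c v.1, hc1 v.1 v.2⟩) (by
        intro u v huv h
        exact hc2 u.1 u.2 v.1 v.2 huv (congrArg Fin.val h))⟩
    have h2 := hcol.chromaticNumber_le
    rw [h1] at h2
    have h3 : beta (G.induce S) ≤ k := by exact_mod_cast h2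
    have h4 := viol_le_beta (G.induce S) Set.univ Set.univ_nonempty
    haveI : Nonempty (Set.univ : Set S) := Set.univ_nonempty.to_subtype
    have h5 : k ≤ minDeg ((G.induce S).induce (Set.univ : Set S)) := by
      apply viol_le_minDeg
      intro x
      rw [viol_nbr]
      have h6 := hdeg x.1.1 x.1.2
      have h7 := viol_nbr G S x.1
      rw [← h7] at h6
      refine h6.trans (le_of_eq ?_)
      congr 1
      ext u
      simp
    omega

/-- JOB BP-VIOL (3). An even hole is a violation with `k = 2`. -/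
theorem evenHoleFree_of_viol (G : SimpleGraph V) (h : ∀ S : Set V, ¬ Viol G S 2) :
    EvenHoleFree G := by
  intro m hm
  constructor
  intro e
  have hcomap : G.comap e = SimpleGraph.cycleGraph (2 * m) := by
    ext u v
    exact e.map_adj_iff
  have h1 : Viol (G.comap e) Set.univ 2 := by
    rw [hcomap]
    let C := SimpleGraph.cycleGraph.bicoloring_of_even (2 * m) (even_two_mul m)
    refine ⟨Set.toFinite _, ⟨⟨0, by omega⟩, Set.mem_univ _⟩, ?_,
      fun v => if C v then 1 else 0, ?_, ?_⟩
    · intro v _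
      obtain ⟨n, rfl⟩ : ∃ n, m = n + 2 := ⟨m - 2, by omega⟩
      have h2 : {u | u ∈ Set.univ ∧ (SimpleGraph.cycleGraph (2 * (n + 2))).Adj v u} =
          (SimpleGraph.cycleGraph (2 * (n + 2))).neighborSet v := by
        ext u
        simp
      rw [h2]
      have h3 := SimpleGraph.cycleGraph_degree_three_le (n := 2 * n + 1) (v := v)
      have h4 : ((SimpleGraph.cycleGraph (2 * (n + 2))).neighborSet v).ncard =
          (SimpleGraph.cycleGraph (2 * n + 1 + 3)).degree v := by
        rw [← SimpleGraph.card_neighborSet_eq_degree, Set.ncard_eq_toFinset_card',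
          Set.toFinset_card]
        rfl
      rw [h4, h3]
    · intro v _
      simp only
      split_ifs <;> omega
    · intro u _ v _ huv hc
      apply C.valid huv
      simp only at hc
      cases hu : C u <;> cases hv : C v <;> simp [hu, hv] at hc ⊢
  obtain ⟨S, _, hS⟩ := (viol_comap_iff G e e.injective 2).1 ⟨Set.univ, h1⟩
  exact h S hS

end Pool.Agent.H79.BP
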